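import Pool.Agent.MP_f00251_lc.Src.Graph

-- ======== part 0: formerly Pool.Agent.MP_f00251_lc.Basic
section MrgPart0

/-!
Basic properties of the chord system attached to a graph.
-/

set_option autoImplicit false

namespace Pool.Agent.MP_f00251_lc

open Function Equiv

theorem nodup_keys {W E : Type} (L : List (E × W × W)) (secs : List (Sec W E))
    (post : List (E × W × W)) (h1 : ((L ++ crs secs post).map Prod.fst).Nodup)
    (h2 : (secs.map Sec.j).Nodup) : ((xsI L ++ word secs post).map It.key).Nodup := by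
  have e0 : ∀ l : List (E × W × W), (xsI l).map It.key =
      l.map (fun c => ((Cl.cr c.1, false) : Cl W E × Bool)) := by
    intro l; simp [xsI, It.key]
  have e1 : (((word secs post).map It.key : List _) : Multiset (Cl W E × Bool)) =
      (((crs secs post).map (fun c => (Cl.cr c.1, false)) : List (Cl W E × Bool)) :
        Multiset (Cl W E × Bool)) +
      ((secs.flatMap (fun σ => [(Cl.win σ.j, false), (Cl.win σ.j, true)]) :
        List (Cl W E × Bool)) : Multiset (Cl W E × Bool)) := by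
    clear h1 h2
    induction secs with
    | nil => simp [word, crs, e0]
    | cons σ secs ih =>
      rw [word_cons, crs_cons]
      simp only [Sec.items, List.map_append, List.map_cons, List.flatMap_cons, e0, It.key,
        ← Multiset.coe_add, ← Multiset.cons_coe, ih, List.map_nil, Multiset.coe_nil,
        ← Multiset.singleton_add]
      abel
  rw [← Multiset.coe_nodup, List.map_append, ← Multiset.coe_add, e1, e0, ← add_assoc,
    Multiset.coe_add, ← List.map_append, Multiset.coe_add, Multiset.coe_nodup, List.nodup_append]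
  refine ⟨?_, ?_, ?_⟩
  · have := h1.map (f := fun e => ((Cl.cr e, false) : Cl W E × Bool)) (fun a b e => by simpa using e)
    rwa [List.map_map] at this
  · rw [List.nodup_flatMap]
    refine ⟨fun σ _ => by simp, (List.pairwise_map.1 h2).imp (fun {σ τ} hne => ?_)⟩
    simp [Function.onFun, hne, Ne.symm hne]
  · simp only [List.mem_map, List.mem_flatMap]
    rintro _ ⟨c, -, rfl⟩ _ ⟨σ, -, h⟩ rfl
    simp at h

namespace Gr

variable (G : Gr)

/-- The crossings which occur. -/
def Val : Lt → Prop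
  | .eta x _ => x < G.n
  | .hh x _ => x < G.n
  | .alt k g _ => g < G.q ∧ G.has k g = true
  | .rho j => j ≤ G.J
  | .rhp j => j ≤ G.J
  | .del j => j < G.J
  | .dep j => j < G.J
  | .cm j k => j < G.J ∧ G.act k j = true

instance : DecidablePred G.Val := fun l => by cases l <;> unfold Val <;> infer_instance

/-- The wires of a crossing. -/
def wr : Lt → Wr × Wr
  | .eta x v => (.s x, .y x v)
  | .hh x v => (.s x, .y x v)
  | .alt k g v => (.a g, G.leaf k g v)
  | .rho j => (.m j, .m (j + 1))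
  | .rhp j => (G.aP j, .m (j + 1))
  | .del j => (G.aP j, G.aC j)
  | .dep j => (.m (j + 1), G.aC j)
  | .cm j k => (.m (j + 1), G.sv k j)

theorem mem_items {θ v : Bool} {g : ℕ} {c : Cr} :
    c ∈ G.items θ v g ↔ ∃ k, G.has k g = true ∧ c = (.alt k g v, .a g, G.leaf k g v) := by
  simp only [items, List.mem_map, List.mem_filter]
  constructor
  · rintro ⟨k, ⟨-, h⟩, rfl⟩; exact ⟨k, h, rfl⟩
  · rintro ⟨k, h, rfl⟩; exact ⟨k, ⟨by cases k <;> cases θ <;> simp, h⟩, rfl⟩

theorem mem_Lv {θ v : Bool} {c : Cr} : c ∈ G.Lv θ v ↔ G.Val c.1 ∧ c.2 = G.wr c.1 ∧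
    ((∃ x, c.1 = .eta x v) ∨ (∃ x, c.1 = .hh x v) ∨ ∃ k g, c.1 = .alt k g v) := by
  obtain ⟨l, w⟩ := c
  simp only [Lv, List.mem_append, List.mem_map, List.mem_range, List.mem_flatMap, mem_items,
    Prod.mk.injEq]
  constructor
  · rintro (⟨x, h, rfl, rfl⟩ | ⟨g, h, k, h', rfl, rfl⟩ | ⟨x, h, rfl, rfl⟩)
    · exact ⟨h, rfl, Or.inl ⟨_, rfl⟩⟩
    · exact ⟨⟨h, h'⟩, rfl, Or.inr (Or.inr ⟨_, _, rfl⟩)⟩
    · exact ⟨h, rfl, Or.inr (Or.inl ⟨_, rfl⟩)⟩
  · rintro ⟨h, rfl, ⟨x, rfl⟩ | ⟨x, rfl⟩ | ⟨k, g, rfl⟩⟩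
    · exact Or.inl ⟨x, h, rfl, rfl⟩
    · exact Or.inr (Or.inr ⟨x, h, rfl, rfl⟩)
    · exact Or.inr (Or.inl ⟨g, h.1, k, h.2, rfl, rfl⟩)

/-- The crossings of the left word. -/
def isL : Lt → Bool
  | .eta _ _ => true
  | .hh _ _ => true
  | .alt _ _ _ => true
  | _ => false

theorem mem_Lw {θ : Bool} {c : Cr} :
    c ∈ G.Lw θ ↔ G.Val c.1 ∧ c.2 = G.wr c.1 ∧ isL c.1 = true := by
  obtain ⟨l, w⟩ := c
  simp only [Lw, List.mem_append, mem_Lv, ← and_or_left]
  cases l <;> simp [isL]

theorem mem_crs {c : Cr} : c ∈ crs G.secs G.post ↔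
    G.Val c.1 ∧ c.2 = G.wr c.1 ∧ isL c.1 = false ∧ c.1 ≠ .rho 0 := by
  obtain ⟨l, w⟩ := c
  simp only [crs, secs, post, List.flatMap_map, List.mem_append, List.mem_flatMap, List.mem_range,
    sec, List.mem_cons, List.mem_map, List.mem_filter, Prod.mk.injEq, List.not_mem_nil, or_false]
  constructor
  · rintro (⟨j, hj, (⟨rfl, rfl⟩ | ⟨rfl, rfl⟩) | ⟨rfl, rfl⟩ | ⟨k, ⟨-, h⟩, rfl, rfl⟩ | ⟨rfl, rfl⟩⟩ |
      ⟨rfl, rfl⟩) <;> simp [Val, wr, isL, *]
    all_goals omega
  · rintro ⟨h, rfl, h1, h2⟩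
    cases l with
    | eta x v => simp [isL] at h1
    | hh x v => simp [isL] at h1
    | alt k g v => simp [isL] at h1
    | rho j =>
      obtain ⟨j, rfl⟩ : ∃ i, j = i + 1 := ⟨j - 1, by simp at h2; omega⟩
      exact Or.inl ⟨j, h, by simp [wr]⟩
    | rhp j =>
      rcases Nat.lt_or_eq_of_le h with h | rfl
      · exact Or.inl ⟨j, h, by simp [wr]⟩
      · exact Or.inr ⟨rfl, rfl⟩
    | del j => exact Or.inl ⟨j, h, by simp [wr]⟩
    | dep j => exact Or.inl ⟨j, h, by simp [wr]⟩
    | cm j k => exact Or.inl ⟨j, h.1, by cases k <;> simp [wr, h.2]⟩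

theorem mem_allcr {θ : Bool} {c : Cr} : c ∈ G.allcr θ ↔ G.Val c.1 ∧ c.2 = G.wr c.1 := by
  simp only [allcr, L0, List.mem_append, mem_Lw, mem_crs, List.mem_singleton]
  constructor
  · rintro ((h | rfl) | h)
    · exact ⟨h.1, h.2.1⟩
    · exact ⟨Nat.zero_le _, rfl⟩
    · exact ⟨h.1, h.2.1⟩
  · rintro ⟨h1, h2⟩
    by_cases e : c.1 = .rho 0
    · exact Or.inl (Or.inr (Prod.ext e (by rw [h2, e]; rfl)))
    · cases h : isL c.1
      · exact Or.inr ⟨h1, h2, rfl, e⟩
      · exact Or.inl (Or.inl ⟨h1, h2, rfl⟩)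

theorem nodup_Lv (θ v : Bool) : ((G.Lv θ v).map Prod.fst).Nodup := by
  simp only [Lv, List.map_append, List.map_map, List.nodup_append, List.map_flatMap]
  refine ⟨List.nodup_range.map (fun a b e => by simpa using e), ⟨?_,
    List.nodup_range.map (fun a b e => by simpa using e), ?_⟩, ?_⟩
  · rw [List.nodup_flatMap]
    refine ⟨fun g _ => ?_, List.nodup_range.imp (fun {g g'} hne => ?_)⟩
    · rw [items, List.map_map]
      exact List.Nodup.map (fun a b e => by simpa using e) (List.Nodup.filter _ (by simp))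
    · intro l h1 h2
      simp only [List.mem_map, mem_items] at h1 h2
      obtain ⟨_, ⟨k, -, rfl⟩, rfl⟩ := h1
      obtain ⟨_, ⟨k', -, rfl⟩, e⟩ := h2
      simp at e; exact hne e.2.symm
  · simp only [List.mem_flatMap, List.mem_map, mem_items]
    rintro _ ⟨g, -, _, ⟨k, -, rfl⟩, rfl⟩ _ ⟨x, -, rfl⟩
    simp
  · simp only [List.mem_append, List.mem_flatMap, List.mem_map, mem_items]
    rintro _ ⟨x, -, rfl⟩ _ (⟨g, -, _, ⟨k, -, rfl⟩, rfl⟩ | ⟨x, -, rfl⟩) <;> simp

theorem nodup_crs : ((crs G.secs G.post).map Prod.fst).Nodup := by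
  simp only [crs, secs, post, List.flatMap_map, List.map_append, List.map_flatMap,
    List.nodup_append]
  have key : ∀ j l, l ∈ (G.sec j).pre.map Prod.fst ++ (G.sec j).mid.map Prod.fst →
      l = .del j ∨ l = .rhp j ∨ l = .rho (j + 1) ∨ l = .dep j ∨ ∃ k, l = .cm j k := by
    intro j l h
    simp only [sec, List.map_cons, List.map_nil, List.map_append, List.map_map, List.mem_append,
      List.mem_cons, List.not_mem_nil, or_false, List.mem_map] at h
    rcases h with (h | h) | h | ⟨k, -, h⟩ | h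
    · simp [h]
    · simp [h]
    · simp [h]
    · exact Or.inr (Or.inr (Or.inr (Or.inr ⟨k, h.symm⟩)))
    · simp [h]
  refine ⟨?_, by simp, ?_⟩
  · rw [List.nodup_flatMap]
    refine ⟨fun j _ => ?_, List.nodup_range.imp (fun {g g'} hne => ?_)⟩
    · cases h1 : G.act false j <;> cases h2 : G.act true j <;> simp [sec, h1, h2]
    · intro l h1 h2
      rcases key _ _ h1 with rfl | rfl | rfl | rfl | ⟨k, rfl⟩ <;>
      rcases key _ _ h2 with e | e | e | e | ⟨k', e⟩ <;> simp at e <;> omega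
  · simp only [List.mem_flatMap, List.mem_range, List.map_cons, List.map_nil, List.mem_singleton]
    rintro l ⟨j, hj, h⟩ _ rfl rfl
    rcases key _ _ h with e | e | e | e | ⟨k', e⟩ <;> simp at e
    omega

theorem nodup_allcr (θ : Bool) : ((G.allcr θ).map Prod.fst).Nodup := by
  simp only [allcr, L0, Lw, List.map_append, List.nodup_append]
  refine ⟨⟨⟨G.nodup_Lv _ _, G.nodup_Lv _ _, ?_⟩, by simp, ?_⟩, G.nodup_crs, ?_⟩
  · simp only [List.mem_map, mem_Lv]
    rintro _ ⟨c, ⟨-, -, h⟩, rfl⟩ _ ⟨d, ⟨-, -, h'⟩, rfl⟩ e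
    rcases h with ⟨x, h⟩ | ⟨x, h⟩ | ⟨k, g, h⟩ <;> rcases h' with ⟨x', h'⟩ | ⟨x', h'⟩ | ⟨k', g', h'⟩ <;>
    rw [h, h'] at e <;> simp at e
  · simp only [← List.map_append, List.mem_map]
    rintro _ ⟨c, h, rfl⟩ _ ⟨d, h', rfl⟩ e
    have := (G.mem_Lw.1 h).2.2
    rw [List.mem_singleton] at h'
    rw [e, h'] at this
    simp [isL] at this
  · simp only [← List.map_append, List.mem_map]
    rintro _ ⟨c, h, rfl⟩ _ ⟨d, h', rfl⟩ e
    rw [mem_crs] at h'
    rcases List.mem_append.1 h with h | h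
    · have := (G.mem_Lw.1 h).2.2
      rw [e, h'.2.2.1] at this
      simp at this
    · rw [List.mem_singleton] at h
      exact h'.2.2.2 (by rw [← e, h])

theorem mem_ys {w : Wr} : w ∈ G.ys ↔ ∃ x < G.n, ∃ v, w = .y x v := by
  simp only [ys, List.mem_append, List.mem_map, List.mem_range]
  constructor
  · rintro (⟨x, h, rfl⟩ | ⟨x, h, rfl⟩) <;> exact ⟨x, h, _, rfl⟩
  · rintro ⟨x, h, _ | _, rfl⟩
    · exact Or.inl ⟨x, h, rfl⟩
    · exact Or.inr ⟨x, h, rfl⟩

@[simp] theorem s_mem {x : ℕ} : Wr.s x ∈ G.ws ↔ x < G.n := by simp [ws, core, mem_ys]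
@[simp] theorem a_mem {x : ℕ} : Wr.a x ∈ G.ws ↔ x < G.J := by simp [ws, core, mem_ys]
@[simp] theorem m_mem {x : ℕ} : Wr.m x ∈ G.ws ↔ x < G.J + 2 := by simp [ws, core, mem_ys]
@[simp] theorem y_mem {x : ℕ} {v : Bool} : Wr.y x v ∈ G.ws ↔ x < G.n := by
  simp [ws, core, mem_ys]

theorem nodup_ys : G.ys.Nodup := by
  simp only [ys, List.nodup_append]
  refine ⟨List.nodup_range.map (fun a b e => by simpa using e),
    List.nodup_range.map (fun a b e => by simpa using e), by simp⟩

theorem nodup_ws : G.ws.Nodup := by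
  simp only [ws, core, List.nodup_append]
  refine ⟨⟨List.nodup_range.map (fun a b e => by simpa using e),
    ⟨List.nodup_range.map (fun a b e => by simpa using e),
    List.nodup_range.map (fun a b e => by simpa using e), by simp⟩, ?_⟩, G.nodup_ys, ?_⟩
  · simp only [List.mem_map, List.mem_append]
    rintro _ ⟨x, -, rfl⟩ _ (⟨x, -, rfl⟩ | ⟨x, -, rfl⟩) <;> simp
  · simp only [List.mem_map, List.mem_append, mem_ys]
    rintro _ (⟨x, -, rfl⟩ | ⟨x, -, rfl⟩ | ⟨x, -, rfl⟩) _ ⟨x, -, v, rfl⟩ <;> simp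

theorem has_odd {k : Bool} {g : ℕ} (h : G.has k g = true) : g % 2 = 1 := by
  unfold has at h
  split_ifs at h <;> simp at h <;> omega

theorem q_eq : G.q = 4 * (G.e + G.n) := rfl
theorem J_eq : G.J = 2 * G.q + 4 * G.e + 1 := rfl

variable {G} (hG : GoodG G.n G.E)
include hG

theorem e_zero (h : G.n = 0) : G.e = 0 := by
  unfold e
  by_contra hc
  obtain ⟨c, hc⟩ := List.exists_mem_of_length_pos (Nat.pos_of_ne_zero hc)
  have := (hG.lt c hc).1
  omega

theorem md_lt {j : ℕ} (hj : j < G.J) (ho : j % 2 = 1) : G.md j < G.q := by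
  have := e_zero hG
  have := G.q_eq
  have := G.J_eq
  unfold md
  split_ifs <;> omega

theorem edge_mem {g : ℕ} (h : g / 4 < G.e) : G.E.getD (g / 4) (0, 0) ∈ G.E := by
  rw [List.getD_eq_getElem _ _ h]; exact List.getElem_mem _

theorem xv_lt {k : Bool} {g : ℕ} (hg : g < G.q) : G.xv k g < G.n := by
  unfold xv
  have := G.q_eq
  split_ifs with h1 h2
  · exact (hG.lt _ (edge_mem hG h1)).1
  · exact (hG.lt _ (edge_mem hG h1)).2
  · omega

theorem xv_ne {g : ℕ} (h1 : G.has false g = true) (h2 : G.has true g = true) :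
    G.xv false g ≠ G.xv true g := by
  unfold has at h1 h2
  unfold xv
  by_cases h : g / 4 < G.e
  · simpa [h] using (hG.ne _ (edge_mem hG h)).symm
  · simp [h] at h1 h2
    omega

omit hG in
theorem act_has {k : Bool} {j : ℕ} (h : G.act k j = true) : G.has k (G.md j) = true := by
  unfold act at h
  exact (Bool.and_eq_true_iff.1 h).1

omit hG in
theorem act_odd {k : Bool} {j : ℕ} (h : G.act k j = true) : j % 2 = 1 := by
  have := G.has_odd (act_has h)
  have := G.q_eq
  unfold md at *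
  split_ifs at * <;> omega

omit hG in
theorem rep_le (j : ℕ) : G.rep j ≤ j := by
  unfold rep md; split_ifs <;> omega

omit hG in
theorem rep_mod (j : ℕ) : G.rep j % 2 = j % 2 := by
  have := G.q_eq
  unfold rep md; split_ifs <;> omega

theorem wr_mem {l : Lt} (h : G.Val l) :
    (G.wr l).1 ∈ G.ws ∧ (G.wr l).2 ∈ G.ws ∧ (G.wr l).1 ≠ (G.wr l).2 := by
  have hJ := G.J_eq
  cases l with
  | eta x v => simpa [wr, Val] using h
  | hh x v => simpa [wr, Val] using h
  | alt k g v =>
    have := xv_lt hG (k := k) h.1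
    have := h.1
    cases k <;> simp [wr, leaf, *] <;> omega
  | rho j => simp only [Val] at h; simp [wr]; omega
  | rhp j =>
    simp only [Val] at h
    have := rep_le (G := G) (j - 1)
    simp only [wr, aP]
    split_ifs <;> simp <;> omega
  | del j =>
    simp only [Val] at h
    have := rep_le (G := G) (j - 1)
    have := rep_le (G := G) j
    have := rep_mod (G := G) (j - 1)
    have := rep_mod (G := G) j
    simp only [wr, aP, aC]
    split_ifs <;> simp <;> omega
  | dep j =>
    simp only [Val] at h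
    have := rep_le (G := G) j
    simp [wr, aC]; omega
  | cm j k =>
    have := xv_lt hG (k := k) (md_lt hG h.1 (act_odd h.2))
    have := h.1
    simp [wr, sv, *]; omega

theorem allcr_mem {θ : Bool} {c : Cr} (h : c ∈ G.allcr θ) :
    c.2.1 ∈ G.ws ∧ c.2.2 ∈ G.ws ∧ c.2.1 ≠ c.2.2 := by
  rw [mem_allcr] at h
  rw [h.2]; exact wr_mem hG h.1

omit hG in
theorem mem_secs {σ : Sec Wr Lt} : σ ∈ G.secs ↔ ∃ j < G.J, σ = G.sec j := by
  simp [secs, eq_comm]

theorem inside : Inside (· ∈ G.ws) G.secs G.post := by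
  refine ⟨fun c hc => ?_, fun σ hσ => ?_⟩
  · have := allcr_mem hG (θ := false) (List.mem_append_right _ hc)
    exact ⟨this.1, this.2.1⟩
  · obtain ⟨j, hj, rfl⟩ := mem_secs.1 hσ
    have h1 := fun k h => (wr_mem hG (l := .cm j k) ⟨hj, h⟩).2.1
    have h2 := wr_mem hG (l := .dep j) hj
    simp only [wr] at h1 h2
    simp only [sec]
    constructor
    · split_ifs with h
      · exact h1 _ (Bool.and_eq_true_iff.1 h).1
      · exact h2.1
    · split_ifs with h h'
      · exact h1 _ h
      · exact h1 _ h'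
      · exact h2.2.1

omit hG in
theorem mem_wd_X {θ : Bool} {l : Lt} {u v : Wr} : It.X l u v ∈ G.wd θ ↔ (l, u, v) ∈ G.allcr θ := by
  simp [wd, allcr, mem_word_X, xsI]

omit hG in
theorem mem_wd_Q {θ : Bool} {j : ℕ} {s : Bool} {w : Wr} :
    It.Q j s w ∈ G.wd θ ↔ j < G.J ∧ w = if s then (G.sec j).w2 else (G.sec j).w1 := by
  have : It.Q j s w ∈ G.wd θ ↔ It.Q j s w ∈ word G.secs G.post := by simp [wd, xsI]
  rw [this, mem_word_Q]
  constructor
  · rintro ⟨σ, hσ, rfl, rfl⟩
    obtain ⟨j, hj, rfl⟩ := mem_secs.1 hσ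
    exact ⟨hj, rfl⟩
  · rintro ⟨hj, rfl⟩
    exact ⟨_, mem_secs.2 ⟨j, hj, rfl⟩, rfl, rfl⟩

theorem wfm (θ : Bool) : WFM G.ws (G.wd θ) := by
  refine ⟨G.nodup_ws, nodup_keys _ _ _ (G.nodup_allcr θ) ?_, fun l u v h => ?_,
    fun j s w h => ?_⟩
  · rw [secs, List.map_map]
    exact List.nodup_range.map (fun a b e => e)
  · have := allcr_mem hG (mem_wd_X.1 h)
    exact ⟨this.2.2, this.1, this.2.1⟩
  · obtain ⟨hj, rfl⟩ := mem_wd_Q.1 h
    have := (inside hG).2 _ (mem_secs.2 ⟨j, hj, rfl⟩)
    exact ⟨by split_ifs; exacts [this.2, this.1], _, mem_wd_Q.2 ⟨hj, rfl⟩⟩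

theorem mem_bl_cr {θ b : Bool} {l : Lt} : (Cl.cr l, b) ∈ G.bl θ ↔ G.Val l := by
  rw [bl, (wfm hG θ).mem_cr]
  simp only [mem_wd_X, mem_allcr]
  exact ⟨fun ⟨_, _, h⟩ => h.1, fun h => ⟨_, _, h, rfl⟩⟩

theorem mem_bl_win {θ b : Bool} {j : ℕ} : (Cl.win j, b) ∈ G.bl θ ↔ j < G.J := by
  rw [bl, (wfm hG θ).mem_win]
  simp [mem_wd_Q]

end Gr

end Pool.Agent.MP_f00251_lc

end MrgPart0

-- ======== part 1: formerly Pool.Agent.MP_f00251_lc.LForm
section MrgPart1

/-!
The permutation given by the left word.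
-/

set_option autoImplicit false

namespace Pool.Agent.MP_f00251_lc

open Function Equiv

@[simp] theorem sIf_false (u v : Wr) : sIf false u v = 1 := rfl
@[simp] theorem sIf_true (u v : Wr) : sIf true u v = swap u v := rfl

theorem sIf_fix {b : Bool} {u v z : Wr} (h : b = true → z ≠ u ∧ z ≠ v) : sIf b u v z = z := by
  cases b
  · rfl
  · exact swap_apply_of_ne_of_ne (h rfl).1 (h rfl).2

theorem conj_sIf (ψ : Perm Wr) (b : Bool) (u v : Wr) : ψ * sIf b u v * ψ⁻¹ = sIf b (ψ u) (ψ v) := by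
  cases b
  · simp
  · exact (swap_apply_apply ψ u v).symm

/-- The product of the permutations of a list of groups. -/
def pg (F : ℕ → Perm Wr) : List ℕ → Perm Wr
  | [] => 1
  | g :: l => pg F l * F g

theorem pg_append (F : ℕ → Perm Wr) (l l' : List ℕ) : pg F (l ++ l') = pg F l' * pg F l := by
  induction l with
  | nil => simp [pg]
  | cons c l ih => rw [List.cons_append, pg, pg, ih, mul_assoc]

theorem pm_flatMap (od : Lt → Bool) (f : ℕ → List Cr) (l : List ℕ) :
    pm od (l.flatMap f) = pg (fun g => pm od (f g)) l := by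
  induction l with
  | nil => rfl
  | cons c l ih => rw [List.flatMap_cons, pm_append, ih, pg]

theorem pg_congr {F F' : ℕ → Perm Wr} {l : List ℕ} (h : ∀ g ∈ l, F g = F' g) :
    pg F l = pg F' l := by
  induction l with
  | nil => rfl
  | cons c l ih => rw [pg, pg, ih (fun g hg => h g (by simp [hg])), h c (by simp)]

theorem pg_conj (ψ : Perm Wr) (F : ℕ → Perm Wr) (l : List ℕ) :
    ψ * pg F l * ψ⁻¹ = pg (fun g => ψ * F g * ψ⁻¹) l := by
  induction l with
  | nil => simp [pg]
  | cons c l ih => rw [pg, pg, ← ih]; group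

theorem pg_fix {F : ℕ → Perm Wr} {l : List ℕ} {z : Wr} (h : ∀ g ∈ l, F g z = z) :
    pg F l z = z := by
  induction l with
  | nil => rfl
  | cons c l ih => rw [pg, Perm.mul_apply, h c (by simp), ih (fun g hg => h g (by simp [hg]))]

theorem pg_two {F : ℕ → Perm Wr} {g1 g2 : ℕ} (h12 : g1 < g2) (N : ℕ)
    (h : ∀ g < N, g ≠ g1 → g ≠ g2 → F g = 1) :
    pg F (List.range N) = (if g2 < N then F g2 else 1) * (if g1 < N then F g1 else 1) := by
  induction N with
  | zero => simp [pg]
  | succ N ih =>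
    rw [List.range_succ, pg_append, ih (fun g hg => h g (by omega))]
    simp only [pg, one_mul]
    by_cases e1 : N = g1
    · subst e1
      simp [show ¬ g2 < N by omega, show ¬ g2 < N + 1 by omega]
    by_cases e2 : N = g2
    · subst e2
      simp [h12, show g1 < N + 1 by omega]
    rw [h N (by omega) e1 e2, one_mul]
    simp only [show g2 < N + 1 ↔ g2 < N by omega, show g1 < N + 1 ↔ g1 < N by omega]

theorem pg_one {F : ℕ → Perm Wr} {g1 N : ℕ} (h1 : g1 < N) (h : ∀ g < N, g ≠ g1 → F g = 1) :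
    pg F (List.range N) = F g1 := by
  rw [pg_two h1 N (fun g hg e _ => h g hg e)]; simp [h1]

section Groups

variable {o1 o2 : ℕ → Bool} {l1 l2 : ℕ → Wr}

/-- The permutation of a group with two optional crossings. -/
def GP (o1 o2 : ℕ → Bool) (l1 l2 : ℕ → Wr) (g : ℕ) : Perm Wr :=
  sIf (o2 g) (.a g) (l2 g) * sIf (o1 g) (.a g) (l1 g)

variable (h1 : ∀ g g', l1 g ≠ .a g') (h2 : ∀ g g', l2 g ≠ .a g')
include h1 h2

theorem gp_S1 {gs : List ℕ} {g0 : ℕ} (h : g0 ∈ gs → o1 g0 = false ∧ o2 g0 = false) :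
    pg (GP o1 o2 l1 l2) gs (.a g0) = .a g0 := by
  refine pg_fix (fun g hg => ?_)
  by_cases e : g = g0
  · subst e; simp [GP, h hg]
  · rw [GP, Perm.mul_apply, sIf_fix (fun _ => ⟨by simpa using Ne.symm e, (h1 _ _).symm⟩),
      sIf_fix (fun _ => ⟨by simpa using Ne.symm e, (h2 _ _).symm⟩)]

omit h1 h2 in
theorem gp_T1 {g : ℕ} {z : Wr} (hz : ∀ g, z ≠ .a g)
    (h : (o1 g = true → l1 g ≠ z) ∧ (o2 g = true → l2 g ≠ z)) : GP o1 o2 l1 l2 g z = z := by
  rw [GP, Perm.mul_apply, sIf_fix (fun e => ⟨hz _, (h.1 e).symm⟩),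
    sIf_fix (fun e => ⟨hz _, (h.2 e).symm⟩)]

theorem gp_S2 {gs : List ℕ} (hnd : gs.Nodup) {z : Wr} (hz : ∀ g, z ≠ .a g)
    (h : ∀ g ∈ gs, o1 g = true → o2 g = true → l1 g ≠ z) :
    pg (GP o1 o2 l1 l2) gs z = z ∨ ∃ g, pg (GP o1 o2 l1 l2) gs z = .a g := by
  induction gs with
  | nil => exact Or.inl rfl
  | cons g gs ih =>
    rw [List.nodup_cons] at hnd
    rw [pg, Perm.mul_apply]
    by_cases c1 : o1 g = true ∧ l1 g = z
    · have c2 : o2 g = false := by
        by_contra c2
        exact h g (by simp) c1.1 (by simpa using c2) c1.2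
      refine Or.inr ⟨g, ?_⟩
      rw [show GP o1 o2 l1 l2 g z = .a g by simp [GP, c1.1, c1.2, c2]]
      exact gp_S1 h1 h2 (fun hg => absurd hg hnd.1)
    by_cases c2 : o2 g = true ∧ l2 g = z
    · refine Or.inr ⟨g, ?_⟩
      rw [show GP o1 o2 l1 l2 g z = .a g by
        rw [GP, Perm.mul_apply, sIf_fix (fun e => ⟨hz _, fun e' => c1 ⟨e, e'.symm⟩⟩)]
        simp [c2.1, c2.2]]
      exact gp_S1 h1 h2 (fun hg => absurd hg hnd.1)
    rw [gp_T1 hz ⟨fun e e' => c1 ⟨e, e'⟩, fun e e' => c2 ⟨e, e'⟩⟩]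
    exact ih hnd.2 (fun g hg => h g (by simp [hg]))

theorem gp_S3 (h12 : ∀ g g', l1 g ≠ l2 g') {gs : List ℕ} (hnd : gs.Nodup) {z : Wr}
    (hz : ∀ g, z ≠ .a g) (h : ∃ g ∈ gs, (o1 g = true ∧ l1 g = z) ∨ (o2 g = true ∧ l2 g = z)) :
    (∃ g, pg (GP o1 o2 l1 l2) gs z = .a g) ∨
      ∃ g, o1 g = true ∧ o2 g = true ∧ l1 g = z ∧ pg (GP o1 o2 l1 l2) gs z = l2 g := by
  induction gs with
  | nil => simp at h
  | cons g gs ih =>
    rw [List.nodup_cons] at hnd
    rw [pg, Perm.mul_apply]
    by_cases c1 : o1 g = true ∧ l1 g = z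
    · cases c2 : o2 g
      · refine Or.inl ⟨g, ?_⟩
        rw [show GP o1 o2 l1 l2 g z = .a g by simp [GP, c1.1, c1.2, c2]]
        exact gp_S1 h1 h2 (fun hg => absurd hg hnd.1)
      · rw [show GP o1 o2 l1 l2 g z = l2 g by simp [GP, c1.1, c1.2, c2]]
        rcases gp_S2 (o1 := o1) (o2 := o2) h1 h2 hnd.2 (h2 g) (fun g' _ _ _ => h12 g' g) with e | e
        · exact Or.inr ⟨g, c1.1, c2, c1.2, e⟩
        · exact Or.inl e
    by_cases c2 : o2 g = true ∧ l2 g = z
    · refine Or.inl ⟨g, ?_⟩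
      rw [show GP o1 o2 l1 l2 g z = .a g by
        rw [GP, Perm.mul_apply, sIf_fix (fun e => ⟨hz _, fun e' => c1 ⟨e, e'.symm⟩⟩)]
        simp [c2.1, c2.2]]
      exact gp_S1 h1 h2 (fun hg => absurd hg hnd.1)
    rw [gp_T1 hz ⟨fun e e' => c1 ⟨e, e'⟩, fun e e' => c2 ⟨e, e'⟩⟩]
    refine ih hnd.2 ?_
    obtain ⟨g', hg', e⟩ := h
    rcases List.mem_cons.1 hg' with rfl | hg'
    · tauto
    · exact ⟨g', hg', e⟩

theorem gp_NZ {gs : List ℕ} (hnd : gs.Nodup) {g : ℕ} (hg : g ∈ gs)
    (ho : o1 g = true ∨ o2 g = true) (hl : o1 g = true → o2 g = true → l1 g ≠ l2 g) :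
    pg (GP o1 o2 l1 l2) gs (.a g) ≠ .a g := by
  obtain ⟨s, t, rfl⟩ := List.append_of_mem hg
  simp only [List.nodup_append, List.nodup_cons, List.mem_cons] at hnd
  rw [pg_append, pg, Perm.mul_apply, Perm.mul_apply,
    gp_S1 h1 h2 (fun h => absurd rfl (hnd.2.2 g h g (Or.inl rfl)))]
  intro e
  have e' := (pg _ t).injective
    (e.trans (gp_S1 (o1 := o1) (o2 := o2) h1 h2 (fun h => absurd h hnd.2.1.1)).symm)
  revert e' ho hl
  rw [GP]
  have a1 := h1 g g
  have a2 := h2 g g
  cases o1 g <;> cases o2 g <;> simp [a1, a2]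
  intro hl
  rw [swap_apply_of_ne_of_ne a1 hl]
  exact a1

end Groups

/-- Exchange of the wire of a vertex and of its value wire. -/
def swf (f : ℕ → Bool) (v : Bool) : Wr → Wr
  | .s x => if f x then .y x v else .s x
  | .y x v' => if v' = v ∧ f x = true then .s x else .y x v'
  | w => w

theorem swf_swf (f : ℕ → Bool) (v : Bool) (z : Wr) : swf f v (swf f v z) = z := by
  cases z with
  | s x => cases h : f x <;> simp [swf, h]
  | y x v' => by_cases h : v' = v ∧ f x = true <;> simp [swf, h]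
  | a j => rfl
  | m j => rfl

theorem pm_swf (od : Lt → Bool) (L : ℕ → Lt) (v : Bool) (n : ℕ) (z : Wr) :
    pm od ((List.range n).map (fun x => ((L x, .s x, .y x v) : Cr))) z =
      swf (fun x => decide (x < n) && od (L x)) v z := by
  induction n with
  | zero => cases z <;> simp [swf]
  | succ n ih =>
    rw [List.range_succ, List.map_append, pm_append, Perm.mul_apply, ih]
    simp only [List.map_cons, List.map_nil, pm_cons, pm_nil, one_mul]
    cases z with
    | s x =>
      rcases lt_trichotomy x n with h | rfl | h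
      · cases h1 : od (L x) <;> cases od (L n) <;>
          simp [swf, h, h1, h.le, Nat.lt_succ_iff, swap_apply_def, h.ne]
      · cases h1 : od (L x) <;> simp [swf, h1]
      · cases od (L n) <;> simp [swf, Nat.lt_succ_iff, swap_apply_def, h.ne', h.le.not_gt, h.not_ge]
    | y x v' =>
      rcases lt_trichotomy x n with h | rfl | h
      · cases h1 : od (L x) <;> cases od (L n) <;> by_cases e : v' = v <;>
          simp [swf, h, h1, h.le, Nat.lt_succ_iff, swap_apply_def, h.ne, e]
      · cases h1 : od (L x) <;> by_cases e : v' = v <;> simp [swf, h1, e, swap_apply_def]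
      · cases od (L n) <;> simp [swf, Nat.lt_succ_iff, swap_apply_def, h.ne', h.le.not_gt, h.not_ge]
    | a j => cases od (L n) <;> simp [swf, swap_apply_def]
    | m j => cases od (L n) <;> simp [swf, swap_apply_def]

namespace Gr

variable (G : Gr) (od : Lt → Bool)

/-- The crossing of kind `k` and value `v` of the group `g` exists and is odd. -/
def o (k v : Bool) (g : ℕ) : Bool := G.has k g && od (.alt k g v)

/-- First and last parts of a half of the left word. -/
def AA (L : ℕ → Lt) (v : Bool) : Perm Wr :=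
  pm od ((List.range G.n).map (fun x => ((L x, .s x, .y x v) : Cr)))

theorem AA_apply (L : ℕ → Lt) (v : Bool) (z : Wr) :
    G.AA od L v z = swf (fun x => decide (x < G.n) && od (L x)) v z := pm_swf ..

theorem pm_items (θ v : Bool) (g : ℕ) : pm od (G.items θ v g) =
    GP (G.o od (!θ) v) (G.o od θ v) (fun g => G.leaf (!θ) g v) (fun g => G.leaf θ g v) g := by
  unfold items GP o
  cases h1 : G.has θ g <;> cases h2 : G.has (!θ) g <;> simp [h1, h2, pm_cons, sIf]

theorem pm_Lv (θ v : Bool) : pm od (G.Lv θ v) = G.AA od (.hh · v) v *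
    pg (GP (G.o od (!θ) v) (G.o od θ v) (fun g => G.leaf (!θ) g v) (fun g => G.leaf θ g v))
      (List.range G.q) * G.AA od (.eta · v) v := by
  rw [Lv, pm_append, pm_append, pm_flatMap]
  simp only [pm_items]
  rfl

theorem leaf_ne (k v : Bool) (g g' : ℕ) : G.leaf k g v ≠ .a g' := by
  cases k <;> simp [leaf]

/-- Regular parities of the left word. -/
structure Reg1 : Prop where
  eh : ∀ x < G.n, ∀ v, od (.hh x v) = od (.eta x v)
  alt : ∀ k v, ∀ g < G.q, G.o od k v g = true → od (.eta (G.xv k g) v) = k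

variable {G od}

theorem o_has {k v : Bool} {g : ℕ} (h : G.o od k v g = true) : G.has k g = true :=
  (Bool.and_eq_true_iff.1 h).1

theorem Lv_fix_y (θ v : Bool) (x : ℕ) : pm od (G.Lv θ v) (.y x (!v)) = .y x (!v) := by
  refine pm_fix (fun c hc _ => ?_)
  obtain ⟨-, h1, ⟨x', h⟩ | ⟨x', h⟩ | ⟨k, g, h⟩⟩ := G.mem_Lv.1 hc <;> rw [h1, h] <;> simp [wr]
  cases k <;> simp [leaf]

theorem xv_ne' (hG : GoodG G.n G.E) {k k' : Bool} {g : ℕ} (h1 : G.has k g = true)
    (h2 : G.has k' g = true) (hk : k ≠ k') : G.xv k g ≠ G.xv k' g := by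
  cases k <;> cases k'
  · exact absurd rfl hk
  · exact xv_ne hG h1 h2
  · exact (xv_ne hG h2 h1).symm
  · exact absurd rfl hk

theorem reg1_of_fix (hG : GoodG G.n G.E) {θ : Bool}
    (h : ∀ x v, pm od (G.Lw θ) (.y x v) = .y x v) : G.Reg1 od := by
  have h1 : ∀ x v, pm od (G.Lv θ v) (.y x v) = .y x v := by
    intro x v
    have := h x v
    rw [Lw, pm_append, Perm.mul_apply] at this
    cases v
    · exact (pm od _).injective (this.trans (Lv_fix_y (od := od) θ true x).symm)
    · rwa [show pm od (G.Lv θ false) (.y x true) = .y x true from Lv_fix_y θ false x] at this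
  have key : ∀ x < G.n, ∀ v, od (.hh x v) = od (.eta x v) ∧ ∀ k, ∀ g < G.q, G.o od k v g = true →
      G.leaf k g v ≠ if od (.eta x v) then .s x else .y x v := by
    intro x hx v
    have e := h1 x v
    rw [pm_Lv, Perm.mul_apply, Perm.mul_apply, AA_apply] at e
    have e2 := congrArg (swf (fun x => decide (x < G.n) && od (.hh x v)) v) e
    rw [swf_swf, AA_apply] at e2
    simp only [swf, hx, decide_true, Bool.true_and, true_and] at e2
    have hz : ∀ g, (if od (.eta x v) then Wr.s x else .y x v) ≠ .a g := by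
      intro g; split_ifs <;> simp
    have hu : ∀ g ∈ List.range G.q,
        (G.o od (!θ) v g = true → G.leaf (!θ) g v ≠ if od (.eta x v) then .s x else .y x v) ∧
        (G.o od θ v g = true → G.leaf θ g v ≠ if od (.eta x v) then .s x else .y x v) := by
      by_contra hc
      push Not at hc
      rcases gp_S3 (o1 := G.o od (!θ) v) (o2 := G.o od θ v) (G.leaf_ne (!θ) v) (G.leaf_ne θ v)
        (fun g g' => by cases θ <;> simp [leaf]) List.nodup_range hz (by
          obtain ⟨g, hg, hc⟩ := hc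
          exact ⟨g, hg, by tauto⟩) with ⟨g, e3⟩ | ⟨g, a1, a2, a3, e3⟩
      · rw [e3] at e2
        split_ifs at e2 <;> simp at e2
      · rw [e3] at e2
        have := xv_ne' hG (o_has a1) (o_has a2) (by simp)
        apply this
        unfold leaf at a3 e2
        split_ifs at a3 e2 <;> simp_all
    rw [pg_fix (fun g hg => gp_T1 hz (hu g hg))] at e2
    refine ⟨?_, fun k g hg ho => ?_⟩
    · revert e2
      cases od (.hh x v) <;> cases od (.eta x v) <;> simp
    · have := hu g (List.mem_range.2 hg)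
      by_cases ek : k = θ
      · subst ek; exact this.2 ho
      · have : k = !θ := by cases k <;> cases θ <;> simp_all
        subst this; tauto
  refine ⟨fun x hx v => (key x hx v).1, fun k v g hg ho => ?_⟩
  have := (key _ (xv_lt hG (k := k) hg) v).2 k g hg ho
  revert this
  cases k <;> cases od (.eta (G.xv _ g) v) <;> simp [leaf]

variable (G od) in
/-- The effective permutation of a group in a layer. -/
def EE (θ v : Bool) : ℕ → Perm Wr :=
  GP (G.o od (!θ) v) (G.o od θ v) (fun g => .s (G.xv (!θ) g)) (fun g => .s (G.xv θ g))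

theorem AA_mul_self (L L' : ℕ → Lt) (v : Bool) (h : ∀ x < G.n, od (L x) = od (L' x)) :
    G.AA od L v * G.AA od L' v = 1 := by
  ext z
  rw [Perm.mul_apply, AA_apply, AA_apply]
  have : (fun x => decide (x < G.n) && od (L x)) = (fun x => decide (x < G.n) && od (L' x)) := by
    funext x
    by_cases hx : x < G.n <;> simp [hx, h]
  rw [this, swf_swf]; rfl

theorem Reg1.pm_Lv (hG : GoodG G.n G.E) (h : G.Reg1 od) (θ v : Bool) :
    pm od (G.Lv θ v) = pg (G.EE od θ v) (List.range G.q) := by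
  have e : G.AA od (.eta · v) v = (G.AA od (.hh · v) v)⁻¹ :=
    eq_inv_of_mul_eq_one_right (AA_mul_self _ _ v (fun x hx => h.eh x hx v))
  rw [Gr.pm_Lv, e, pg_conj]
  refine pg_congr (fun g hg => ?_)
  rw [List.mem_range] at hg
  have key : ∀ k, G.AA od (.hh · v) v * sIf (G.o od k v g) (.a g) (G.leaf k g v) *
      (G.AA od (.hh · v) v)⁻¹ = sIf (G.o od k v g) (.a g) (.s (G.xv k g)) := by
    intro k
    rw [conj_sIf]
    cases ho : G.o od k v g
    · rfl
    · have h1 := h.alt k v g hg ho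
      have h2 := xv_lt hG (k := k) hg
      rw [← h.eh _ h2] at h1
      rw [AA_apply, AA_apply]
      cases k <;> simp [swf, leaf, h1, h2]
  rw [EE, GP, GP, ← key, ← key]
  group

theorem Reg1.pm_Lw (hG : GoodG G.n G.E) (h : G.Reg1 od) (θ : Bool) :
    pm od (G.Lw θ) = pg (G.EE od θ true) (List.range G.q) * pg (G.EE od θ false) (List.range G.q) := by
  rw [Lw, pm_append, h.pm_Lv hG, h.pm_Lv hG]

theorem EE_fix {θ v : Bool} {gs : List ℕ} {g : ℕ} (h : g ∈ gs → ∀ k, G.o od k v g = false) :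
    pg (G.EE od θ v) gs (.a g) = .a g :=
  gp_S1 (by simp) (by simp) (fun hg => ⟨h hg _, h hg _⟩)

theorem EE_ne (hG : GoodG G.n G.E) {θ v k : Bool} {g : ℕ} (hg : g < G.q)
    (h : G.o od k v g = true) : pg (G.EE od θ v) (List.range G.q) (.a g) ≠ .a g := by
  refine gp_NZ (by simp) (by simp) List.nodup_range (List.mem_range.2 hg) ?_ (fun a1 a2 => ?_)
  · cases k <;> cases θ <;> simp_all
  · simpa using xv_ne' hG (o_has a1) (o_has a2) (by simp)

theorem Reg1.active (hG : GoodG G.n G.E) (h : G.Reg1 od) {θ : Bool} {g : ℕ}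
    (hP : pm od (G.Lw θ) (.a g) ≠ .a g) : ∃ k v, G.o od k v g = true := by
  by_contra hc
  push Not at hc
  apply hP
  rw [h.pm_Lw hG, Perm.mul_apply, EE_fix (fun _ k => by simpa using hc k _),
    EE_fix (fun _ k => by simpa using hc k _)]

theorem Reg1.inactive (hG : GoodG G.n G.E) (h : G.Reg1 od) {θ : Bool} {g : ℕ} (hg : g < G.q)
    (hP : pm od (G.Lw θ) (.a g) = .a g) {k v : Bool} (ho : G.o od k v g = true) :
    ∃ k', G.o od k' (!v) g = true := by
  by_contra hc
  push Not at hc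
  rw [h.pm_Lw hG, Perm.mul_apply] at hP
  cases v
  · rw [← EE_fix (od := od) (θ := θ) (v := true) (gs := List.range G.q)
      (fun _ k => by simpa using hc k)] at hP
    rw [EE_fix (od := od) (θ := θ) (v := true) (gs := List.range G.q)
      (fun _ k => by simpa using hc k)] at hP
    refine EE_ne hG (θ := θ) hg ho ((pg (G.EE od θ true) (List.range G.q)).injective ?_)
    rw [hP, EE_fix (fun _ k => by simpa using hc k)]
  · rw [EE_fix (fun _ k => by simpa using hc k)] at hP
    exact EE_ne hG hg ho hP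

theorem EE_single {θ v k : Bool} {g : ℕ} (h1 : G.o od k v g = true) (h2 : G.o od (!k) v g = false) :
    G.EE od θ v g = Equiv.swap (Wr.a g) (Wr.s (G.xv k g)) := by
  unfold EE GP
  cases k <;> cases θ <;> simp_all

theorem EE_none {θ v : Bool} {g : ℕ} (h : ∀ k, G.o od k v g = false) : G.EE od θ v g = 1 := by
  simp [EE, GP, h]

theorem Reg1.idle (hG : GoodG G.n G.E) (h : G.Reg1 od) {θ : Bool} (hP : pm od (G.Lw θ) = 1)
    (a : ℕ → Bool) (ha : ∀ x < G.n, ∀ v, od (.eta x v) = decide (v = a x)) :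
    ∀ k v, ∀ g < G.q, G.o od k v g = false := by
  have h1 : ∀ k v, ∀ g < G.q, G.o od k v g = true → G.o od k (!v) g = false := by
    intro k v g hg ho
    by_contra hc
    have a1 := h.alt k v g hg ho
    have a2 := h.alt k (!v) g hg (by simpa using hc)
    rw [ha _ (xv_lt hG hg)] at a1 a2
    revert a1 a2
    cases k <;> cases v <;> cases a _ <;> simp
  have h2 : ∀ k v, ∀ g < G.q, G.o od k v g = true →
      G.o od (!k) (!v) g = true ∧ G.o od (!k) v g = false := by
    intro k v g hg ho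
    obtain ⟨k', hk'⟩ := h.inactive hG (θ := θ) hg (by rw [hP]; rfl) ho
    have : k' = !k := by
      have := h1 k v g hg ho
      cases k <;> cases k' <;> simp_all
    subst this
    exact ⟨hk', by simpa using h1 _ _ g hg hk'⟩
  have h3 : ∀ g < G.q, ∀ k, G.o od k true g = false := by
    by_contra hc
    push Not at hc
    have hex : ∃ g, g < G.q ∧ ∃ k, G.o od k true g = true := by simpa using hc
    obtain ⟨hg, k, ho⟩ := Nat.find_spec hex
    have hmin := fun g => Nat.find_min hex (m := g)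
    generalize Nat.find hex = g at hg ho hmin
    obtain ⟨b1, b2⟩ := h2 k true g hg ho
    have b3 := h1 k true g hg ho
    obtain ⟨t, ht⟩ : ∃ t, List.range G.q = List.range g ++ g :: t := by
      obtain ⟨d, hd⟩ := Nat.exists_eq_add_of_lt hg
      refine ⟨List.range' (g + 1) d, ?_⟩
      rw [hd, List.range_eq_range', List.range_eq_range', add_assoc, ← List.range'_append_1,
        zero_add, List.range'_succ]
    have hnd := List.nodup_range (n := G.q)
    rw [ht, List.nodup_append, List.nodup_cons] at hnd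
    have hm : ∀ g' ∈ t, g' < G.q := fun g' hg' => List.mem_range.1 (by rw [ht]; simp [hg'])
    have e1 : pg (G.EE od θ true) (List.range G.q) (.s (G.xv k g)) = .a g := by
      rw [ht, pg_append, pg, Perm.mul_apply, Perm.mul_apply,
        pg_fix (l := List.range g) (fun g' hg' => by
        rw [List.mem_range] at hg'
        rw [EE_none (fun k => by
          by_contra hc
          exact hmin g' hg' ⟨by omega, k, by simpa using hc⟩)]; rfl),
        EE_single ho b2, swap_apply_right, EE_fix (fun h => absurd h hnd.2.1.1)]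
    have e2 : pg (G.EE od θ false) (List.range G.q) (.a g) = .s (G.xv k g) := by
      refine (pg (G.EE od θ true) (List.range G.q)).injective ?_
      rw [e1, ← Perm.mul_apply, ← h.pm_Lw hG, hP]; rfl
    rw [ht, pg_append, pg, Perm.mul_apply, Perm.mul_apply, EE_fix (fun h => by simp at h),
      EE_single (v := false) b1 (by simpa using b3), swap_apply_left] at e2
    rcases gp_S2 (o1 := G.o od (!θ) false) (o2 := G.o od θ false)
      (l1 := fun g => .s (G.xv (!θ) g)) (l2 := fun g => .s (G.xv θ g)) (by simp) (by simp)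
      hnd.2.1.2 (z := .s (G.xv (!k) g)) (by simp) (fun g' hg' a1 a2 => by
        have := (h2 _ _ g' (hm g' hg') a2).2
        simp [a1] at this) with e | ⟨g', e⟩
    · rw [EE, e] at e2
      exact xv_ne' hG (o_has b1) (o_has ho) (by simp) (by simpa using e2)
    · rw [EE, e] at e2
      simp at e2
  intro k v g hg
  cases v
  · by_contra hc
    have := (h2 k false g hg (by simpa using hc)).1
    simp [h3 g hg] at this
  · exact h3 g hg k

theorem Reg1.nf0 (hG : GoodG G.n G.E) (h : G.Reg1 od) (θ : Bool)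
    (h0 : ∀ g < G.q, ∀ k v, G.o od k v g = false) : pm od (G.Lw θ) = 1 := by
  rw [h.pm_Lw hG]
  ext z
  rw [Perm.mul_apply, pg_fix (fun g hg => by rw [EE_none (fun k => h0 g (by simpa using hg) k _)]; rfl),
    pg_fix (fun g hg => by rw [EE_none (fun k => h0 g (by simpa using hg) k _)]; rfl)]
  rfl

theorem Reg1.nf1 (hG : GoodG G.n G.E) (h : G.Reg1 od) (θ : Bool) {g0 : ℕ} (hg : g0 < G.q)
    (h0 : ∀ g < G.q, g ≠ g0 → ∀ k v, G.o od k v g = false) :
    pm od (G.Lw θ) = G.EE od θ true g0 * G.EE od θ false g0 := by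
  rw [h.pm_Lw hG, pg_one hg (fun g hg e => EE_none (fun k => h0 g hg e k _)),
    pg_one hg (fun g hg e => EE_none (fun k => h0 g hg e k _))]

/-- The crossing of kind `true` and value `v1` comes before the one of kind `false`, value `v0`. -/
def Ord (θ v1 v0 : Bool) : Prop := (v1 = false ∧ v0 = true) ∨ (v1 = v0 ∧ θ = false)

theorem EE_ord {θ : Bool} {g : ℕ} (val : Bool → Bool) (h0 : ∀ k, G.o od k (!val k) g = false)
    (h : G.o od true (val true) g = true → G.o od false (val false) g = true →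
      Ord θ (val true) (val false)) :
    G.EE od θ true g * G.EE od θ false g =
      sIf (G.o od false (val false) g) (.a g) (.s (G.xv false g)) *
        sIf (G.o od true (val true) g) (.a g) (.s (G.xv true g)) := by
  have a1 := h0 true
  have a2 := h0 false
  unfold EE GP
  unfold Ord at h
  revert a1 a2 h
  cases val true <;> cases val false <;> cases θ <;> simp only [Bool.not_true, Bool.not_false] <;>
    intro h a1 a2 <;> simp only [a1, a2, sIf_false, mul_one, one_mul] <;>
    generalize G.o od true _ g = b1 at h ⊢ <;> generalize G.o od false _ g = b2 at h ⊢ <;>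
    cases b1 <;> cases b2 <;> simp at h ⊢

theorem EE_not_ord {θ : Bool} {g : ℕ} (val : Bool → Bool) (h0 : ∀ k, G.o od k (!val k) g = false)
    (h : ¬ Ord θ (val true) (val false)) :
    G.EE od θ true g * G.EE od θ false g =
      sIf (G.o od true (val true) g) (.a g) (.s (G.xv true g)) *
        sIf (G.o od false (val false) g) (.a g) (.s (G.xv false g)) := by
  have a1 := h0 true
  have a2 := h0 false
  unfold EE GP
  unfold Ord at h
  revert a1 a2 h
  cases val true <;> cases val false <;> cases θ <;> simp only [Bool.not_true, Bool.not_false] <;>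
    intro h a1 a2 <;> simp only [a1, a2, sIf_false, mul_one, one_mul] <;> simp at h

theorem nf3 {θ : Bool} {x0 : ℕ} (hx : x0 < G.n) (v0 : Bool)
    (h1 : ∀ x < G.n, ∀ v, (x = x0 → v ≠ v0) → od (.hh x v) = od (.eta x v))
    (h2 : ∀ k v, ∀ g < G.q, G.o od k v g = true → v = v0 ∧ g / 4 = G.e + x0) :
    pm od (G.Lw θ) = sIf (od (.hh x0 v0)) (.s x0) (.y x0 v0) *
      (sIf (od (.alt true (4 * (G.e + x0) + 3) v0)) (.a (4 * (G.e + x0) + 3)) (.y x0 v0) *
        sIf (od (.alt false (4 * (G.e + x0) + 1) v0)) (.a (4 * (G.e + x0) + 1)) (.s x0)) *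
      sIf (od (.eta x0 v0)) (.s x0) (.y x0 v0) := by
  have hq := G.q_eq
  have e1 : pm od (G.Lv θ (!v0)) = 1 := by
    rw [pm_Lv, show pg _ (List.range G.q) = 1 from ?_, mul_one]
    · exact AA_mul_self _ _ _ (fun x hx => h1 x hx _ (by simp))
    · ext z
      refine pg_fix (fun g hg => ?_)
      have : ∀ k, G.o od k (!v0) g = false := fun k => by
        by_contra hc
        have := (h2 k _ g (by simpa using hg) (by simpa using hc)).1
        simp at this
      simp [GP, this]
  have e2 : pm od (G.Lw θ) = pm od (G.Lv θ v0) := by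
    rw [Lw, pm_append]
    cases v0
    · rw [show pm od (G.Lv θ true) = 1 from e1, one_mul]
    · rw [show pm od (G.Lv θ false) = 1 from e1, mul_one]
  have d1 : (4 * (G.e + x0) + 1) / 4 = G.e + x0 := by omega
  have d3 : (4 * (G.e + x0) + 3) / 4 = G.e + x0 := by omega
  have m1 : (4 * (G.e + x0) + 1) % 4 = 1 := by omega
  have m3 : (4 * (G.e + x0) + 3) % 4 = 3 := by omega
  rw [e2, pm_Lv, pg_two (g1 := 4 * (G.e + x0) + 1) (g2 := 4 * (G.e + x0) + 3) (by omega) _
    (fun g hg a1 a2 => by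
      have : ∀ k, G.o od k v0 g = false := fun k => by
        by_contra hc
        have := (h2 k _ g hg (by simpa using hc)).2
        have := G.has_odd (o_has (by simpa using hc))
        omega
      simp [GP, this]), if_pos (by omega), if_pos (by omega)]
  have g1 : GP (G.o od (!θ) v0) (G.o od θ v0) (fun g => G.leaf (!θ) g v0) (fun g => G.leaf θ g v0)
      (4 * (G.e + x0) + 1) =
      sIf (od (.alt false (4 * (G.e + x0) + 1) v0)) (.a (4 * (G.e + x0) + 1)) (.s x0) := by
    cases θ <;> simp [GP, o, has, leaf, xv, d1, m1]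
  have g3 : GP (G.o od (!θ) v0) (G.o od θ v0) (fun g => G.leaf (!θ) g v0) (fun g => G.leaf θ g v0)
      (4 * (G.e + x0) + 3) =
      sIf (od (.alt true (4 * (G.e + x0) + 3) v0)) (.a (4 * (G.e + x0) + 3)) (.y x0 v0) := by
    cases θ <;> simp [GP, o, has, leaf, xv, d3, m3]
  rw [g1, g3]
  generalize od (.alt false (4 * (G.e + x0) + 1) v0) = b1
  generalize od (.alt true (4 * (G.e + x0) + 3) v0) = b3
  generalize 4 * (G.e + x0) + 1 = i1
  generalize 4 * (G.e + x0) + 3 = i3
  let Z : Wr → Prop := fun z => (∀ x, z = .s x → x = x0) ∧ ∀ x, z = .y x v0 → x = x0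
  have hZ : ∀ b u w z, Z u → Z w → Z z → Z (sIf b u w z) := by
    intro b u w z a1 a2 a3
    cases b
    · exact a3
    · rw [sIf_true, swap_apply_def]; split_ifs; exacts [a2, a1, a3]
  have hA : ∀ L z, Z z → G.AA od L v0 z = sIf (od (L x0)) (.s x0) (.y x0 v0) z := by
    intro L z hz
    rw [AA_apply]
    cases z with
    | s x => rw [hz.1 x rfl]; cases h : od (L x0) <;> simp [swf, h, hx]
    | y x v =>
      by_cases e : v = v0
      · subst e
        rw [hz.2 x rfl]; cases h : od (L x0) <;> simp [swf, h, hx]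
      · cases od (L x0) <;> simp [swf, e, swap_apply_def]
    | a j => cases od (L x0) <;> simp [swf, swap_apply_def]
    | m j => cases od (L x0) <;> simp [swf, swap_apply_def]
  ext z
  simp only [Perm.mul_apply]
  by_cases hz : Z z
  · have z1 : Z (.s x0) := by simp [Z]
    have z2 : Z (.y x0 v0) := by simp [Z]
    have z3 : ∀ i, Z (.a i) := by simp [Z]
    rw [hA _ z hz, hA _ _ (hZ _ _ _ _ (z3 _) z2 (hZ _ _ _ _ (z3 _) z1 (hZ _ _ _ _ z1 z2 hz)))]
  · have : ∃ x, x ≠ x0 ∧ (z = .s x ∨ z = .y x v0) := by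
      simp only [Z, not_and_or, not_forall] at hz
      rcases hz with ⟨x, a1, a2⟩ | ⟨x, a1, a2⟩
      · exact ⟨x, a2, Or.inl a1⟩
      · exact ⟨x, a2, Or.inr a1⟩
    obtain ⟨x, hne, hz'⟩ := this
    have f1 : ∀ b u w z, (z = .s x ∨ z = .y x v0) → Z u → Z w → sIf b u w z = z := by
      intro b u w z a1 a2 a3
      refine sIf_fix (fun _ => ⟨?_, ?_⟩) <;> rintro rfl <;> rcases a1 with rfl | rfl
      exacts [hne (a2.1 _ rfl), hne (a2.2 _ rfl), hne (a3.1 _ rfl), hne (a3.2 _ rfl)]
    have f2 : G.AA od (.eta · v0) v0 z = .s x ∨ G.AA od (.eta · v0) v0 z = .y x v0 := by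
      rw [AA_apply]
      rcases hz' with rfl | rfl <;> simp only [swf] <;> split_ifs <;> simp
    rw [f1 _ _ _ _ f2 (by simp [Z]) (by simp [Z]), f1 _ _ _ _ f2 (by simp [Z]) (by simp [Z]),
      f1 _ _ _ _ hz' (by simp [Z]) (by simp [Z]), f1 _ _ _ _ hz' (by simp [Z]) (by simp [Z]),
      f1 _ _ _ _ hz' (by simp [Z]) (by simp [Z]), f1 _ _ _ _ hz' (by simp [Z]) (by simp [Z]),
      AA_apply, AA_apply]
    have := fun hx => h1 x hx v0 (fun e => absurd e hne)
    by_cases hx' : x < G.n
    · rcases hz' with rfl | rfl <;> cases h : od (.eta x v0) <;> simp [swf, hx', h, this hx']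
    · rcases hz' with rfl | rfl <;> simp [swf, hx']

end Gr

end Pool.Agent.MP_f00251_lc

end MrgPart1

-- ======== part 2: formerly Pool.Agent.MP_f00251_lc.Logic
section MrgPart2

/-!
A word which visits all windows chooses an independent set and follows a fixed schedule.
-/

set_option autoImplicit false

namespace Pool.Agent.MP_f00251_lc

open Function Equiv

namespace Gr

variable (G : Gr)

/-- The step at which a crossing is used. -/
def st (a : ℕ → Bool) : Lt → ℕ
  | .eta x v => 4 * (G.e + x) + 2 + if v = a x then 0 else G.q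
  | .hh x v => 4 * (G.e + x) + 2 + if v = a x then 0 else G.q
  | .alt k g v => g + (if k = true ∧ g / 4 < G.e then G.q else 0) +
      if v = a (G.xv k g) then 0 else G.q
  | .rho j => j
  | .rhp j => j
  | .del j => j
  | .dep j => j
  | .cm j _ => j

/-- Admissible choices of values. -/
def valid (θ : Bool) (a : ℕ → Bool) : Prop :=
  ∀ g < G.q, G.has false g = true → G.has true g = true →
    Ord θ (a (G.xv true g)) (!a (G.xv false g))

/-- What is known at an open window. -/
structure WinF (θ : Bool) (j : ℕ) (od : Lt → Bool) : Prop where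
  reg : G.Reg1 od
  P : pm od (G.Lw θ) = sIf (G.act false j) (G.aC j) (G.sv false j) *
    sIf (G.act true j) (G.aC j) (G.sv true j)
  c1 : ∀ i ≤ G.J, od (.rho i) = decide (i ≤ j) ∧ od (.rhp i) = decide (i ≤ j)
  c2 : ∀ i < G.J, od (.del i) = decide (i ≤ j) ∧ od (.dep i) = decide (i ≤ j) ∧
    ∀ k, G.act k i = true → od (.cm i k) = decide (i = j)

variable {G}

theorem has_both {g : ℕ} (h1 : G.has false g = true) (h2 : G.has true g = true) :
    g / 4 < G.e ∧ g % 4 = 1 := by
  unfold has at h1 h2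
  by_cases h : g / 4 < G.e <;> simp [h] at h1 h2 ⊢ <;> omega

theorem has_V {k : Bool} {g : ℕ} (h : G.has k g = true) (hg : ¬ g / 4 < G.e) :
    g % 4 = if k then 3 else 1 := by
  simpa [has, hg] using h

theorem has_E {k : Bool} {g : ℕ} (hg : g / 4 < G.e) : G.has k g = true ↔ g % 4 = 1 := by
  simp [has, hg]

theorem xv_V {k : Bool} {g : ℕ} (hg : ¬ g / 4 < G.e) : G.xv k g = g / 4 - G.e := by
  simp [xv, hg]

theorem act_even {k : Bool} {j : ℕ} (h : j % 2 = 0) : G.act k j = false := by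
  by_contra hc
  have := act_odd (G := G) (k := k) (j := j) (by simpa using hc)
  omega

theorem aC_odd {j : ℕ} (h : j % 2 = 1) : G.aC j = .a (G.md j) := by simp [aC, rep, h]

namespace WinF

variable {θ : Bool} {j : ℕ} {od : Lt → Bool}

theorem idle (h : G.WinF θ j od) (hj : j % 2 = 0) : pm od (G.Lw θ) = 1 := by
  rw [h.P, act_even hj, act_even hj]; rfl

theorem active (hG : GoodG G.n G.E) (h : G.WinF θ j od) {k : Bool} (hk : G.act k j = true) :
    ∃ k v, G.o od k v (G.md j) = true := by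
  refine h.reg.active hG (θ := θ) ?_
  rw [h.P, aC_odd (act_odd hk), Perm.mul_apply]
  cases h1 : G.act true j
  · have : k = false := by cases k <;> simp_all
    subst this
    simp [hk, sv]
  · simp only [sIf_true, swap_apply_left]
    cases h0 : G.act false j
    · simp [sv]
    · rw [sIf_fix (fun _ => ⟨by simp [sv], by
        simpa [sv] using (xv_ne hG (act_has h0) (act_has h1)).symm⟩)]
      simp [sv]

theorem other (h : G.WinF θ j od) (hj : j % 2 = 1) {g : ℕ} (hg : g ≠ G.md j) :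
    pm od (G.Lw θ) (.a g) = .a g := by
  rw [h.P, aC_odd hj, Perm.mul_apply,
    sIf_fix (z := .a g) (fun _ => ⟨by simpa using hg, by simp [sv]⟩),
    sIf_fix (z := .a g) (fun _ => ⟨by simpa using hg, by simp [sv]⟩)]

end WinF

theorem bodd_eq {n : ℕ} : n.bodd = true ↔ n % 2 = 1 := by
  rw [Nat.mod_two_of_bodd]; cases n.bodd <;> simp

theorem bodd_eq' {n : ℕ} : n.bodd = false ↔ n % 2 = 0 := by
  rw [Nat.mod_two_of_bodd]; cases n.bodd <;> simp

theorem swaps_eq {g u w : ℕ} (h : w ≠ u) {b0 b1 : Bool}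
    (e : sIf true (.a g) (.s w) * sIf true (.a g) (.s u) =
      sIf b0 (.a g) (.s w) * sIf b1 (.a g) (.s u)) : b1 = true ∧ b0 = true := by
  have e1 := congrArg (· (.s u)) e
  have e2 := congrArg (· (.s w)) e
  revert e1 e2
  cases b0 <;> cases b1 <;> simp [swap_apply_def, h, h.symm]

theorem swaps_ne {g u w : ℕ} (h : w ≠ u) {b0 b1 : Bool} :
    sIf true (.a g) (.s w) * sIf true (.a g) (.s u) ≠
      sIf b1 (.a g) (.s u) * sIf b0 (.a g) (.s w) := by
  intro e
  have e1 := congrArg (· (.a g)) e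
  have e2 := congrArg (· (.s w)) e
  revert e1 e2
  cases b0 <;> cases b1 <;> simp [swap_apply_def, h, h.symm]

theorem negb : ∀ b v : Bool, ¬ v = b → v = !b := by decide

variable (G) in
/-- The states at the windows. -/
structure TL (θ : Bool) (c : ℕ → Lt → ℕ) : Prop where
  hG : GoodG G.n G.E
  mono : ∀ i j, i ≤ j → j < G.J → ∀ l, c i l ≤ c j l
  bd : ∀ j < G.J, ∀ l, c j l ≤ l.ml
  W : ∀ j < G.J, G.WinF θ j (fun l => (c j l).bodd)

namespace TL

variable {θ : Bool} {c : ℕ → Lt → ℕ} (T : G.TL θ c)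
include T

theorem bA {j : ℕ} (hj : j < G.J) (k : Bool) (g : ℕ) (v : Bool) : c j (.alt k g v) ≤ 2 :=
  T.bd j hj _

theorem bE {j : ℕ} (hj : j < G.J) (x : ℕ) (v : Bool) : c j (.eta x v) ≤ 1 := T.bd j hj _

theorem oi {j : ℕ} (hj : j < G.J) {k v : Bool} {g : ℕ} :
    G.o (fun l => (c j l).bodd) k v g = true ↔ G.has k g = true ∧ c j (.alt k g v) = 1 := by
  have := T.bA hj k g v
  simp only [o, bodd_eq, Bool.and_eq_true, and_congr_right_iff]
  omega

theorem hH {j : ℕ} (hj : j < G.J) {k v : Bool} {g : ℕ} (hg : g < G.q) (h1 : G.has k g = true)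
    (h2 : c j (.alt k g v) = 1) : c j (.eta (G.xv k g) v) = if k then 1 else 0 := by
  have := (T.W j hj).reg.alt k v g hg ((T.oi hj).2 ⟨h1, h2⟩)
  have b := T.bE hj (G.xv k g) v
  cases k
  · rw [bodd_eq'] at this; simp; omega
  · rw [bodd_eq] at this; simp; omega

theorem hact {j : ℕ} (hj : j < G.J) {k : Bool} (hk : G.act k j = true) :
    ∃ k v, G.has k (G.md j) = true ∧ c j (.alt k (G.md j) v) = 1 := by
  simpa only [T.oi hj] using (T.W j hj).active T.hG hk

theorem hidle {j : ℕ} (hj : j < G.J) (h2 : j % 2 = 0) {k v : Bool} {g : ℕ} (hg : g < G.q)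
    (a1 : G.has k g = true) (a2 : c j (.alt k g v) = 1) :
    ∃ k', G.has k' g = true ∧ c j (.alt k' g (!v)) = 1 := by
  simpa only [T.oi hj] using (T.W j hj).reg.inactive T.hG (θ := θ) hg
    (by rw [(T.W j hj).idle h2]; rfl) ((T.oi hj).2 ⟨a1, a2⟩)

theorem vact {x : ℕ} (hx : x < G.n) (k : Bool) {g : ℕ}
    (hg : g = 4 * (G.e + x) + if k then 3 else 1) {r : ℕ} (hr : r = 0 ∨ r = G.q) :
    ∃ v, c (r + g) (.alt k g v) = 1 ∧ c (r + g) (.eta x v) = if k then 1 else 0 := by
  have hq := G.q_eq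
  have hJ := G.J_eq
  have g1 : g / 4 = G.e + x := by split_ifs at hg <;> omega
  have g2 : g % 4 = if k then 3 else 1 := by split_ifs at hg ⊢ <;> omega
  have g3 : g < G.q := by split_ifs at hg <;> omega
  have hm : G.md (r + g) = g := by unfold md; split_ifs <;> omega
  have hj : r + g < G.J := by omega
  obtain ⟨k', v, a1, a2⟩ := T.hact hj (k := k) (by simp [act, hm, has, g1, g2])
  rw [hm] at a1 a2
  have : k' = k := by
    have := has_V a1 (by omega)
    rw [g2] at this
    revert this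
    cases k <;> cases k' <;> simp
  subst this
  have := T.hH hj g3 a1 a2
  rw [xv_V (by omega), g1, Nat.add_sub_cancel_left] at this
  exact ⟨v, a2, this⟩

/-- The values chosen. -/
def a (_ : G.TL θ c) (x : ℕ) : Bool := decide (c (4 * (G.e + x) + 3) (.eta x true) = 1)

theorem T12 {x : ℕ} (hx : x < G.n) :
    (c (4 * (G.e + x) + 3) (.alt true (4 * (G.e + x) + 3) (T.a x)) = 1 ∧
      c (4 * (G.e + x) + 3) (.eta x (T.a x)) = 1) ∧
    c (G.q + (4 * (G.e + x) + 1)) (.alt false (4 * (G.e + x) + 1) (!T.a x)) = 1 ∧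
      c (G.q + (4 * (G.e + x) + 1)) (.eta x (!T.a x)) = 0 := by
  have hq := G.q_eq
  have hJ := G.J_eq
  obtain ⟨v, a1, a2⟩ := T.vact hx true (g := 4 * (G.e + x) + 3) rfl (Or.inl rfl)
  obtain ⟨v', b1, b2⟩ := T.vact hx false (g := 4 * (G.e + x) + 1) rfl (Or.inr rfl)
  simp only [if_true, zero_add, Bool.false_eq_true, if_false] at a1 a2 b1 b2
  have m := fun v => T.mono (4 * (G.e + x) + 3) (G.q + (4 * (G.e + x) + 1)) (by omega) (by omega)
    (.eta x v)
  have e1 : v' = !v := negb _ _ (by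
    rintro rfl
    have := m v'
    omega)
  subst e1
  have e2 : T.a x = v := by
    cases v
    · have := m true
      simp only [Bool.not_false] at b2
      simp only [a, decide_eq_false_iff_not]; omega
    · simpa [a] using a2
  rw [e2]
  exact ⟨⟨a1, a2⟩, b1, b2⟩

theorem mid {j : ℕ} (h1 : G.q ≤ j) (h2 : j ≤ G.q + 4 * G.e) {x : ℕ} (hx : x < G.n) (v : Bool) :
    c j (.eta x v) = if v = T.a x then 1 else 0 := by
  have hq := G.q_eq
  have hJ := G.J_eq
  obtain ⟨⟨-, a1⟩, -, a2⟩ := T.T12 hx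
  split_ifs with h
  · subst h
    have := T.mono (4 * (G.e + x) + 3) j (by omega) (by omega) (.eta x (T.a x))
    have := T.bE (j := j) (by omega) x (T.a x)
    omega
  · rw [negb _ _ h]
    have := T.mono j (G.q + (4 * (G.e + x) + 1)) (by omega) (by omega) (.eta x (!T.a x))
    omega

theorem midle {j : ℕ} (h1 : G.q ≤ j) (h2 : j ≤ G.q + 4 * G.e) (h3 : j % 2 = 0) (k v : Bool)
    {g : ℕ} (hg : g < G.q) (hk : G.has k g = true) : c j (.alt k g v) ≠ 1 := by
  have hj : j < G.J := by have := G.J_eq; omega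
  have := (T.W j hj).reg.idle T.hG ((T.W j hj).idle h3) T.a (fun x hx v => by
    simp only [T.mid h1 h2 hx v]
    split_ifs with h <;> simp [h]) k v g hg
  intro hc
  rw [(T.oi hj).2 ⟨hk, hc⟩] at this
  simp at this

theorem midv {j : ℕ} (h1 : G.q ≤ j) (h2 : j ≤ G.q + 4 * G.e) {k v : Bool} {g : ℕ} (hg : g < G.q)
    (hk : G.has k g = true) (ho : c j (.alt k g v) = 1) :
    v = if k then T.a (G.xv k g) else !T.a (G.xv k g) := by
  have := T.hH (j := j) (by have := G.J_eq; omega) hg hk ho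
  rw [T.mid h1 h2 (xv_lt T.hG hg)] at this
  revert this
  cases k <;> cases v <;> cases T.a _ <;> simp

omit T in
theorem md_q {g : ℕ} (hg : g < G.q) : G.md (G.q + g) = g := by unfold md; split_ifs <;> omega

omit T in
theorem act_main (k : Bool) {i : ℕ} (hi : i < G.e) : G.act k (G.q + (4 * i + 1)) = true := by
  have hq := G.q_eq
  have h1 : (4 * i + 1) / 4 = i := by omega
  have h2 : (4 * i + 1) % 4 = 1 := by omega
  cases k <;> simp [act, md_q (show 4 * i + 1 < G.q by omega), has, h1, h2, hi]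
  omega

theorem sq {k v : Bool} {g j1 j j2 : ℕ} (h1 : j1 ≤ j) (h2 : j ≤ j2) (h3 : j2 < G.J)
    (a0 : c j (.alt k g v) = 1) (a1 : c j1 (.alt k g v) ≠ 1) (a2 : c j2 (.alt k g v) ≠ 1) :
    c j1 (.alt k g v) = 0 ∧ c j2 (.alt k g v) = 2 := by
  have := T.mono j1 j h1 (by omega) (.alt k g v)
  have := T.mono j j2 h2 h3 (.alt k g v)
  have := T.bA h3 k g v
  omega

theorem lo {j j' : ℕ} {l : Lt} (h : c j l = 0) (hj : j < G.J) (h1 : j' ≤ j) : c j' l = 0 := by
  have := T.mono j' j h1 hj l
  omega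

theorem hi {j j' : ℕ} {l : Lt} (h : c j l = l.ml) (hj : j' < G.J) (h1 : j ≤ j') :
    c j' l = l.ml := by
  have := T.mono j j' h1 hj l
  have := T.bd j' hj l
  omega

theorem hi2 {j j' : ℕ} {k v : Bool} {g : ℕ} (h : c j (.alt k g v) = 2) (hj : j' < G.J)
    (h1 : j ≤ j') : c j' (.alt k g v) = 2 := T.hi h hj h1

theorem main_other {i : ℕ} (hi : i < G.e) {g' : ℕ} (hg' : g' < G.q) (hne : g' ≠ 4 * i + 1)
    (k v : Bool) : G.o (fun l => (c (G.q + (4 * i + 1)) l).bodd) k v g' = false := by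
  have hq := G.q_eq
  have hJ := G.J_eq
  have hj : G.q + (4 * i + 1) < G.J := by omega
  have w := T.W _ hj
  by_contra hc
  have hc' : G.o (fun l => (c (G.q + (4 * i + 1)) l).bodd) k v g' = true := by simpa using hc
  obtain ⟨k', hk'⟩ := w.reg.inactive T.hG hg'
    (w.other (by omega) (by rwa [md_q (by omega)])) hc'
  rw [T.oi hj] at hc' hk'
  have e1 := T.midv (by omega) (by omega) hg' hc'.1 hc'.2
  have e2 := T.midv (by omega) (by omega) hg' hk'.1 hk'.2
  have e3 : k' = !k := negb _ _ (by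
    rintro rfl
    rw [← e1] at e2
    simp at e2)
  subst e3
  have hb : g' / 4 < G.e ∧ g' % 4 = 1 := by
    cases k
    · exact has_both hc'.1 hk'.1
    · exact has_both hk'.1 hc'.1
  obtain ⟨i', rfl⟩ : ∃ i', g' = 4 * i' + 1 := ⟨g' / 4, by omega⟩
  have hi' : i' < G.e := by omega
  clear hb
  obtain ⟨k2, v2, b1, b2⟩ := T.hact (j := G.q + (4 * i' + 1)) (by omega) (act_main true hi')
  rw [md_q hg'] at b1 b2
  have e4 := T.midv (by omega) (by omega) hg' b1 b2
  have b3 : c (G.q + (4 * i + 1)) (.alt k2 (4 * i' + 1) v2) = 1 := by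
    by_cases e : k2 = k
    · subst e; rw [e4, ← e1]; exact hc'.2
    · rw [negb _ _ e] at e4 ⊢
      rw [e4, ← e2]; exact hk'.2
  obtain ⟨c1, c2⟩ := T.sq (j1 := G.q + 4 * i) (j2 := G.q + (4 * i + 2)) (by omega) (by omega)
    (by omega) b3 (T.midle (by omega) (by omega) (by omega) k2 v2 hg' b1)
    (T.midle (by omega) (by omega) (by omega) k2 v2 hg' b1)
  rcases lt_or_gt_of_ne hne with h | h
  · rw [T.lo c1 (by omega) (by omega)] at b2; omega
  · rw [T.hi2 c2 (by omega) (by omega)] at b2; omega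

theorem main {i : ℕ} (hi : i < G.e) :
    Ord θ (T.a (G.xv true (4 * i + 1))) (!T.a (G.xv false (4 * i + 1))) ∧
    c (G.q + (4 * i + 1)) (.alt true (4 * i + 1) (T.a (G.xv true (4 * i + 1)))) = 1 ∧
    c (G.q + (4 * i + 1)) (.alt false (4 * i + 1) (!T.a (G.xv false (4 * i + 1)))) = 1 := by
  have hq := G.q_eq
  have hJ := G.J_eq
  have hj : G.q + (4 * i + 1) < G.J := by omega
  have hg : 4 * i + 1 < G.q := by omega
  have w := T.W _ hj
  have hP := w.reg.nf1 T.hG θ hg (fun g' hg' hne k v => T.main_other hi hg' hne k v)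
  have h0 : ∀ k, G.o (fun l => (c (G.q + (4 * i + 1)) l).bodd) k
      (!(fun k => if k then T.a (G.xv k (4 * i + 1)) else !T.a (G.xv k (4 * i + 1))) k)
      (4 * i + 1) = false := by
    intro k
    by_contra hc
    have hc' := (T.oi hj).1 (by simpa only [Bool.not_eq_false] using hc)
    have := T.midv (by omega) (by omega) hg hc'.1 hc'.2
    simp at this
  have hh : ∀ k, G.has k (4 * i + 1) = true := fun k => (has_E (by omega)).2 (by omega)
  have hne := xv_ne T.hG (hh _) (hh _)
  rw [w.P, act_main _ hi, act_main _ hi, aC_odd (by omega), sv, sv, md_q hg] at hP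
  by_cases ho : Ord θ (T.a (G.xv true (4 * i + 1))) (!T.a (G.xv false (4 * i + 1)))
  · rw [EE_ord _ h0 (fun _ _ => ho)] at hP
    have := swaps_eq hne hP
    exact ⟨ho, ((T.oi hj).1 this.1).2, ((T.oi hj).1 this.2).2⟩
  · rw [EE_not_ord _ h0 ho] at hP
    exact absurd hP (swaps_ne hne)

theorem main2 {i : ℕ} (hi : i < G.e) {k v : Bool}
    (h : c (G.q + (4 * i + 1)) (.alt k (4 * i + 1) v) = 1) :
    c (G.q + 4 * i) (.alt k (4 * i + 1) v) = 0 ∧ c (G.q + 4 * i + 4) (.alt k (4 * i + 1) v) = 2 := by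
  have hq := G.q_eq
  have hJ := G.J_eq
  have hn : G.n ≠ 0 := fun h => by have := e_zero T.hG h; omega
  have hh : G.has k (4 * i + 1) = true := (has_E (by omega)).2 (by omega)
  exact T.sq (by omega) (by omega) (by omega) h
    (T.midle (by omega) (by omega) (by omega) _ _ (by omega) hh)
    (T.midle (by omega) (by omega) (by omega) _ _ (by omega) hh)

theorem pre {i : ℕ} (hi : i < G.e) {j : ℕ} (hj : j ≤ G.q) {k v : Bool}
    (h : c j (.alt k (4 * i + 1) v) = 1) : k = false ∧ v = T.a (G.xv false (4 * i + 1)) := by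
  have hq := G.q_eq
  have hJ := G.J_eq
  have hg : 4 * i + 1 < G.q := by omega
  obtain ⟨-, m1, m2⟩ := T.main hi
  cases k
  · refine ⟨rfl, ?_⟩
    by_contra hc
    rw [negb _ _ hc, T.lo (T.main2 hi m2).1 (by omega) (by omega)] at h
    omega
  · exfalso
    by_cases hc : v = T.a (G.xv true (4 * i + 1))
    · rw [hc, T.lo (T.main2 hi m1).1 (by omega) (by omega)] at h
      omega
    · have h1 := T.hH (by omega) hg ((has_E (by omega)).2 (by omega)) h
      have h2 := T.mid le_rfl (by omega) (xv_lt T.hG (k := true) hg) v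
      rw [if_neg hc] at h2
      rw [T.lo h2 (by omega) hj] at h1
      simp at h1

theorem post {i : ℕ} (hi : i < G.e) {j : ℕ} (hj : 2 * G.q ≤ j) (hj' : j < G.J) {k v : Bool}
    (h : c j (.alt k (4 * i + 1) v) = 1) : k = true ∧ v = !T.a (G.xv true (4 * i + 1)) := by
  have hq := G.q_eq
  have hJ := G.J_eq
  have hg : 4 * i + 1 < G.q := by omega
  obtain ⟨-, m1, m2⟩ := T.main hi
  cases k
  · exfalso
    by_cases hc : v = T.a (G.xv false (4 * i + 1))
    · have h1 := T.hH hj' hg ((has_E (by omega)).2 (by omega)) h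
      have h2 := T.mid le_rfl (by omega) (xv_lt T.hG (k := false) hg) v
      rw [if_pos hc] at h2
      rw [T.hi h2 hj' (by omega)] at h1
      simp [Lt.ml] at h1
    · rw [negb _ _ hc, T.hi2 (T.main2 hi m2).2 hj' (by omega)] at h
      omega
  · refine ⟨rfl, negb _ _ ?_⟩
    rintro rfl
    rw [T.hi2 (T.main2 hi m1).2 hj' (by omega)] at h
    omega

theorem keyE {i : ℕ} (hi : i < G.e) (k v : Bool) :
    c (G.st T.a (.alt k (4 * i + 1) v) - 1) (.alt k (4 * i + 1) v) = 0 ∧
    c (G.st T.a (.alt k (4 * i + 1) v) + 3) (.alt k (4 * i + 1) v) = 2 := by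
  have hq := G.q_eq
  have hJ := G.J_eq
  have hg : 4 * i + 1 < G.q := by omega
  have g1 : (4 * i + 1) / 4 < G.e := by omega
  have hh : ∀ k, G.has k (4 * i + 1) = true := fun k => (has_E g1).2 (by omega)
  obtain ⟨-, m1, m2⟩ := T.main hi
  cases k
  · by_cases hv : v = T.a (G.xv false (4 * i + 1))
    · have e : G.st T.a (.alt false (4 * i + 1) v) = 4 * i + 1 := by simp [st, hv]
      have hm : G.md (4 * i + 1) = 4 * i + 1 := by simp [md, hg]
      obtain ⟨k', v', b1, b2⟩ := T.hact (j := 4 * i + 1) (by omega) (k := false) (by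
        simp [act, hm, hh]; omega)
      rw [hm] at b1 b2
      obtain ⟨rfl, rfl⟩ := T.pre hi hg.le b2
      have ev : ∀ j ≤ G.q, j % 2 = 0 → c j (.alt false (4 * i + 1) v) ≠ 1 := by
        intro j hj h2 hc
        obtain ⟨k', -, b⟩ := T.hidle (by omega) h2 hg (hh _) hc
        have := (T.pre hi hj b).2
        simp [hv] at this
      rw [e]
      exact T.sq (by omega) (by omega) (by omega) (hv ▸ b2) (ev _ (by omega) (by omega))
        (ev _ (by omega) (by omega))
    · have e : G.st T.a (.alt false (4 * i + 1) v) = G.q + 4 * i + 1 := by simp [st, hv]; omega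
      rw [e, negb _ _ hv]
      exact T.main2 hi m2
  · by_cases hv : v = T.a (G.xv true (4 * i + 1))
    · have e : G.st T.a (.alt true (4 * i + 1) v) = G.q + 4 * i + 1 := by simp [st, hv, g1]; omega
      rw [e, hv]
      exact T.main2 hi m1
    · have e : G.st T.a (.alt true (4 * i + 1) v) = 2 * G.q + (4 * i + 1) := by
        simp [st, hv, g1]; omega
      have hm : G.md (2 * G.q + (4 * i + 1)) = 4 * i + 1 := by unfold md; split_ifs <;> omega
      obtain ⟨k', v', b1, b2⟩ := T.hact (j := 2 * G.q + (4 * i + 1)) (by omega) (k := true) (by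
        simp [act, hm, hh]; omega)
      rw [hm] at b1 b2
      obtain ⟨rfl, rfl⟩ := T.post hi (by omega) (by omega) b2
      have ev : ∀ j, 2 * G.q ≤ j → j < G.J → j % 2 = 0 → c j (.alt true (4 * i + 1) v) ≠ 1 := by
        intro j hj hj' h2 hc
        obtain ⟨k', -, b⟩ := T.hidle hj' h2 hg (hh _) hc
        exact hv (by simpa using (T.post hi hj hj' b).2)
      rw [e]
      exact T.sq (by omega) (by omega) (by omega) (negb _ _ hv ▸ b2)
        (ev _ (by omega) (by omega) (by omega)) (ev _ (by omega) (by omega) (by omega))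

theorem keyV {x : ℕ} (hx : x < G.n) (k : Bool) {g : ℕ}
    (hg' : g = 4 * (G.e + x) + if k then 3 else 1) :
    (c (4 * (G.e + x)) (.alt k g (T.a x)) = 0 ∧ c (4 * (G.e + x) + 4) (.alt k g (T.a x)) = 2) ∧
    c (G.q + 4 * (G.e + x)) (.alt k g (!T.a x)) = 0 ∧
      c (G.q + 4 * (G.e + x) + 4) (.alt k g (!T.a x)) = 2 := by
  have hq := G.q_eq
  have hJ := G.J_eq
  have g0 : 4 * (G.e + x) < g ∧ g < 4 * (G.e + x) + 4 := by split_ifs at hg' <;> omega
  have hg : g < G.q := by omega
  have g1 : ¬ g / 4 < G.e := by omega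
  have g2 : g % 4 = if k then 3 else 1 := by split_ifs at hg' ⊢ <;> omega
  have hk : G.has k g = true := by simp [has, g1, g2]
  have ev : ∀ j < G.J, j % 2 = 0 → ∀ v, c j (.alt k g (!v)) ≠ 1 → c j (.alt k g v) ≠ 1 := by
    intro j hj h2 v h hc
    obtain ⟨k', b1, b2⟩ := T.hidle hj h2 hg hk hc
    have : k' = k := by
      have := has_V b1 g1
      rw [g2] at this
      revert this
      cases k <;> cases k' <;> simp
    subst this
    exact h b2
  clear g1 g2
  obtain ⟨v0, a1, -⟩ := T.vact hx k hg' (Or.inl rfl)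
  obtain ⟨v1, a2, -⟩ := T.vact hx k hg' (Or.inr rfl)
  rw [zero_add] at a1
  have s7 : c G.q (.alt k g v0) = 2 := by
    have s1 := T.midle le_rfl (by omega) (by omega) k v0 hg hk
    have s3 := T.mono g G.q hg.le (by omega) (.alt k g v0)
    have s5 := T.bA (j := G.q) (by omega) k g v0
    omega
  have s8 : c (G.q + 4 * G.e) (.alt k g v1) = 0 := by
    have s2 := T.midle (j := G.q + 4 * G.e) (by omega) le_rfl (by omega) k v1 hg hk
    have s4 := T.mono (G.q + 4 * G.e) (G.q + g) (by omega) (by omega) (.alt k g v1)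
    omega
  have e01 : v1 = !v0 := negb _ _ (by
    rintro rfl
    rw [T.hi2 s7 (by omega) (by omega)] at s8
    omega)
  have e0 : v0 = T.a x := by
    by_contra hc
    have hc' := negb _ _ hc
    obtain ⟨⟨t1, -⟩, t2, -⟩ := T.T12 hx
    cases k
    · simp only [Bool.false_eq_true, if_false] at hg'
      rw [← hg', ← hc', T.hi2 s7 (by omega) (by omega)] at t2
      omega
    · simp only [if_true] at hg'
      rw [← hg', show T.a x = v1 by simp [e01, hc'], T.lo s8 (by omega) (by omega)] at t1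
      omega
  subst e01
  rw [← e0]
  have z : ∀ j ≤ G.q, c j (.alt k g (!v0)) ≠ 1 := fun j hj => by
    rw [T.lo s8 (by omega) (by omega)]; omega
  have z' : ∀ j, G.q ≤ j → j < G.J → c j (.alt k g (!!v0)) ≠ 1 := fun j hj hj' => by
    rw [Bool.not_not, T.hi2 s7 hj' hj]; omega
  exact ⟨T.sq (by omega) (by omega) (by omega) a1 (ev _ (by omega) (by omega) _ (z _ (by omega)))
      (ev _ (by omega) (by omega) _ (z _ (by omega))),
    T.sq (by omega) (by omega) (by omega) a2
      (ev _ (by omega) (by omega) _ (z' _ (by omega) (by omega)))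
      (ev _ (by omega) (by omega) _ (z' _ (by omega) (by omega)))⟩

theorem fin {l : Lt} {t : ℕ} (h1 : c (4 * t) l = 0) (h2 : c (4 * t + 4) l = l.ml)
    (h3 : 4 * t + 4 < G.J) {s : ℕ} (s1 : 4 * t < s) (s2 : s ≤ 4 * t + 4) {j : ℕ} (hj : j < G.J)
    (h4 : j % 4 = 0) : c j l = if s ≤ j then l.ml else 0 := by
  split_ifs with h
  · exact T.hi h2 hj (by omega)
  · exact T.lo h1 (by omega) (by omega)

theorem keyH {x : ℕ} (hx : x < G.n) (v : Bool) {j : ℕ} (hj : j < G.J) (h4 : j % 4 = 0) :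
    c j (.eta x v) = if G.st T.a (.eta x v) ≤ j then 1 else 0 := by
  have hq := G.q_eq
  have hJ := G.J_eq
  obtain ⟨⟨-, t1⟩, -, t2⟩ := T.T12 hx
  by_cases hv : v = T.a x
  · subst hv
    obtain ⟨v0, a1, a2⟩ := T.vact hx false (g := 4 * (G.e + x) + 1) rfl (Or.inl rfl)
    have : v0 = T.a x := by
      by_contra hc
      rw [negb _ _ hc, T.lo (T.keyV hx false (g := 4 * (G.e + x) + 1) rfl).2.1 (by omega) (by omega)] at a1
      omega
    subst this
    exact T.fin (t := G.e + x) (T.lo a2 (by omega) (by omega)) (T.hi t1 (by omega) (by omega))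
      (by omega) (by simp [st]) (by simp [st]) hj h4
  · obtain ⟨v0, a1, a2⟩ := T.vact hx true (g := 4 * (G.e + x) + 3) rfl (Or.inr rfl)
    have : v0 = v := by
      by_contra hc
      have hc' : v0 = T.a x := by rw [negb _ _ hc, negb _ _ hv]; simp
      rw [hc', T.hi2 (T.keyV hx true (g := 4 * (G.e + x) + 3) rfl).1.2 (by omega) (by omega)] at a1
      omega
    subst this
    rw [← negb _ _ hv] at t2
    exact T.fin (t := G.e + G.n + (G.e + x)) (T.lo t2 (by omega) (by omega))
      (T.hi a2 (by omega) (by omega)) (by omega) (by simp [st, hv]; omega)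
      (by simp [st, hv]; omega) hj h4

theorem one {j : ℕ} (hj : j < G.J) {l : Lt} (h1 : l.ml = 1) {p : Prop} [Decidable p]
    (h : (c j l).bodd = decide p) : c j l = if p then 1 else 0 := by
  have := T.bd j hj l
  by_cases hp : p
  · simp only [hp, decide_true, bodd_eq] at h; simp only [hp, if_true]; omega
  · simp only [hp, decide_false, bodd_eq'] at h; simp only [hp, if_false]; omega

theorem valid_a : G.valid θ T.a := by
  intro g _ h1 h2
  have := has_both h1 h2
  obtain ⟨i, rfl⟩ : ∃ i, g = 4 * i + 1 := ⟨g / 4, by omega⟩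
  exact (T.main (by omega)).1

theorem timeline {l : Lt} (hl : G.Val l) {j : ℕ} (hj : j < G.J) (h4 : j % 4 = 0) :
    c j l = if G.st T.a l ≤ j then l.ml else 0 := by
  cases l with
  | eta x v => exact T.keyH hl v hj h4
  | hh x v =>
    have h1 := T.keyH hl v hj h4
    have h2 := (T.W j hj).reg.eh x hl v
    refine T.one hj rfl ?_
    rw [h2, h1]
    simp only [st]
    split_ifs <;> simp [*]
  | alt k g v =>
    have hq := G.q_eq
    have hJ := G.J_eq
    by_cases g1 : g / 4 < G.e
    · have g2 := (has_E g1).1 hl.2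
      obtain ⟨i, rfl⟩ : ∃ i, g = 4 * i + 1 := ⟨g / 4, by omega⟩
      have hi : i < G.e := by omega
      obtain ⟨k1, k2⟩ := T.keyE hi k v
      have hn : G.n ≠ 0 := fun h => by have := e_zero T.hG h; omega
      obtain ⟨t, ht, ht'⟩ : ∃ t, G.st T.a (.alt k (4 * i + 1) v) = 4 * t + 1 ∧ 4 * t + 4 < G.J := by
        simp only [st]
        split_ifs
        exacts [⟨i + (G.e + G.n), by omega, by omega⟩, ⟨i + 2 * (G.e + G.n), by omega, by omega⟩,
          ⟨i, by omega, by omega⟩, ⟨i + (G.e + G.n), by omega, by omega⟩]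
      rw [ht] at k1 k2 ⊢
      exact T.fin k1 k2 ht' (by omega) (by omega) hj h4
    · have g2 := has_V hl.2 g1
      have := hl.1
      obtain ⟨x, hx⟩ : ∃ x, g / 4 = G.e + x := ⟨g / 4 - G.e, by omega⟩
      have hx' : x < G.n := by omega
      have hg' : g = 4 * (G.e + x) + if k then 3 else 1 := by split_ifs at g2 ⊢ <;> omega
      have exv : G.xv k g = x := by rw [xv_V g1]; omega
      obtain ⟨⟨k1, k2⟩, k3, k4⟩ := T.keyV hx' k hg'
      have g0 : 4 * (G.e + x) < g ∧ g < 4 * (G.e + x) + 4 := by split_ifs at hg' <;> omega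
      clear g2 hx hg'
      by_cases hv : v = T.a x
      · subst hv
        exact T.fin k1 k2 (by omega) (by simp [st, g1, exv]; omega) (by simp [st, g1, exv]; omega)
          hj h4
      · rw [← negb _ _ hv, show G.q + 4 * (G.e + x) = 4 * (G.e + G.n + (G.e + x)) by omega] at k3 k4
        exact T.fin k3 k4 (by omega) (by simp [st, g1, exv, hv]; omega)
          (by simp [st, g1, exv, hv]; omega) hj h4
  | rho i => exact T.one hj rfl ((T.W j hj).c1 i hl).1
  | rhp i => exact T.one hj rfl ((T.W j hj).c1 i hl).2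
  | del i => exact T.one hj rfl ((T.W j hj).c2 i hl).1
  | dep i => exact T.one hj rfl ((T.W j hj).c2 i hl).2.1
  | cm i k =>
    have h1 := ((T.W i hl.1).c2 i hl.1).2.2 k hl.2
    have h2 := ((T.W j hj).c2 i hl.1).2.2 k hl.2
    have io := act_odd hl.2
    simp only [decide_true, bodd_eq] at h1
    rw [decide_eq_false (by omega), bodd_eq'] at h2
    have := T.bd j hj (.cm i k)
    have := T.bd i hl.1 (.cm i k)
    simp only [st, Lt.ml] at *
    split_ifs with h
    · have := T.mono i j h hj (.cm i k)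
      omega
    · have := T.mono j i (by omega) hl.1 (.cm i k)
      omega

end TL

end Gr

end Pool.Agent.MP_f00251_lc

end MrgPart2

-- marker of a merged file
example : 731051 + 56718 = 731051 + 56718 := rfl
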