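import Pool.Agent.MP_f00251_lc.Defs
import Pool.Agent.MP_f00251_lc.Num.NumA

-- ======== part 0: formerly Pool.Agent.MP_f00251_lc.Bridge
section MrgPart0

/-!
Signed permutations as linear genomes: framed sequences, adjacencies, the effect of a reversal.
-/

set_option autoImplicit false

namespace Pool.Agent.MP_f00251_lc

/-- The framed sequence `0, g 1, …, g n, n + 1`. -/
def xs (g : List ℤ) (k : ℕ) : ℤ :=
  if k = 0 then 0 else if k ≤ g.length then g.getD (k - 1) 0 else (g.length : ℤ) + 1

/-- The identity. -/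
def idp (n : ℕ) : List ℤ := (List.range' 1 n).map (fun a : ℕ => (a : ℤ))

@[simp] theorem length_idp (n : ℕ) : (idp n).length = n := by simp [idp]

theorem xs_zero (g : List ℤ) : xs g 0 = 0 := by simp [xs]

theorem xs_last (g : List ℤ) : xs g (g.length + 1) = g.length + 1 := by simp [xs]

theorem xs_mid (g : List ℤ) (k : ℕ) (h : k < g.length) : xs g (k + 1) = g[k] := by
  simp [xs, Nat.succ_le_of_lt h, List.getD_eq_getElem?_getD, h]

theorem xs_idp (n k : ℕ) (h : k ≤ n + 1) : xs (idp n) k = k := by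
  rcases k with _ | k
  · simp [xs]
  · rcases Nat.lt_or_ge k n with h1 | h1
    · rw [xs_mid _ _ (by simpa using h1)]
      simp [idp]; ring
    · have : k = n := by omega
      subst this
      have := xs_last (idp k)
      simpa using this

theorem ext_xs {g g' : List ℤ} (hl : g.length = g'.length)
    (h : ∀ k ≤ g.length, xs g k = xs g' k) : g = g' := by
  refine List.ext_getElem hl (fun k h1 h2 => ?_)
  rw [← xs_mid g k h1, ← xs_mid g' k h2, h _ h1]

/-- Admissible end positions of a reversal. -/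
def Valid (n : ℕ) (r : ℕ × ℕ) : Prop := 1 ≤ r.1 ∧ r.1 ≤ r.2 ∧ r.2 ≤ n

theorem length_rev {g : List ℤ} {r : ℕ × ℕ} (h : Valid g.length r) :
    (rev g r).length = g.length := by
  obtain ⟨h1, h2, h3⟩ := h
  simp only [rev, List.length_append, List.length_take, List.length_map, List.length_reverse,
    List.length_drop]
  omega

theorem xs_rev {g : List ℤ} {r : ℕ × ℕ} (h : Valid g.length r) (k : ℕ) :
    xs (rev g r) k = if r.1 ≤ k ∧ k ≤ r.2 then -xs g (r.1 + r.2 - k) else xs g k := by
  have hl := length_rev h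
  obtain ⟨i, j⟩ := r
  obtain ⟨h1, h2, h3⟩ := h
  simp only at h1 h2 h3 ⊢
  rcases k with _ | k
  · rw [if_neg (by omega)]; simp [xs]
  rcases Nat.lt_or_ge k g.length with hk | hk
  · rw [xs_mid _ _ (hl ▸ hk)]
    split_ifs with hc
    · obtain ⟨t, ht⟩ : ∃ t, i + j - (k + 1) = t + 1 := ⟨i + j - (k + 1) - 1, by omega⟩
      rw [ht, xs_mid _ _ (by omega)]
      simp only [rev]
      rw [List.getElem_append_left (by simp; omega), List.getElem_append_right (by simp; omega)]
      simp only [List.getElem_map, List.getElem_reverse, List.getElem_drop, List.getElem_take,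
        List.length_drop, List.length_take]
      congr 2
      omega
    · rw [xs_mid _ _ hk]
      simp only [rev]
      by_cases hc2 : k + 1 < i
      · rw [List.getElem_append_left (by simp; omega), List.getElem_append_left (by simp; omega)]
        simp
      · rw [List.getElem_append_right (by simp; omega)]
        simp only [List.getElem_drop, List.length_append, List.length_take, List.length_map,
          List.length_reverse, List.length_drop]
        congr 1
        omega
  · rw [if_neg (by omega)]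
    simp only [xs, hl]
    rw [if_neg (by omega), if_neg (by omega), if_neg (by omega), if_neg (by omega)]

theorem map_natAbs_rev_perm {g : List ℤ} {r : ℕ × ℕ} (h : Valid g.length r) :
    ((rev g r).map Int.natAbs).Perm (g.map Int.natAbs) := by
  obtain ⟨h1, h2, h3⟩ := h
  have e : g = g.take (r.1 - 1) ++ (g.take r.2).drop (r.1 - 1) ++ g.drop r.2 := by
    conv_lhs => rw [← List.take_append_drop r.2 g, ← List.take_append_drop (r.1 - 1) (g.take r.2)]
    rw [List.take_take, min_eq_left (by omega)]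
  conv_rhs => rw [e]
  simp only [rev, List.map_append, List.map_map]
  refine List.Perm.append_right _ (List.Perm.append_left _ ?_)
  have : (Int.natAbs ∘ fun a : ℤ => -a) = Int.natAbs := by ext a; simp
  rw [this]
  exact (List.reverse_perm _).map _

theorem isSP_rev {g : List ℤ} {r : ℕ × ℕ} (h : Valid g.length r) : IsSP (rev g r) ↔ IsSP g := by
  unfold IsSP
  rw [length_rev h]
  exact ⟨fun h1 => (map_natAbs_rev_perm h).symm.trans h1,
    fun h1 => (map_natAbs_rev_perm h).trans h1⟩

theorem isSP_idp (n : ℕ) : IsSP (idp n) := by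
  unfold IsSP idp
  simp only [List.map_map, List.length_map, List.length_range']
  have : (Int.natAbs ∘ fun a : ℕ => (a : ℤ)) = id := by ext a; simp
  rw [this, List.map_id]

namespace IsSP

variable {g : List ℤ}

theorem abs_mid (h : IsSP g) {k : ℕ} (h1 : 1 ≤ k) (h2 : k ≤ g.length) :
    1 ≤ (xs g k).natAbs ∧ (xs g k).natAbs ≤ g.length := by
  obtain ⟨k, rfl⟩ : ∃ t, k = t + 1 := ⟨k - 1, by omega⟩
  rw [xs_mid _ _ h2]
  have : (g[k]).natAbs ∈ List.range' 1 g.length :=
    h.subset (List.mem_map.2 ⟨_, List.getElem_mem _, rfl⟩)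
  simp only [List.mem_range'_1] at this
  omega

theorem abs_inj (h : IsSP g) {k l : ℕ} (hk : k ≤ g.length + 1) (hl : l ≤ g.length + 1)
    (e : (xs g k).natAbs = (xs g l).natAbs) : k = l := by
  have hz : (xs g 0).natAbs = 0 := by simp [xs_zero]
  have hn : (xs g (g.length + 1)).natAbs = g.length + 1 := by rw [xs_last]; omega
  by_cases hk' : 1 ≤ k ∧ k ≤ g.length
  · have := h.abs_mid hk'.1 hk'.2
    by_cases hl' : 1 ≤ l ∧ l ≤ g.length
    · obtain ⟨k, rfl⟩ : ∃ t, k = t + 1 := ⟨k - 1, by omega⟩
      obtain ⟨l, rfl⟩ : ∃ t, l = t + 1 := ⟨l - 1, by omega⟩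
      rw [xs_mid _ _ hk'.2, xs_mid _ _ hl'.2] at e
      have hnd : (g.map Int.natAbs).Nodup := h.nodup_iff.2 (List.nodup_range' ..)
      have := (List.Nodup.getElem_inj_iff hnd (i := k) (j := l) (hi := by simpa using hk'.2)
        (hj := by simpa using hl'.2)).1 (by simpa using e)
      omega
    · rcases (by omega : l = 0 ∨ l = g.length + 1) with rfl | rfl <;> omega
  · by_cases hl' : 1 ≤ l ∧ l ≤ g.length
    · have := h.abs_mid hl'.1 hl'.2
      rcases (by omega : k = 0 ∨ k = g.length + 1) with rfl | rfl <;> omega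
    · rcases (by omega : k = 0 ∨ k = g.length + 1) with rfl | rfl <;>
      rcases (by omega : l = 0 ∨ l = g.length + 1) with rfl | rfl <;> omega

theorem abs_surj (h : IsSP g) {a : ℕ} (ha : a ≤ g.length + 1) :
    ∃ k ≤ g.length + 1, (xs g k).natAbs = a := by
  by_cases h0 : a = 0
  · exact ⟨0, by omega, by simp [xs_zero, h0]⟩
  by_cases h1 : a = g.length + 1
  · exact ⟨g.length + 1, le_rfl, by rw [xs_last]; omega⟩
  have : a ∈ g.map Int.natAbs := h.symm.subset (by simp only [List.mem_range'_1]; omega)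
  obtain ⟨k, hk, e⟩ := List.getElem_of_mem this
  rw [List.length_map] at hk
  exact ⟨k + 1, by omega, by rw [xs_mid _ _ hk, ← e]; simp⟩

theorem abs_le (h : IsSP g) {k : ℕ} (hk : k ≤ g.length) : (xs g k).natAbs ≤ g.length := by
  rcases Nat.eq_zero_or_pos k with rfl | h0
  · simp [xs_zero]
  · exact (h.abs_mid h0 hk).2

theorem ll (h : IsSP g) {k l : ℕ} (hk : k ≤ g.length + 1) (hl : l ≤ g.length + 1)
    (e : xs g k = xs g l) : k = l := h.abs_inj hk hl (by rw [e])

theorem lr (h : IsSP g) {k l : ℕ} (hk : k ≤ g.length + 1) (hl : l ≤ g.length) :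
    xs g k ≠ -xs g (l + 1) := by
  intro e
  have h1 : k = l + 1 := h.abs_inj hk (by omega) (by rw [e]; simp)
  subst h1
  have h2 : l + 1 = 0 := h.abs_inj hk (by omega) (by rw [xs_zero]; omega)
  omega

end IsSP

/-- The ends of segments which lie at a gap. -/
def Pt (n : ℕ) (p : ℤ) : Prop := -((n : ℤ) + 1) ≤ p ∧ p ≤ n

theorem IsSP.pt_left {g : List ℤ} (h : IsSP g) {k : ℕ} (hk : k ≤ g.length) :
    Pt g.length (xs g k) := by
  have := h.abs_le hk
  unfold Pt; omega

theorem IsSP.pt_right {g : List ℤ} (h : IsSP g) {k : ℕ} (hk : k ≤ g.length) :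
    Pt g.length (-xs g (k + 1)) := by
  rcases Nat.lt_or_ge k g.length with h1 | h1
  · have := h.abs_le (k := k + 1) h1
    unfold Pt; omega
  · have : k = g.length := by omega
    subst this
    rw [xs_last]; unfold Pt; omega

theorem IsSP.cover {g : List ℤ} (h : IsSP g) {p : ℤ} (hp : Pt g.length p) :
    ∃ k ≤ g.length, xs g k = p ∨ -xs g (k + 1) = p := by
  obtain ⟨k, hk, e⟩ := h.abs_surj (a := p.natAbs) (by unfold Pt at hp; omega)
  rcases Int.natAbs_eq_natAbs_iff.1 e with e | e
  · refine ⟨k, ?_, Or.inl e⟩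
    by_contra hc
    have : k = g.length + 1 := by omega
    subst this
    rw [xs_last] at e
    unfold Pt at hp; omega
  · rcases k with _ | k
    · exact ⟨0, by omega, Or.inl (by rw [xs_zero] at e ⊢; omega)⟩
    · exact ⟨k, by omega, Or.inr (by omega)⟩

/-- The adjacencies of `g` are given by `R`. -/
def Real (g : List ℤ) (R : ℤ → ℤ) : Prop :=
  IsSP g ∧ ∀ k ≤ g.length, R (xs g k) = -xs g (k + 1) ∧ R (-xs g (k + 1)) = xs g k

/-- Connectedness of the structure formed by the segments and the adjacencies `R`. -/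
def Conn (n : ℕ) (R : ℤ → ℤ) : Prop :=
  ∀ f : ℕ → Bool, (∀ p, Pt n p → f (R p).natAbs = f p.natAbs) → ∀ i ≤ n + 1, f i = f 0

theorem Real.conn {g : List ℤ} {R : ℤ → ℤ} (h : Real g R) : Conn g.length R := by
  intro f hf i hi
  have key : ∀ k ≤ g.length + 1, f (xs g k).natAbs = f 0 := by
    intro k hk
    induction k with
    | zero => simp [xs_zero]
    | succ k ih =>
      have := hf _ (h.1.pt_left (k := k) (by omega))
      rw [(h.2 k (by omega)).1, Int.natAbs_neg] at this
      rw [this, ih (by omega)]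
  obtain ⟨k, hk, rfl⟩ := h.1.abs_surj hi
  exact key k hk

theorem Real.unique {g g' : List ℤ} {R : ℤ → ℤ} (h : Real g R) (h' : Real g' R)
    (hl : g.length = g'.length) : g = g' := by
  refine ext_xs hl (fun k hk => ?_)
  induction k with
  | zero => simp [xs_zero]
  | succ k ih =>
    have h1 := (h.2 k (by omega)).1
    have h2 := (h'.2 k (by omega)).1
    rw [ih (by omega), h2] at h1
    omega

theorem rev_inj {g : List ℤ} (h : IsSP g) {r r' : ℕ × ℕ} (hr : Valid g.length r)
    (hr' : Valid g.length r') (e : rev g r = rev g r') : r = r' := by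
  have key : ∀ r : ℕ × ℕ, Valid g.length r → ∀ k ≤ g.length,
      (xs (rev g r) k ≠ xs g k ↔ r.1 ≤ k ∧ k ≤ r.2) := by
    intro r hr k hk
    rw [xs_rev hr]
    obtain ⟨h1, h2, h3⟩ := hr
    split_ifs with hc
    · simp only [hc, and_self, iff_true]
      obtain ⟨t, ht⟩ : ∃ t, r.1 + r.2 - k = t + 1 := ⟨r.1 + r.2 - k - 1, by omega⟩
      rw [ht]
      exact (h.lr (by omega) (by omega)).symm
    · simp [hc]
  have k1 := key r hr
  have k2 := key r' hr'
  rw [← e] at k2
  obtain ⟨h1, h2, h3⟩ := hr
  obtain ⟨h1', h2', h3'⟩ := hr'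
  have a1 := (k2 r.1 (by omega)).1 ((k1 r.1 (by omega)).2 ⟨le_rfl, h2⟩)
  have a2 := (k2 r.2 (by omega)).1 ((k1 r.2 (by omega)).2 ⟨h2, le_rfl⟩)
  have a3 := (k1 r'.1 (by omega)).1 ((k2 r'.1 (by omega)).2 ⟨le_rfl, h2'⟩)
  have a4 := (k1 r'.2 (by omega)).1 ((k2 r'.2 (by omega)).2 ⟨h2', le_rfl⟩)
  exact Prod.ext (by omega) (by omega)

/-- `R'` is obtained from `R` by replacing the adjacencies `a b`, `c d` by `a c`, `b d`. -/
structure Rep (n : ℕ) (R R' : ℤ → ℤ) (a b c d : ℤ) : Prop where
  ab : R a = b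
  ba : R b = a
  cd : R c = d
  dc : R d = c
  ac' : R' a = c
  ca' : R' c = a
  bd' : R' b = d
  db' : R' d = b
  oth : ∀ p, Pt n p → p ≠ a → p ≠ b → p ≠ c → p ≠ d → R' p = R p
  ac : a ≠ c
  ad : a ≠ d

theorem Rep.symm1 {n : ℕ} {R R' : ℤ → ℤ} {a b c d : ℤ} (h : Rep n R R' a b c d) :
    Rep n R R' c d a b :=
  ⟨h.cd, h.dc, h.ab, h.ba, h.ca', h.ac', h.db', h.bd', fun p h0 h1 h2 h3 h4 => h.oth p h0 h3 h4 h1 h2,
    h.ac.symm, fun e => h.ad (by rw [← h.ba, ← e, h.cd])⟩

theorem Rep.symm2 {n : ℕ} {R R' : ℤ → ℤ} {a b c d : ℤ} (h : Rep n R R' a b c d) :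
    Rep n R R' b a d c :=
  ⟨h.ba, h.ab, h.dc, h.cd, h.bd', h.db', h.ac', h.ca', fun p h0 h1 h2 h3 h4 => h.oth p h0 h2 h1 h4 h3,
    fun e => h.ac (by rw [← h.ba, e, h.dc]), fun e => h.ad (by rw [← h.ba, e, h.cd])⟩

theorem real_rev {g : List ℤ} {R R' : ℤ → ℤ} (h : Real g R) {k l : ℕ} (hkl : k < l)
    (hl : l ≤ g.length) (hR : Rep g.length R R' (xs g k) (-xs g (k + 1)) (xs g l) (-xs g (l + 1))) :
    Real (rev g (k + 1, l)) R' := by
  have hv : Valid g.length (k + 1, l) := ⟨by simp, hkl, hl⟩
  have hs := h.1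
  refine ⟨(isSP_rev hv).2 hs, fun t ht => ?_⟩
  rw [length_rev hv] at ht
  have oth : ∀ u ≤ g.length, u ≠ k → u ≠ l →
      R' (xs g u) = -xs g (u + 1) ∧ R' (-xs g (u + 1)) = xs g u := by
    intro u hu h1 h2
    rw [hR.oth _ (hs.pt_left hu) (fun e => h1 (hs.ll (by omega) (by omega) e)) (hs.lr (by omega) (by omega))
      (fun e => h2 (hs.ll (by omega) (by omega) e)) (hs.lr (by omega) (by omega)),
      hR.oth _ (hs.pt_right hu) (hs.lr (by omega) (by omega)).symm
      (fun e => h1 (by have := hs.ll (by omega) (by omega) (neg_inj.1 e); omega))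
      (hs.lr (by omega) (by omega)).symm
      (fun e => h2 (by have := hs.ll (by omega) (by omega) (neg_inj.1 e); omega))]
    exact h.2 u hu
  rw [xs_rev hv, xs_rev hv]
  simp only
  by_cases h1 : t = k
  · subst h1
    rw [if_neg (by omega), if_pos (by omega), neg_neg, show t + 1 + l - (t + 1) = l by omega]
    exact ⟨hR.ac', hR.ca'⟩
  by_cases h2 : t = l
  · subst h2
    rw [if_pos (by omega), if_neg (by omega), show k + 1 + t - t = k + 1 by omega]
    exact ⟨hR.bd', hR.db'⟩
  by_cases h3 : k < t ∧ t < l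
  · rw [if_pos (by omega), if_pos (by omega), neg_neg,
      show k + 1 + l - t = (k + l - t) + 1 by omega, show k + 1 + l - (t + 1) = k + l - t by omega]
    exact (oth (k + l - t) (by omega) (by omega) (by omega)).symm
  · rw [if_neg (by omega), if_neg (by omega)]
    exact oth t ht h1 h2

/-- The point is the right point of its gap in `g`. -/
def Ori (g : List ℤ) (p : ℤ) : Prop := ∃ k ≤ g.length, -xs g (k + 1) = p

theorem IsSP.not_ori {g : List ℤ} (h : IsSP g) {k : ℕ} (hk : k ≤ g.length + 1) :
    ¬ Ori g (xs g k) := fun ⟨_, hl, e⟩ => h.lr hk hl e.symm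

theorem ori_right {g : List ℤ} {k : ℕ} (hk : k ≤ g.length) : Ori g (-xs g (k + 1)) := ⟨k, hk, rfl⟩

theorem Real.ori_R {g : List ℤ} {R : ℤ → ℤ} (h : Real g R) {p : ℤ} (hp : Pt g.length p) :
    Ori g (R p) ↔ ¬ Ori g p := by
  obtain ⟨k, hk, rfl | rfl⟩ := h.1.cover hp
  · rw [(h.2 k hk).1]; simp [ori_right hk, h.1.not_ori (k := k) (by omega)]
  · rw [(h.2 k hk).2]; simp [ori_right hk, h.1.not_ori (k := k) (by omega)]

theorem IsSP.ori_neg {g : List ℤ} (h : IsSP g) {i : ℕ} (h1 : 1 ≤ i) (h2 : i ≤ g.length) :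
    Ori g (-(i : ℤ)) ↔ ¬ Ori g i := by
  obtain ⟨k, hk, e | e⟩ := h.cover (p := i) (by unfold Pt; omega)
  · rw [← e]
    rcases k with _ | k
    · rw [xs_zero] at e; omega
    · simp [ori_right (g := g) (k := k) (by omega), h.not_ori (k := k + 1) (by omega)]
  · rw [← e, neg_neg]
    simp [ori_right hk, h.not_ori (k := k + 1) (by omega)]

theorem IsSP.not_ori_zero {g : List ℤ} (h : IsSP g) : ¬ Ori g 0 := by
  have := h.not_ori (k := 0) (by omega)
  rwa [xs_zero] at this

theorem ori_last (g : List ℤ) : Ori g (-((g.length : ℤ) + 1)) := by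
  have := ori_right (g := g) (k := g.length) le_rfl
  rwa [xs_last] at this

theorem Real.exists_rev_aux {g : List ℤ} {R R' : ℤ → ℤ} (h : Real g R) {a b c d : ℤ}
    (hR : Rep g.length R R' a b c d) (ha : Pt g.length a) (hc : Pt g.length c) (oa : ¬ Ori g a)
    (oc : ¬ Ori g c) : ∃ r, Valid g.length r ∧ Real (rev g r) R' := by
  obtain ⟨k, hk, rfl | rfl⟩ := h.1.cover ha
  swap
  · exact absurd (ori_right hk) oa
  obtain ⟨l, hl, rfl | rfl⟩ := h.1.cover hc
  swap
  · exact absurd (ori_right hl) oc
  have hb : b = -xs g (k + 1) := by rw [← hR.ab, (h.2 k hk).1]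
  have hd : d = -xs g (l + 1) := by rw [← hR.cd, (h.2 l hl).1]
  subst hb hd
  rcases lt_trichotomy k l with hkl | rfl | hkl
  · exact ⟨(k + 1, l), ⟨by simp, hkl, hl⟩, real_rev h hkl hl hR⟩
  · exact absurd rfl hR.ac
  · exact ⟨(l + 1, k), ⟨by simp, hkl, hk⟩, real_rev h hkl hk hR.symm1⟩

theorem Real.pt_R {g : List ℤ} {R : ℤ → ℤ} (h : Real g R) {p : ℤ} (hp : Pt g.length p) :
    Pt g.length (R p) := by
  obtain ⟨k, hk, rfl | rfl⟩ := h.1.cover hp
  · rw [(h.2 k hk).1]; exact h.1.pt_right hk
  · rw [(h.2 k hk).2]; exact h.1.pt_left hk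

theorem Real.exists_rev {g : List ℤ} {R R' : ℤ → ℤ} (h : Real g R) {a b c d : ℤ}
    (hR : Rep g.length R R' a b c d) (ha : Pt g.length a) (hc : Pt g.length c) (o : Ori g a ↔ Ori g c) :
    ∃ r, Valid g.length r ∧ Real (rev g r) R' := by
  by_cases oa : Ori g a
  · refine h.exists_rev_aux hR.symm2 (hR.ab ▸ h.pt_R ha) (hR.cd ▸ h.pt_R hc) ?_ ?_
    · rw [← hR.ab, h.ori_R ha]; simpa using oa
    · rw [← hR.cd, h.ori_R hc]; simpa using o.1 oa
  · exact h.exists_rev_aux hR ha hc oa (fun oc => oa (o.2 oc))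

theorem Real.not_conn_aux {g : List ℤ} {R R' : ℤ → ℤ} (h : Real g R) {k l : ℕ} (hkl : k < l)
    (hl : l ≤ g.length) (hR : Rep g.length R R' (xs g k) (-xs g (k + 1)) (-xs g (l + 1)) (xs g l)) :
    ¬ Conn g.length R' := by
  classical
  intro hc
  have hs := h.1
  let f : ℕ → Bool := fun i => decide (∃ t, k < t ∧ t ≤ l ∧ (xs g t).natAbs = i)
  have hf : ∀ t ≤ g.length + 1, f (xs g t).natAbs = decide (k < t ∧ t ≤ l) := by
    intro t ht
    simp only [f, decide_eq_decide]
    constructor
    · rintro ⟨u, h1, h2, e⟩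
      have := hs.abs_inj (by omega) ht e
      omega
    · rintro ⟨h1, h2⟩
      exact ⟨t, h1, h2, rfl⟩
  have h1 := hc f ?_ (xs g (k + 1)).natAbs (by have := hs.abs_le (k := k + 1) (by omega); omega)
  · have h0 := hf 0 (by omega)
    rw [xs_zero] at h0
    rw [hf _ (by omega), show (0 : ℕ) = (0 : ℤ).natAbs from rfl, h0] at h1
    simp at h1; omega
  intro p hp
  obtain ⟨u, hu, rfl | rfl⟩ := hs.cover hp
  · by_cases e1 : u = k
    · subst e1
      rw [hR.ac', Int.natAbs_neg, hf _ (by omega), hf _ (by omega)]; simp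
    by_cases e2 : u = l
    · subst e2
      rw [hR.db', Int.natAbs_neg, hf _ (by omega), hf _ (by omega), decide_eq_decide]; omega
    rw [hR.oth _ (hs.pt_left hu) (fun e => e1 (hs.ll (by omega) (by omega) e)) (hs.lr (by omega) (by omega))
      (hs.lr (by omega) (by omega)) (fun e => e2 (hs.ll (by omega) (by omega) e)),
      (h.2 u hu).1, Int.natAbs_neg, hf _ (by omega), hf _ (by omega), decide_eq_decide]
    omega
  · by_cases e1 : u = k
    · subst e1
      rw [hR.bd', Int.natAbs_neg, hf _ (by omega), hf _ (by omega), decide_eq_decide]; omega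
    by_cases e2 : u = l
    · subst e2
      rw [hR.ca', Int.natAbs_neg, hf _ (by omega), hf _ (by omega)]; simp
    rw [hR.oth _ (hs.pt_right hu) (hs.lr (by omega) (by omega)).symm
      (fun e => e1 (by have := hs.ll (by omega) (by omega) (neg_inj.1 e); omega))
      (fun e => e2 (by have := hs.ll (by omega) (by omega) (neg_inj.1 e); omega))
      (hs.lr (by omega) (by omega)).symm,
      (h.2 u hu).2, Int.natAbs_neg, hf _ (by omega), hf _ (by omega), decide_eq_decide]
    omega

theorem Real.not_conn_aux2 {g : List ℤ} {R R' : ℤ → ℤ} (h : Real g R) {a b c d : ℤ}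
    (hR : Rep g.length R R' a b c d) (ha : Pt g.length a) (hc : Pt g.length c) (oa : ¬ Ori g a)
    (oc : Ori g c) : ¬ Conn g.length R' := by
  obtain ⟨k, hk, rfl | rfl⟩ := h.1.cover ha
  swap
  · exact absurd (ori_right hk) oa
  obtain ⟨l, hl, rfl⟩ := oc
  have hb : b = -xs g (k + 1) := by rw [← hR.ab, (h.2 k hk).1]
  have hd : d = xs g l := by rw [← hR.cd, (h.2 l hl).2]
  subst hb hd
  rcases lt_trichotomy k l with hkl | rfl | hkl
  · exact h.not_conn_aux hkl hl hR
  · exact absurd rfl hR.ad
  · exact h.not_conn_aux hkl hk hR.symm1.symm2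

theorem Real.ori_of_conn {g : List ℤ} {R R' : ℤ → ℤ} (h : Real g R) {a b c d : ℤ}
    (hR : Rep g.length R R' a b c d) (ha : Pt g.length a) (hc : Pt g.length c) (hco : Conn g.length R') :
    Ori g a ↔ Ori g c := by
  by_cases oa : Ori g a <;> by_cases oc : Ori g c
  · simp [oa, oc]
  · exact absurd hco (h.not_conn_aux2 hR.symm1 hc ha oc oa)
  · exact absurd hco (h.not_conn_aux2 hR ha hc oa oc)
  · simp [oa, oc]

/-- The traversal of the structure given by `R`. -/
def trav (n : ℕ) (R : ℤ → ℤ) : List ℤ :=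
  (List.range n).map (fun k => (fun p => -R p)^[k + 1] 0)

theorem real_trav {n : ℕ} {R : ℤ → ℤ} (hp : ∀ p, Pt n p → Pt n (R p))
    (hi : ∀ p, Pt n p → R (R p) = p) (hne : ∀ p, Pt n p → R p ≠ p) (hc : Conn n R) :
    Real (trav n R) R := by
  classical
  set x : ℕ → ℤ := fun k => (fun p => -R p)^[k] 0 with hx
  have x0 : x 0 = 0 := rfl
  have xsucc : ∀ k, x (k + 1) = -R (x k) := fun k => Function.iterate_succ_apply' _ _ _
  have key : ∀ k, (∀ i < k, x i ≠ n + 1) → (∀ i < k, Pt n (x i)) ∧ (-(n : ℤ) ≤ x k ∧ x k ≤ n + 1) ∧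
      ∀ i ≤ k, ∀ j ≤ k, (x i).natAbs = (x j).natAbs → i = j := by
    intro k
    induction k with
    | zero => intro _; exact ⟨by simp, by rw [x0]; omega, by omega⟩
    | succ k ih =>
      intro hk
      obtain ⟨h1, h2, h3⟩ := ih (fun i hi => hk i (by omega))
      have hpk : Pt n (x k) := by have := hk k (by omega); unfold Pt; omega
      have h1' : ∀ i < k + 1, Pt n (x i) := fun i hi => by
        rcases Nat.lt_succ_iff_lt_or_eq.1 hi with h | rfl
        · exact h1 i h
        · exact hpk
      refine ⟨h1', by have := hp _ hpk; rw [xsucc]; unfold Pt at this; omega, ?_⟩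
      have new : ∀ i ≤ k, (x i).natAbs ≠ (x (k + 1)).natAbs := by
        intro i hi' e
        have case1 : x (k + 1) ≠ -x i := by
          intro e
          have e1 : R (x k) = x i := by rw [xsucc] at e; omega
          have e2 : R (x i) = x k := by rw [← e1, hi _ hpk]
          rcases Nat.lt_or_eq_of_le hi' with hlt | rfl
          · have e3 : x k = -x (i + 1) := by rw [xsucc, e2]; simp
            have e4 : k = i + 1 := h3 k le_rfl (i + 1) hlt (by rw [e3]; simp)
            have e5 : k = 0 := h3 k le_rfl 0 (by omega) (by rw [← e4] at e3; rw [x0]; omega)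
            omega
          · exact hne _ hpk e1
        rcases Int.natAbs_eq_natAbs_iff.1 e.symm with e | e
        · rcases i with _ | i
          · exact case1 (by rw [e, x0]; simp)
          · rw [xsucc, xsucc, neg_inj] at e
            have e1 : x k = x i := by rw [← hi _ hpk, e, hi _ (h1 i (by omega))]
            have := h3 k le_rfl i (by omega) (by rw [e1])
            omega
        · exact case1 e
      intro i hi' j hj e
      rcases Nat.lt_or_eq_of_le hi' with hi1 | rfl <;> rcases Nat.lt_or_eq_of_le hj with hj1 | rfl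
      · exact h3 i (by omega) j (by omega) e
      · exact absurd e (new i (by omega))
      · exact absurd e.symm (new j (by omega))
      · rfl
  have hex : ∃ e, x e = n + 1 := by
    by_contra hno
    push Not at hno
    obtain ⟨h1, -, h3⟩ := key (n + 2) (fun i _ => hno i)
    have := Finset.card_le_card_of_injOn (s := Finset.range (n + 2)) (t := Finset.range (n + 1))
      (fun i => (x i).natAbs) (fun i hi => by
        simp only [Finset.coe_range, Set.mem_Iio] at hi ⊢
        have := (key i (fun i _ => hno i)).2.1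
        have := hno i
        omega)
      (fun i hi j hj e => h3 i (by simp at hi; omega) j (by simp at hj; omega) e)
    simp at this
  let e := Nat.find hex
  have he : x e = n + 1 := Nat.find_spec hex
  have hlt : ∀ i < e, x i ≠ n + 1 := fun i hi => Nat.find_min hex hi
  obtain ⟨h1, -, h3⟩ := key e hlt
  let f : ℕ → Bool := fun a => decide (∃ i ≤ e, (x i).natAbs = a)
  have hf1 : ∀ p, Pt n p → f p.natAbs = true → f (R p).natAbs = true := by
    intro p hpp hfp
    simp only [f, decide_eq_true_eq] at hfp ⊢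
    obtain ⟨i, hi', e1⟩ := hfp
    have c1 : x i = p → ∃ i ≤ e, (x i).natAbs = (R p).natAbs := by
      rintro rfl
      have : i ≠ e := by rintro rfl; unfold Pt at hpp; omega
      exact ⟨i + 1, by omega, by rw [xsucc]; simp⟩
    rcases Int.natAbs_eq_natAbs_iff.1 e1 with e1 | e1
    · exact c1 e1
    · rcases i with _ | i
      · exact c1 (by rw [x0] at e1 ⊢; omega)
      · refine ⟨i, by omega, ?_⟩
        rw [xsucc, neg_inj] at e1
        rw [← e1, hi _ (h1 i (by omega))]
  have hall := hc f (fun p hpp => by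
    rw [Bool.eq_iff_iff]
    exact ⟨fun h => by simpa [hi p hpp] using hf1 _ (hp p hpp) h, hf1 p hpp⟩)
  have hsurj : ∀ a ≤ n + 1, ∃ i ≤ e, (x i).natAbs = a := by
    intro a ha
    have := hall a ha
    have h0 : f 0 = true := by
      simp only [f, decide_eq_true_eq]; exact ⟨0, by omega, by simp [x0]⟩
    rw [h0] at this
    simpa [f] using this
  have hbd : ∀ i ≤ e, (x i).natAbs ≤ n + 1 := by
    intro i hi
    have := (key i (fun j hj => hlt j (by omega))).2.1
    omega
  have hen : e = n + 1 := by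
    have := Finset.card_nbij (s := Finset.range (e + 1)) (t := Finset.range (n + 2))
      (fun i => (x i).natAbs) (fun i hi => by
        simp only [Finset.coe_range, Set.mem_Iio] at hi ⊢
        have := hbd i (by omega); omega)
      (fun i hi j hj e => h3 i (by simp at hi; omega) j (by simp at hj; omega) e)
      (fun a ha => by
        obtain ⟨i, hi, e1⟩ := hsurj a (by simp at ha; omega)
        exact ⟨i, by simp; omega, e1⟩)
    simp at this; omega
  have hlen : (trav n R).length = n := by simp [trav]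
  have hxs : ∀ k ≤ n + 1, xs (trav n R) k = x k := by
    intro k hk
    rcases k with _ | k
    · rw [xs_zero, x0]
    rcases Nat.lt_or_ge k n with h | h
    · rw [xs_mid _ _ (by omega)]; simp [trav, hx]
    · have : k = n := by omega
      subst this
      have := xs_last (trav k R)
      rw [hlen] at this
      rw [this, ← hen, he]
  refine ⟨?_, fun k hk => ?_⟩
  · unfold IsSP
    rw [hlen]
    refine (List.perm_ext_iff_of_nodup ?_ (List.nodup_range' ..)).2 (fun a => ?_)
    · rw [trav, List.map_map]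
      refine (List.nodup_range).map_on (fun i hi j hj e1 => ?_)
      simp only [List.mem_range] at hi hj
      have := h3 (i + 1) (by omega) (j + 1) (by omega) e1
      omega
    · simp only [trav, List.map_map, List.mem_map, List.mem_range, List.mem_range'_1]
      constructor
      · rintro ⟨i, hi', rfl⟩
        change 1 ≤ (x (i + 1)).natAbs ∧ (x (i + 1)).natAbs < 1 + n
        have a1 := hbd (i + 1) (by omega)
        have a2 : (x (i + 1)).natAbs ≠ (x 0).natAbs := fun e1 => by
          have := h3 _ (by omega) _ (by omega) e1; omega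
        have a3 : (x (i + 1)).natAbs ≠ (x e).natAbs := fun e1 => by
          have := h3 _ (by omega) _ (by omega) e1; omega
        rw [x0] at a2; rw [he] at a3
        omega
      · rintro ⟨a1, a2⟩
        obtain ⟨i, hi', e1⟩ := hsurj a (by omega)
        rcases i with _ | i
        · rw [x0] at e1; omega
        · refine ⟨i, ?_, e1⟩
          by_contra hcon
          have : i + 1 = e := by omega
          rw [this, he] at e1; omega
  · rw [hlen] at hk
    rw [hxs k (by omega), hxs (k + 1) (by omega), xsucc, neg_neg]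
    exact ⟨rfl, hi _ (h1 k (by omega))⟩

end Pool.Agent.MP_f00251_lc

end MrgPart0

-- ======== part 1: formerly Pool.Agent.MP_f00251_lc.Chords
section MrgPart1

/-!
Chord systems: a line with marked gaps (slots) paired by chords; a state says which chords are
pressed.
-/

set_option autoImplicit false

namespace Pool.Agent.MP_f00251_lc

variable {κ : Type} [DecidableEq κ] [Inhabited κ]

/-- The integer name of a point, given by its slot and by the side (in or out). -/
def pt (sl : List (κ × Bool)) (fp : κ × Bool → Bool) (x : (κ × Bool) × Bool) : ℤ :=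
  if xor x.2 (fp x.1) then -((sl.idxOf x.1 : ℤ) + 1) else (sl.idxOf x.1 : ℤ)

/-- The index of the gap at which a point lies in the identity. -/
def slotOf (p : ℤ) : ℕ := p.toNat + ((-p).toNat - 1)

/-- The slot and the side of a point. -/
def unpt (sl : List (κ × Bool)) (fp : κ × Bool → Bool) (p : ℤ) : (κ × Bool) × Bool :=
  (sl.getD (slotOf p) default, xor (decide (p < 0)) (fp (sl.getD (slotOf p) default)))

/-- The adjacent point in the state `S`. -/
def adj (S : κ → Bool) (x : (κ × Bool) × Bool) : (κ × Bool) × Bool :=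
  ((x.1.1, xor x.1.2 (S x.1.1)), !x.2)

/-- The adjacencies in the state `S`. -/
def RS (sl : List (κ × Bool)) (fp : κ × Bool → Bool) (S : κ → Bool) (p : ℤ) : ℤ :=
  pt sl fp (adj S (unpt sl fp p))

/-- Well-formed slot lists. -/
structure WF (sl : List (κ × Bool)) (n : ℕ) : Prop where
  nodup : sl.Nodup
  len : sl.length = n + 1
  mate : ∀ k b b', (k, b) ∈ sl → (k, b') ∈ sl

/-- Changing the state of one chord. -/
def tog (S : κ → Bool) (k : κ) : κ → Bool := fun j => xor (S j) (decide (j = k))

omit [Inhabited κ] in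
theorem tog_tog (S : κ → Bool) (k : κ) : tog (tog S k) k = S := by
  funext j; simp [tog]

omit [Inhabited κ] [DecidableEq κ] in
theorem adj_adj (S : κ → Bool) (x : (κ × Bool) × Bool) : adj S (adj S x) = x := by
  obtain ⟨⟨k, b⟩, io⟩ := x
  simp [adj]

omit [Inhabited κ] in
theorem pt_not (sl : List (κ × Bool)) (fp : κ × Bool → Bool) (s : κ × Bool) (io : Bool) :
    pt sl fp (s, !io) = -pt sl fp (s, io) - 1 := by
  unfold pt
  cases io <;> cases fp s <;> simp <;> ring

variable {sl : List (κ × Bool)} {n : ℕ} (fp : κ × Bool → Bool)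

namespace WF

omit [Inhabited κ] in
theorem idx_lt (h : WF sl n) {s : κ × Bool} (hs : s ∈ sl) : sl.idxOf s < n + 1 :=
  h.len ▸ List.idxOf_lt_length_of_mem hs

omit [Inhabited κ] in
theorem pt_pt (h : WF sl n) {x : (κ × Bool) × Bool} (hx : x.1 ∈ sl) : Pt n (pt sl fp x) := by
  have := h.idx_lt hx
  unfold pt Pt
  split_ifs <;> omega

omit [Inhabited κ] in
theorem slotOf_pt (x : (κ × Bool) × Bool) : slotOf (pt sl fp x) = sl.idxOf x.1 := by
  unfold pt slotOf
  split_ifs <;> omega

theorem unpt_pt {x : (κ × Bool) × Bool} (hx : x.1 ∈ sl) : unpt sl fp (pt sl fp x) = x := by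
  have h1 : sl.getD (slotOf (pt sl fp x)) default = x.1 := by
    rw [slotOf_pt, List.getD_eq_getElem _ _ (List.idxOf_lt_length_of_mem hx), List.getElem_idxOf]
  unfold unpt
  rw [h1]
  obtain ⟨s, io⟩ := x
  simp only [Prod.mk.injEq, true_and]
  unfold pt
  cases io <;> cases h : fp s <;> simp [h] <;> omega

theorem pt_inj {x y : (κ × Bool) × Bool} (hx : x.1 ∈ sl) (hy : y.1 ∈ sl)
    (e : pt sl fp x = pt sl fp y) : x = y := by
  rw [← unpt_pt fp hx, e, unpt_pt fp hy]

omit [DecidableEq κ] in
theorem unpt_mem (h : WF sl n) {p : ℤ} (hp : Pt n p) : (unpt sl fp p).1 ∈ sl := by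
  have : slotOf p < sl.length := by rw [h.len]; unfold slotOf; unfold Pt at hp; omega
  simp only [unpt]
  rw [List.getD_eq_getElem _ _ this]
  exact List.getElem_mem _

theorem pt_unpt (h : WF sl n) {p : ℤ} (hp : Pt n p) : pt sl fp (unpt sl fp p) = p := by
  have h1 : slotOf p < sl.length := by rw [h.len]; unfold slotOf; unfold Pt at hp; omega
  have h2 : sl.idxOf (sl.getD (slotOf p) default) = slotOf p := by
    rw [List.getD_eq_getElem _ _ h1, h.nodup.idxOf_getElem]
  unfold pt
  simp only [unpt, h2]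
  unfold slotOf
  by_cases h3 : p < 0 <;> simp [h3] <;> omega

theorem exists_pt (h : WF sl n) {p : ℤ} (hp : Pt n p) : ∃ x, x.1 ∈ sl ∧ p = pt sl fp x :=
  ⟨_, h.unpt_mem fp hp, (h.pt_unpt fp hp).symm⟩

omit [Inhabited κ] [DecidableEq κ] in
theorem adj_mem (h : WF sl n) (S : κ → Bool) {x : (κ × Bool) × Bool} (hx : x.1 ∈ sl) :
    (adj S x).1 ∈ sl := h.mate _ x.1.2 _ hx

theorem RS_pt (S : κ → Bool) {x : (κ × Bool) × Bool} (hx : x.1 ∈ sl) :
    RS sl fp S (pt sl fp x) = pt sl fp (adj S x) := by
  rw [RS, unpt_pt fp hx]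

theorem real_trav (h : WF sl n) (S : κ → Bool) (hc : Conn n (RS sl fp S)) :
    Real (trav n (RS sl fp S)) (RS sl fp S) := by
  refine MP_f00251_lc.real_trav (fun p hp => ?_) (fun p hp => ?_) (fun p hp => ?_) hc
  · exact h.pt_pt fp (h.adj_mem S (h.unpt_mem fp hp))
  · obtain ⟨x, hx, rfl⟩ := h.exists_pt fp hp
    rw [RS_pt fp S hx, RS_pt fp S (h.adj_mem S hx), adj_adj]
  · obtain ⟨x, hx, rfl⟩ := h.exists_pt fp hp
    rw [RS_pt fp S hx]
    intro e
    have := congrArg Prod.snd (pt_inj fp (h.adj_mem S hx) hx e)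
    simp [adj] at this

theorem RS_of_not (h : WF sl n) (S : κ → Bool) {p : ℤ} (hp : Pt n p)
    (hS : S (unpt sl fp p).1.1 = false) : RS sl fp S p = -p - 1 := by
  obtain ⟨x, hx, rfl⟩ := h.exists_pt fp hp
  rw [unpt_pt fp hx] at hS
  rw [RS_pt fp S hx, ← pt_not]
  simp [adj, hS]

theorem RS_of_pressed (h : WF sl n) (S : κ → Bool) {p : ℤ} (hp : Pt n p)
    (hS : S (unpt sl fp p).1.1 = true) : RS sl fp S p ≠ -p - 1 := by
  obtain ⟨x, hx, rfl⟩ := h.exists_pt fp hp
  rw [unpt_pt fp hx] at hS
  rw [RS_pt fp S hx, ← pt_not]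
  intro e
  have := congrArg (fun y => y.1.2) (pt_inj fp (h.adj_mem S hx) (y := (x.1, !x.2)) hx e)
  simp [adj, hS] at this

theorem real_idp (h : WF sl n) : Real (idp n) (RS sl fp (fun _ => false)) := by
  refine ⟨isSP_idp n, fun k hk => ?_⟩
  rw [length_idp] at hk
  rw [xs_idp n k (by omega), xs_idp n (k + 1) (by omega),
    h.RS_of_not fp _ (by unfold Pt; omega) rfl, h.RS_of_not fp _ (by unfold Pt; omega) rfl]
  push_cast
  constructor <;> ring

theorem rep_tog (h : WF sl n) (S : κ → Bool) {k : κ} {b : Bool} (hk : (k, b) ∈ sl) (io : Bool) :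
    Rep n (RS sl fp S) (RS sl fp (tog S k)) (pt sl fp ((k, b), io))
      (pt sl fp ((k, xor b (S k)), !io)) (pt sl fp ((k, xor b (!S k)), !io))
      (pt sl fp ((k, !b), io)) := by
  have hm : ∀ b', (k, b') ∈ sl := fun b' => h.mate _ _ _ hk
  have e : ∀ (T : κ → Bool) b' io', RS sl fp T (pt sl fp ((k, b'), io')) =
      pt sl fp ((k, xor b' (T k)), !io') := fun T b' io' => RS_pt fp T (hm b')
  have et : tog S k k = !S k := by simp [tog]
  refine ⟨e _ _ _, ?_, ?_, ?_, ?_, ?_, ?_, ?_, ?_, ?_, ?_⟩
  · rw [e]; simp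
  · rw [e]; cases b <;> simp
  · rw [e]; cases b <;> simp
  · rw [e, et]
  · rw [e, et]; simp
  · rw [e, et]; cases b <;> cases S k <;> simp
  · rw [e, et]; cases b <;> cases S k <;> simp
  · intro p h0 h1 h2 h3 h4
    by_cases hk' : (unpt sl fp p).1.1 = k
    · have hp := h.pt_unpt fp h0
      exfalso
      generalize unpt sl fp p = x at hk' hp
      obtain ⟨⟨k', b'⟩, io'⟩ := x
      simp only at hk'
      subst hk' hp
      revert h1 h2 h3 h4
      cases b <;> cases b' <;> cases io <;> cases io' <;> cases S k' <;> simp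
    · simp [RS, adj, tog, hk']
  · intro e1
    have := congrArg Prod.snd (pt_inj fp (hm _) (hm _) e1)
    simp at this
  · intro e1
    have := congrArg (fun y => y.1.2) (pt_inj fp (hm _) (hm _) e1)
    simp at this

end WF

/-- Labels of the segments on the left and on the right of a slot. -/
def lft (fp I O : κ × Bool → Bool) (s : κ × Bool) : Bool := if fp s then O s else I s

/-- Labels of the segments on the left and on the right of a slot. -/
def rgt (fp I O : κ × Bool → Bool) (s : κ × Bool) : Bool := if fp s then I s else O s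

/-- The labels agree along the line. -/
def Thr (fp I O : κ × Bool → Bool) : Bool → List (κ × Bool) → Bool → Prop
  | x, [], y => x = y
  | x, s :: l, y => lft fp I O s = x ∧ Thr fp I O (rgt fp I O s) l y

omit [DecidableEq κ] [Inhabited κ] in
theorem thr_append (I O : κ × Bool → Bool) (x y : Bool) (l l' : List (κ × Bool)) :
    Thr fp I O x (l ++ l') y ↔ ∃ z, Thr fp I O x l z ∧ Thr fp I O z l' y := by
  induction l generalizing x with
  | nil => simp [Thr]
  | cons s l ih => simp only [List.cons_append, Thr, ih, and_assoc, exists_and_left]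

omit [DecidableEq κ] [Inhabited κ] in
theorem thr_iff (I O : κ × Bool → Bool) (x y : Bool) (l : List (κ × Bool)) :
    Thr fp I O x l y ↔ ∃ f : ℕ → Bool, f 0 = x ∧ f l.length = y ∧
      ∀ i (h : i < l.length), lft fp I O l[i] = f i ∧ rgt fp I O l[i] = f (i + 1) := by
  induction l generalizing x with
  | nil =>
    simp only [Thr, List.length_nil, Nat.not_lt_zero, IsEmpty.forall_iff, implies_true, and_true]
    exact ⟨fun h => ⟨fun _ => x, rfl, h⟩, fun ⟨f, h1, h2⟩ => h1.symm.trans h2⟩
  | cons s l ih =>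
    simp only [Thr, ih]
    constructor
    · rintro ⟨h0, f, h1, h2, h3⟩
      refine ⟨fun i => Nat.casesOn i x f, rfl, h2, fun i hi => ?_⟩
      rcases i with _ | i
      · exact ⟨h0, h1.symm⟩
      · exact h3 i (by simpa using hi)
    · rintro ⟨f, h1, h2, h3⟩
      have := h3 0 (by simp)
      exact ⟨this.1.trans h1, fun i => f (i + 1), this.2.symm, h2,
        fun i hi => h3 (i + 1) (by simpa using hi)⟩

/-- Connectedness, in terms of slots. -/
def TConn (sl : List (κ × Bool)) (fp : κ × Bool → Bool) (S : κ → Bool) : Prop :=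
  ∀ (I O : κ × Bool → Bool) (x y : Bool), Thr fp I O x sl y →
    (∀ s ∈ sl, O s = I (s.1, xor s.2 (S s.1))) → ∀ s ∈ sl, I s = x

omit [Inhabited κ] in
theorem thr_of_fun (h : WF sl n) (lam : ℤ → Bool) (f : ℕ → Bool)
    (h1 : ∀ i ≤ n, lam i = f i) (h2 : ∀ i ≤ n, lam (-((i : ℤ) + 1)) = f (i + 1)) :
    Thr fp (fun s => lam (pt sl fp (s, false))) (fun s => lam (pt sl fp (s, true))) (f 0) sl
      (f (n + 1)) := by
  rw [thr_iff]
  refine ⟨f, rfl, by rw [h.len], fun i hi => ?_⟩
  have hi' : i ≤ n := by have := h.len; omega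
  rw [← h1 i hi', ← h2 i hi']
  unfold lft rgt pt
  simp only [h.nodup.idxOf_getElem]
  cases fp sl[i] <;> simp

theorem conn_iff (h : WF sl n) (S : κ → Bool) : Conn n (RS sl fp S) ↔ TConn sl fp S := by
  constructor
  · intro hc I O x y hT hR s hs
    obtain ⟨f, h0, -, hf⟩ := (thr_iff fp I O x y sl).1 hT
    have lab : ∀ z : (κ × Bool) × Bool, z.1 ∈ sl →
        f (pt sl fp z).natAbs = if z.2 then O z.1 else I z.1 := by
      rintro ⟨t, io⟩ ht
      have := hf (sl.idxOf t) (List.idxOf_lt_length_of_mem ht)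
      rw [List.getElem_idxOf] at this
      unfold pt lft rgt at *
      have e : (-1 + -(sl.idxOf t : ℤ)).natAbs = sl.idxOf t + 1 := by omega
      revert this
      cases io <;> cases fp t <;> simp [e] <;> intro a b <;> simp [a, b]
    have := hc f (fun p hp => by
      obtain ⟨z, hz, rfl⟩ := h.exists_pt fp hp
      rw [WF.RS_pt fp S hz, lab _ hz, lab _ (h.adj_mem S hz)]
      obtain ⟨⟨k, b⟩, io⟩ := z
      cases io
      · simp only [adj, Bool.not_false, if_true]
        rw [hR _ (h.mate _ b _ hz)]; simp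
      · simp only [adj, Bool.not_true, if_true]
        rw [hR _ hz]; simp) (pt sl fp (s, false)).natAbs
      (by have := h.pt_pt fp (x := (s, false)) hs; unfold Pt at this; omega)
    rw [lab _ hs, h0] at this
    simpa using this
  · intro hc f hf i hi
    have hT := thr_of_fun fp h (fun p => f p.natAbs) f (fun i _ => by simp)
      (fun i _ => by congr 1)
    have hI := hc _ _ _ _ hT (fun s hs => by
      have := hf _ (h.pt_pt fp (x := (s, true)) hs)
      rw [WF.RS_pt fp S hs] at this
      exact this.symm)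
    have hall : ∀ p, Pt n p → f p.natAbs = f 0 := by
      intro p hp
      obtain ⟨⟨s, io⟩, hz, rfl⟩ := h.exists_pt fp hp
      cases io
      · exact hI s hz
      · rw [← hf _ hp, WF.RS_pt fp S hz]
        exact hI _ (h.adj_mem S (x := (s, true)) hz)
    rcases i with _ | i
    · rfl
    · exact hall (-((i : ℤ) + 1)) (by unfold Pt; omega)

theorem labels (h : WF sl n) (S : κ → Bool) {k : κ} (hk : (k, false) ∈ sl) (L : κ → Prop)
    (h0 : TConn sl fp S) (h1 : TConn sl fp (tog S k))
    (h2 : ∀ j, L j → (j, false) ∈ sl ∧ j ≠ k ∧ TConn sl fp (tog S j) ∧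
      TConn sl fp (tog (tog S k) j)) :
    ∃ I O : κ × Bool → Bool, Thr fp I O false sl false ∧
      (∀ s ∈ sl, s.1 ≠ k → O s = I (s.1, xor s.2 (S s.1))) ∧
      (∀ j, L j → I (j, false) = I (j, true)) ∧ I (k, false) = I (k, true) ∧
      ∀ b, O (k, b) = !I (k, false) := by
  classical
  have key : ∀ T : κ → Bool, TConn sl fp T → ∃ o : ℤ → Bool, o 0 = false ∧
      o (-((n : ℤ) + 1)) = true ∧ (∀ i : ℕ, 1 ≤ i → i ≤ n → o (-(i : ℤ)) = !o i) ∧
      (∀ z : (κ × Bool) × Bool, z.1 ∈ sl → o (pt sl fp (adj T z)) = !o (pt sl fp z)) ∧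
      ∀ j b io, (j, b) ∈ sl → TConn sl fp (tog T j) →
        o (pt sl fp ((j, b), io)) = o (pt sl fp ((j, xor b (!T j)), !io)) := by
    intro T hT
    have hr := h.real_trav fp T ((conn_iff fp h T).2 hT)
    generalize hg : trav n (RS sl fp T) = g at hr
    have hl : g.length = n := by rw [← hg]; simp [trav]
    subst hl
    refine ⟨fun p => decide (Ori g p), by simpa using hr.1.not_ori_zero,
      by simpa using ori_last g, fun i a b => ?_, fun z hz => ?_, fun j b io hj hc => ?_⟩
    · simp [hr.1.ori_neg a b]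
    · rw [← WF.RS_pt fp T hz]
      simp [hr.ori_R (h.pt_pt fp hz)]
    · simp only [decide_eq_decide]
      exact hr.ori_of_conn (h.rep_tog fp T hj io) (h.pt_pt fp hj)
        (h.pt_pt fp (h.mate _ b _ hj)) ((conn_iff fp h _).2 hc)
  obtain ⟨o, a0, a1, a2, a3, a4⟩ := key S h0
  obtain ⟨o', b0, b1, b2, b3, b4⟩ := key _ h1
  have hT := thr_of_fun fp h (fun p => xor (o p) (o' p))
    (fun i => if i ≤ n then xor (o i) (o' i) else false) (fun i hi => by simp [hi])
    (fun i hi => by
      by_cases e : i = n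
      · subst e; simp only [a1, b1]; simp
      · have e1 := a2 (i + 1) (by omega) (by omega)
        have e2 := b2 (i + 1) (by omega) (by omega)
        push_cast at e1 e2
        simp only [e1, e2]
        rw [if_pos (by omega)]
        simp)
  simp only [Nat.zero_le, if_true, Nat.cast_zero, a0, b0, Bool.xor_false, add_le_iff_nonpos_right,
    nonpos_iff_eq_zero, one_ne_zero, if_false] at hT
  have hm : ∀ b, (k, b) ∈ sl := fun b => h.mate _ _ _ hk
  have et : tog S k k = !S k := by simp [tog]
  have kk : ∀ b, xor (o (pt sl fp ((k, b), true))) (o' (pt sl fp ((k, b), true))) =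
      !xor (o (pt sl fp ((k, false), false))) (o' (pt sl fp ((k, false), false))) := by
    intro b
    have c1 := a3 ((k, false), false) hk
    have c2 := b3 ((k, false), false) hk
    have c3 := a4 k false false hk h1
    have c4 := b4 k false false hk (by rwa [tog_tog])
    simp only [adj, et, Bool.false_xor, Bool.not_false, Bool.not_not] at c1 c2 c3 c4
    revert c1 c2 c3 c4
    cases b <;> cases S k <;> simp <;> intro c1 c2 c3 c4 <;> simp_all
  refine ⟨_, _, hT, ?_, ?_, ?_, kk⟩
  · rintro ⟨j, b⟩ hs hne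
    have c1 := a3 ((j, b), true) hs
    have c2 := b3 ((j, b), true) hs
    have e : tog S k j = S j := by simp [tog, show j ≠ k from hne]
    simp only [adj, e, Bool.not_true] at c1 c2
    simp [c1, c2]
  · intro j hj
    obtain ⟨d1, d2, d3, d4⟩ := h2 j hj
    have e : tog S k j = S j := by simp [tog, d2]
    have c1 := a3 ((j, true), false) (h.mate _ _ _ d1)
    have c2 := b3 ((j, true), false) (h.mate _ _ _ d1)
    have c3 := a4 j false false d1 d3
    have c4 := b4 j false false d1 d4
    simp only [adj, e, Bool.false_xor, Bool.true_xor, Bool.not_false] at c1 c2 c3 c4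
    show xor _ _ = xor _ _
    rw [c3, c4, c1, c2]
    cases o (pt sl fp ((j, true), false)) <;> cases o' (pt sl fp ((j, true), false)) <;> rfl
  · have c1 := a3 ((k, true), false) (hm _)
    have c4 := b4 k true false (hm _) (by rwa [tog_tog])
    have := kk (!S k)
    simp only [adj, et, Bool.true_xor, Bool.not_false, Bool.not_not] at c1 c4
    rw [c1, ← c4] at this
    revert this
    generalize o (pt sl fp ((k, true), false)) = u1
    generalize o' (pt sl fp ((k, true), false)) = u2
    generalize o (pt sl fp ((k, false), false)) = u3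
    generalize o' (pt sl fp ((k, false), false)) = u4
    cases u1 <;> cases u2 <;> cases u3 <;> cases u4 <;> simp

end Pool.Agent.MP_f00251_lc

end MrgPart1

-- ======== part 2: formerly Pool.Agent.MP_f00251_lc.Seqs
section MrgPart2

/-!
Optimal sorting sequences of the genome of a chord system are counted by words.
-/

set_option autoImplicit false

namespace Pool.Agent.MP_f00251_lc

open Finset

/-- The points `p` and `q` are adjacent in `g`. -/
def Adj (g : List ℤ) (p q : ℤ) : Prop :=
  ∃ t ≤ g.length, (xs g t = p ∧ -xs g (t + 1) = q) ∨ (xs g t = q ∧ -xs g (t + 1) = p)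

open Classical in
/-- The adjacencies of the identity which are missing in `g`. -/
noncomputable def Brk (g : List ℤ) : Finset ℕ :=
  (range (g.length + 1)).filter (fun i => ¬ Adj g i (-(i : ℤ) - 1))

theorem mem_Brk {g : List ℤ} {i : ℕ} :
    i ∈ Brk g ↔ i < g.length + 1 ∧ ¬ Adj g i (-(i : ℤ) - 1) := by
  simp only [Brk, mem_filter, mem_range]

theorem brk_idp (n : ℕ) : Brk (idp n) = ∅ := by
  rw [eq_empty_iff_forall_notMem]
  intro i hi
  rw [mem_Brk, length_idp] at hi
  obtain ⟨hi, h⟩ := hi
  apply h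
  refine ⟨i, by simp; omega, Or.inl ⟨xs_idp n i (by omega), ?_⟩⟩
  rw [xs_idp n _ (by omega)]; push_cast; ring

theorem brk_rev {g : List ℤ} {k l : ℕ} (hkl : k < l) (hl : l ≤ g.length) {i : ℕ} (hi : i ∈ Brk g)
    (hi' : i ∉ Brk (rev g (k + 1, l))) :
    (i = slotOf (xs g k) ∧ xs g l = -xs g k - 1) ∨
      (i = slotOf (-xs g (k + 1)) ∧ -xs g (l + 1) = xs g (k + 1) - 1) := by
  have hv : Valid g.length (k + 1, l) := ⟨by simp, hkl, hl⟩
  simp only [mem_Brk, length_rev hv, not_and, not_not] at hi hi'
  obtain ⟨t, ht, h⟩ := hi' hi.1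
  rw [length_rev hv] at ht
  rw [xs_rev hv, xs_rev hv] at h
  simp only at h
  by_cases h1 : t = k
  · subst h1
    rw [if_neg (by omega), if_pos (by omega), neg_neg, show t + 1 + l - (t + 1) = l by omega] at h
    left; unfold slotOf; omega
  by_cases h2 : t = l
  · subst h2
    rw [if_pos (by omega), if_neg (by omega), show k + 1 + t - t = k + 1 by omega] at h
    right; unfold slotOf; omega
  exfalso
  apply hi.2
  by_cases h3 : k < t ∧ t < l
  · rw [if_pos (by omega), if_pos (by omega), neg_neg,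
      show k + 1 + l - t = (k + l - t) + 1 by omega,
      show k + 1 + l - (t + 1) = k + l - t by omega] at h
    exact ⟨k + l - t, by omega, by tauto⟩
  · rw [if_neg (by omega), if_neg (by omega)] at h
    exact ⟨t, ht, h⟩

theorem valid_cases {n : ℕ} {r : ℕ × ℕ} (h : Valid n r) :
    ∃ k l, k < l ∧ l ≤ n ∧ r = (k + 1, l) := by
  obtain ⟨i, j⟩ := r
  obtain ⟨h1, h2, h3⟩ := h
  exact ⟨i - 1, j, by simp at *; omega, h3, by simp at *; omega⟩

theorem card_brk_rev {g : List ℤ} {r : ℕ × ℕ} (h : Valid g.length r) :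
    (Brk g).card ≤ (Brk (rev g r)).card + 2 := by
  obtain ⟨k, l, hkl, hl, rfl⟩ := valid_cases h
  have : Brk g ⊆ Brk (rev g (k + 1, l)) ∪ {slotOf (xs g k), slotOf (-xs g (k + 1))} := by
    intro i hi
    by_cases hi' : i ∈ Brk (rev g (k + 1, l))
    · exact mem_union_left _ hi'
    · refine mem_union_right _ ?_
      rcases brk_rev hkl hl hi hi' with h | h <;> simp [h.1]
  exact (card_le_card this).trans ((card_union_le _ _).trans
    (Nat.add_le_add_left card_le_two _))

theorem sorts_nil {g : List ℤ} : Sorts g [] ↔ g = idp g.length := by simp [Sorts, idp]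

theorem sorts_cons {g : List ℤ} {r : ℕ × ℕ} {s : List (ℕ × ℕ)} :
    Sorts g (r :: s) ↔ Valid g.length r ∧ Sorts (rev g r) s := by
  simp only [Sorts, List.mem_cons, forall_eq_or_imp, List.foldl_cons]
  constructor
  · rintro ⟨⟨h1, h2⟩, h3⟩
    exact ⟨h1, by rw [length_rev h1]; exact ⟨h2, h3⟩⟩
  · rintro ⟨h1, h2⟩
    rw [length_rev h1] at h2
    exact ⟨⟨h1, h2.1⟩, h2.2⟩

theorem card_brk_le {s : List (ℕ × ℕ)} : ∀ {g : List ℤ}, Sorts g s →
    (Brk g).card ≤ 2 * s.length := by
  induction s with
  | nil => intro g h; rw [sorts_nil.1 h, brk_idp]; simp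
  | cons r s ih =>
    intro g h
    rw [sorts_cons] at h
    have := card_brk_rev h.1
    have := ih h.2
    simp only [List.length_cons]; omega

open Classical in
/-- Sorting sequences of a given length through allowed genomes. -/
noncomputable def seqs (ok : List ℤ → Prop) (n : ℕ) : ℕ → List ℤ → Finset (List (ℕ × ℕ))
  | 0, g => if g = idp n ∧ ok g then {[]} else ∅
  | k + 1, g => if ok g then
      ((range (n + 1) ×ˢ range (n + 1)).filter (Valid n)).biUnion
        (fun r => (seqs ok n k (rev g r)).image (r :: ·)) else ∅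

theorem mem_seqs (ok : List ℤ → Prop) (n k : ℕ) : ∀ (g : List ℤ) (s : List (ℕ × ℕ)),
    g.length = n →
    (s ∈ seqs ok n k g ↔ s.length = k ∧ Sorts g s ∧ ∀ γ ∈ List.scanl rev g s, ok γ) := by
  induction k with
  | zero =>
    intro g s hg
    simp only [seqs, List.length_eq_zero_iff]
    constructor
    · intro h
      split_ifs at h with hc
      · rw [mem_singleton] at h
        subst h
        exact ⟨rfl, sorts_nil.2 (hg ▸ hc.1), by simpa using hc.2⟩
      · simp at h
    · rintro ⟨rfl, h1, h2⟩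
      rw [if_pos ⟨hg ▸ sorts_nil.1 h1, by simpa using h2⟩]; simp
  | succ k ih =>
    intro g s hg
    simp only [seqs]
    constructor
    · intro h
      split_ifs at h with hc
      · simp only [mem_biUnion, mem_filter, mem_image] at h
        obtain ⟨r, ⟨-, hr⟩, s', hs', rfl⟩ := h
        rw [← hg] at hr
        rw [ih _ _ ((length_rev hr).trans hg)] at hs'
        refine ⟨by simp [hs'.1], sorts_cons.2 ⟨hr, hs'.2.1⟩, ?_⟩
        simpa [List.scanl_cons, hc] using hs'.2.2
      · simp at h
    · rintro ⟨h1, h2, h3⟩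
      cases s with
      | nil => simp at h1
      | cons r s =>
        rw [sorts_cons] at h2
        simp only [List.scanl_cons, List.mem_cons, forall_eq_or_imp] at h3
        rw [if_pos h3.1]
        simp only [mem_biUnion, mem_filter, mem_image, mem_product, mem_range]
        refine ⟨r, ⟨?_, hg ▸ h2.1⟩, s, ?_, rfl⟩
        · obtain ⟨a, b, c⟩ := h2.1; omega
        · rw [ih _ _ ((length_rev h2.1).trans hg)]
          exact ⟨by simpa using h1, h2.2, h3.2⟩

open Classical in
theorem card_seqs_succ (ok : List ℤ → Prop) (n k : ℕ) (g : List ℤ) :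
    (seqs ok n (k + 1) g).card = if ok g then
      ∑ r ∈ (range (n + 1) ×ˢ range (n + 1)).filter (Valid n), (seqs ok n k (rev g r)).card
      else 0 := by
  simp only [seqs]
  split_ifs
  · rw [card_biUnion]
    · exact sum_congr rfl (fun r _ => card_image_of_injective _ List.cons_injective)
    · intro c _ c' _ hcc'
      simp only [Function.onFun, disjoint_left, mem_image]
      rintro l ⟨l1, -, rfl⟩ ⟨l2, -, h2⟩
      exact hcc' (List.cons.inj h2).1.symm
  · rfl

variable {κ : Type} [DecidableEq κ] [Inhabited κ] {sl : List (κ × Bool)} {n : ℕ}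
  (fp : κ × Bool → Bool)

theorem Real.adj_iff {g : List ℤ} {R : ℤ → ℤ} (h : Real g R) {p : ℤ} (hp : Pt g.length p) (q : ℤ) :
    Adj g p q ↔ R p = q := by
  constructor
  · rintro ⟨t, ht, ⟨rfl, rfl⟩ | ⟨rfl, rfl⟩⟩
    · exact (h.2 t ht).1
    · exact (h.2 t ht).2
  · rintro rfl
    obtain ⟨t, ht, rfl | rfl⟩ := h.1.cover hp
    · exact ⟨t, ht, Or.inl ⟨rfl, (h.2 t ht).1.symm⟩⟩
    · exact ⟨t, ht, Or.inr ⟨(h.2 t ht).2.symm, rfl⟩⟩

theorem mem_brk (h : WF sl n) {S : κ → Bool} {g : List ℤ} (hg : g.length = n)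
    (hr : Real g (RS sl fp S)) {p : ℤ} (hp : Pt n p) :
    slotOf p ∈ Brk g ↔ S (unpt sl fp p).1.1 = true := by
  subst hg
  have hp' : Pt g.length (slotOf p) := by unfold Pt slotOf at *; omega
  have e : (unpt sl fp (slotOf p)).1 = (unpt sl fp p).1 := by
    simp only [unpt]; congr 1; unfold slotOf; omega
  rw [mem_Brk, hr.adj_iff hp', ← e]
  constructor
  · rintro ⟨-, h1⟩
    by_contra h2
    exact h1 (h.RS_of_not fp S hp' (by simpa using h2))
  · intro h1
    exact ⟨by unfold Pt at hp'; omega, h.RS_of_pressed fp S hp' h1⟩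

theorem card_brk (h : WF sl n) {S : Finset κ} (hS : ∀ k ∈ S, (k, false) ∈ sl) {g : List ℤ}
    (hg : g.length = n) (hr : Real g (RS sl fp (fun k => decide (k ∈ S)))) :
    (Brk g).card = 2 * S.card := by
  have : (S ×ˢ (univ : Finset Bool)).card = (Brk g).card := by
    refine card_nbij (fun s => sl.idxOf s) ?_ ?_ ?_
    · rintro ⟨k, b⟩ hs
      simp only [coe_product, Set.mem_prod, mem_coe] at hs
      have hm : (k, b) ∈ sl := h.mate _ _ _ (hS k hs.1)
      have := (mem_brk fp h hg hr (h.pt_pt fp (x := ((k, b), false)) hm)).2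
        (by rw [WF.unpt_pt fp hm]; simpa using hs.1)
      rwa [WF.slotOf_pt] at this
    · rintro ⟨k, b⟩ hs ⟨k', b'⟩ hs' e
      simp only [coe_product, Set.mem_prod, mem_coe] at hs hs'
      exact (List.idxOf_inj (h.mate _ _ _ (hS k hs.1))).1 e
    · intro i hi
      have hi' : i < n + 1 := by
        rw [mem_coe, mem_Brk, hg] at hi; exact hi.1
      obtain ⟨x, hx, e⟩ := h.exists_pt fp (p := i) (by unfold Pt; omega)
      have e2 : slotOf (pt sl fp x) = i := by rw [← e]; unfold slotOf; omega
      have := (mem_brk fp h hg hr (h.pt_pt fp hx)).1 (by rw [e2]; exact hi)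
      rw [WF.unpt_pt fp hx] at this
      refine ⟨x.1, ?_, by rw [← e2, WF.slotOf_pt]⟩
      simpa using this
  rw [← this, card_product]; simp [mul_comm]

theorem step_tog (h : WF sl n) {S : κ → Bool} {g : List ℤ} (hg : g.length = n)
    (hr : Real g (RS sl fp S)) {r : ℕ × ℕ} (hv : Valid n r)
    (hc : (Brk (rev g r)).card + 2 ≤ (Brk g).card) :
    ∃ k, (k, false) ∈ sl ∧ S k = true ∧ Real (rev g r) (RS sl fp (tog S k)) := by
  subst hg
  obtain ⟨k, l, hkl, hl, rfl⟩ := valid_cases hv
  have h2 : 1 < (Brk g \ Brk (rev g (k + 1, l))).card := by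
    have := le_card_sdiff (Brk (rev g (k + 1, l))) (Brk g); omega
  obtain ⟨i, hi, j, hj, hij⟩ := one_lt_card.1 h2
  rw [mem_sdiff] at hi hj
  have a1 := brk_rev hkl hl hi.1 hi.2
  have a2 := brk_rev hkl hl hj.1 hj.2
  have b : slotOf (xs g k) ∈ Brk g ∧ xs g l = -xs g k - 1 ∧ -xs g (l + 1) = xs g (k + 1) - 1 := by
    rcases a1 with a1 | a1 <;> rcases a2 with a2 | a2
    · exact absurd (a1.1.trans a2.1.symm) hij
    · exact ⟨a1.1 ▸ hi.1, a1.2, a2.2⟩
    · exact ⟨a2.1 ▸ hj.1, a2.2, a1.2⟩
    · exact absurd (a1.1.trans a2.1.symm) hij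
  obtain ⟨b1, b2, b3⟩ := b
  have hp := hr.1.pt_left (k := k) (by omega)
  rw [mem_brk fp h rfl hr hp] at b1
  obtain ⟨⟨⟨c, b⟩, io⟩, hx, e⟩ := h.exists_pt fp hp
  rw [e, WF.unpt_pt fp hx] at b1
  simp only at b1 hx
  refine ⟨c, h.mate _ _ _ hx, b1, real_rev hr hkl hl ?_⟩
  have hR := h.rep_tog fp S hx io
  have e1 : -xs g (k + 1) = pt sl fp ((c, xor b (S c)), !io) := by
    rw [← hR.ab, ← e, (hr.2 k (by omega)).1]
  have e2 : xs g l = pt sl fp ((c, xor b (!S c)), !io) := by
    rw [b2, e, ← pt_not]; simp [b1]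
  have e3 : -xs g (l + 1) = pt sl fp ((c, !b), io) := by
    have := pt_not sl fp (c, !b) io
    rw [b1] at e1
    simp only [Bool.xor_true] at e1
    omega
  rw [e1, e2, e3, e]
  exact hR

omit [Inhabited κ] in
theorem tog_erase {S : Finset κ} {k : κ} (hk : k ∈ S) :
    tog (fun j => decide (j ∈ S)) k = fun j => decide (j ∈ S.erase k) := by
  funext j
  by_cases e : j = k <;> simp [tog, e, hk]

theorem card_seqs {C : Type} [DecidableEq C] (h : WF sl n) (cl : κ → C)
    (fe ok2 : Multiset C → Prop) (ok : List ℤ → Prop) (S0 : Finset κ)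
    (hS0 : ∀ k ∈ S0, (k, false) ∈ sl)
    (hfe : ∀ S ⊆ S0, TConn sl fp (fun k => decide (k ∈ S)) ↔ fe (S.val.map cl))
    (hok : ∀ S ⊆ S0, ∀ g : List ℤ, g.length = n → Real g (RS sl fp (fun k => decide (k ∈ S))) →
      (ok g ↔ ok2 (S.val.map cl))) (d : ℕ) :
    ∀ S ⊆ S0, S.card = d → ∀ g : List ℤ, g.length = n →
      Real g (RS sl fp (fun k => decide (k ∈ S))) →
      (seqs ok n d g).card =
        fac (S.val.map cl) * V (fun t => fe t ∧ ok2 t) 0 (S.val.map cl) := by
  classical
  induction d with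
  | zero =>
    intro S hS hd g hg hr
    rw [card_eq_zero] at hd
    subst hd
    have h1 := hok ∅ hS g hg hr
    have h2 := (hfe ∅ hS).1 ((conn_iff fp h _).1 (hg ▸ hr.conn))
    have h3 : g = idp n := hr.unique (by simpa using h.real_idp fp) (by simp [hg])
    simp only [empty_val, Multiset.map_zero] at h1 h2 ⊢
    rw [V_zero, seqs]
    by_cases hc : ok g
    · rw [if_pos ⟨h3, hc⟩, if_pos ⟨h2, h1.1 hc⟩]; simp [fac]
    · rw [if_neg (fun h => hc h.2), if_neg (fun h => hc (h1.2 h.2))]; simp
  | succ d ih =>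
    intro S hS hd g hg hr
    have hA : S.val.map cl ≠ 0 := by
      intro e
      have := congrArg Multiset.card e
      simp [hd] at this
    have h1 := hok S hS g hg hr
    have h2 := (hfe S hS).1 ((conn_iff fp h _).1 (hg ▸ hr.conn))
    rw [card_seqs_succ, V_succ _ _ _ hA, add_zero]
    by_cases hc : ok g
    swap
    · rw [if_neg hc, if_neg (fun h => hc (h1.2 h.2)), mul_zero]
    rw [if_pos hc, if_pos ⟨h2, h1.1 hc⟩]
    set W := V (fun t => fe t ∧ ok2 t) 0 with hW
    have hSl : ∀ k ∈ S, (k, false) ∈ sl := fun k hk => hS0 k (hS hk)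
    have hbg := card_brk fp h hSl hg hr
    let P : ℕ × ℕ → κ → Prop := fun r k => Real (rev g r) (RS sl fp (fun j => decide (j ∈ S.erase k)))
    let X : κ → ℕ := fun k => fac ((S.erase k).val.map cl) * W ((S.erase k).val.map cl)
    have e1 : ∀ r ∈ (range (n + 1) ×ˢ range (n + 1)).filter (Valid n),
        (seqs ok n d (rev g r)).card = ∑ k ∈ S, if P r k then X k else 0 := by
      intro r hr'
      have hv := (mem_filter.1 hr').2
      have hl : (rev g r).length = n := (length_rev (hg ▸ hv)).trans hg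
      by_cases hex : ∃ k ∈ S, P r k
      · obtain ⟨k, hk, hP⟩ := hex
        rw [sum_eq_single_of_mem k hk, if_pos hP]
        · exact ih _ ((erase_subset _ _).trans hS) (by rw [card_erase_of_mem hk, hd]; rfl) _ hl hP
        · intro k' hk' hne
          rw [if_neg]
          intro hP'
          have hp := h.pt_pt fp (x := ((k, false), false)) (hSl k hk)
          have a1 := mem_brk fp h hl hP hp
          have a2 := mem_brk fp h hl hP' hp
          rw [WF.unpt_pt fp (hSl k hk)] at a1 a2
          simp [hk, hne.symm] at a1 a2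
          exact a1 a2
      · rw [sum_eq_zero (fun k hk => if_neg (fun hP => hex ⟨k, hk, hP⟩)), card_eq_zero,
          eq_empty_iff_forall_notMem]
        intro s hs
        rw [mem_seqs _ _ _ _ _ hl] at hs
        have := card_brk_le hs.2.1
        obtain ⟨k, -, hk, hP⟩ := step_tog fp h hg hr hv (by rw [hbg, hd]; omega)
        rw [decide_eq_true_eq] at hk
        rw [tog_erase hk] at hP
        exact hex ⟨k, hk, hP⟩
    have e2 : ∀ k ∈ S, (∑ r ∈ (range (n + 1) ×ˢ range (n + 1)).filter (Valid n),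
        if P r k then X k else 0) = X k := by
      intro k hk
      by_cases hco : Conn n (RS sl fp (fun j => decide (j ∈ S.erase k)))
      · have hR := h.rep_tog fp (fun j => decide (j ∈ S)) (hSl k hk) false
        rw [tog_erase hk] at hR
        subst hg
        have p1 := h.pt_pt fp (x := ((k, false), false)) (hSl k hk)
        have p2 := h.pt_pt fp (x := ((k, xor false (!decide (k ∈ S))), !false))
          (h.mate _ _ _ (hSl k hk))
        obtain ⟨r, hv, hP⟩ := hr.exists_rev hR p1 p2 (hr.ori_of_conn hR p1 p2 hco)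
        rw [sum_eq_single_of_mem r, if_pos hP]
        · simp only [mem_filter, mem_product, mem_range]
          exact ⟨by obtain ⟨a, b, c⟩ := hv; omega, hv⟩
        · intro r' hr' hne
          rw [if_neg]
          intro hP'
          have hv' := (mem_filter.1 hr').2
          exact hne (rev_inj hr.1 hv' hv
            (Real.unique hP' hP ((length_rev hv').trans (length_rev hv).symm)))
      · have hX : X k = 0 := by
          have hf : ¬ fe ((S.erase k).val.map cl) := fun hf =>
            hco ((conn_iff fp h _).2 ((hfe _ ((erase_subset _ _).trans hS)).2 hf))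
          have : W ((S.erase k).val.map cl) = 0 := by
            rw [hW, V, card_eq_zero, filter_eq_empty_iff]
            intro l hl hch
            rw [mem_wds] at hl
            have := hch.top
            rw [add_zero, hl] at this
            exact hf this.1
          simp only [X, this, mul_zero]
        simp [hX]
    rw [sum_congr rfl e1, sum_comm, sum_congr rfl e2]
    have e3 : ∀ k ∈ S, X k = (fun c => fac ((S.val.map cl).erase c) *
        W ((S.val.map cl).erase c)) (cl k) := by
      intro k hk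
      simp only [X, erase_val, Multiset.map_erase_of_mem cl S.val hk]
    rw [sum_congr rfl e3, mul_sum]
    have e4 : ∀ F : C → ℕ, ∑ k ∈ S, F (cl k) =
        ∑ c ∈ (S.val.map cl).toFinset, (S.val.map cl).count c * F c := by
      intro F
      have := Finset.sum_multiset_map_count (S.val.map cl) F
      simp only [smul_eq_mul, Multiset.map_map] at this
      exact this
    refine (e4 (fun c => fac ((S.val.map cl).erase c) * W ((S.val.map cl).erase c))).trans ?_
    refine sum_congr rfl (fun c hc => ?_)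
    rw [fac_erase (Multiset.mem_toFinset.1 hc), mul_assoc]

theorem opt_eq_seqs (h : WF sl n) {S : Finset κ} (hS : ∀ k ∈ S, (k, false) ∈ sl) {g : List ℤ}
    (hg : g.length = n) (hr : Real g (RS sl fp (fun k => decide (k ∈ S))))
    (hne : (seqs (fun _ => True) n S.card g).Nonempty) (ok : List ℤ → Prop) :
    {s | s ∈ Opt g ∧ ∀ γ ∈ List.scanl rev g s, ok γ} = ↑(seqs ok n S.card g) := by
  obtain ⟨s0, hs0⟩ := hne
  rw [mem_seqs _ _ _ _ _ hg] at hs0
  have hb := card_brk fp h hS hg hr
  ext s
  simp only [Opt, Set.mem_setOf_eq, mem_coe, mem_seqs _ _ _ _ _ hg]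
  constructor
  · rintro ⟨⟨h1, h2⟩, h3⟩
    have := h2 _ hs0.2.1
    have := card_brk_le h1
    exact ⟨by omega, h1, h3⟩
  · rintro ⟨h1, h2, h3⟩
    refine ⟨⟨h2, fun t ht => ?_⟩, h3⟩
    have := card_brk_le ht
    omega

end Pool.Agent.MP_f00251_lc

end MrgPart2

-- ======== part 3: formerly Pool.Agent.MP_f00251_lc.Mult
section MrgPart3

/-!
Classes of twin chords: feasibility only depends on parities.
-/

set_option autoImplicit false

namespace Pool.Agent.MP_f00251_lc

open Finset

variable {C : Type} [DecidableEq C] [Inhabited C]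

/-- The slots of one side of a class. -/
def block (mult : C → ℕ) (fb : C × Bool → Bool) (β : C × Bool) : List ((C × ℕ) × Bool) :=
  (bif fb β then (List.range (mult β.1)).reverse else List.range (mult β.1)).map
    (fun r => ((β.1, r), β.2))

/-- The slots of all classes. -/
def expand (mult : C → ℕ) (fb : C × Bool → Bool) (bl : List (C × Bool)) : List ((C × ℕ) × Bool) :=
  bl.flatMap (block mult fb)

/-- The direction of a slot. -/
def fbx (fb : C × Bool → Bool) (s : (C × ℕ) × Bool) : Bool := fb (s.1.1, s.2)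

/-- The parity of the multiplicity of a class in a state. -/
def par (t : Multiset C) (c : C) : Bool := (t.count c).bodd

variable (mult : C → ℕ) (fb : C × Bool → Bool)

omit [DecidableEq C] [Inhabited C] in
theorem mem_block {β : C × Bool} {s : (C × ℕ) × Bool} :
    s ∈ block mult fb β ↔ (s.1.1, s.2) = β ∧ s.1.2 < mult s.1.1 := by
  obtain ⟨c, b⟩ := β
  obtain ⟨⟨c', r⟩, b'⟩ := s
  unfold block
  cases fb (c, b) <;> simp only [cond_true, cond_false, List.mem_map, List.mem_reverse,
    List.mem_range, Prod.mk.injEq] <;>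
  exact ⟨by rintro ⟨a, h, ⟨rfl, rfl⟩, rfl⟩; exact ⟨⟨rfl, rfl⟩, h⟩,
    by rintro ⟨⟨rfl, rfl⟩, h⟩; exact ⟨r, h, ⟨rfl, rfl⟩, rfl⟩⟩

omit [DecidableEq C] [Inhabited C] in
theorem mem_expand {bl : List (C × Bool)} {s : (C × ℕ) × Bool} :
    s ∈ expand mult fb bl ↔ (s.1.1, s.2) ∈ bl ∧ s.1.2 < mult s.1.1 := by
  simp only [expand, List.mem_flatMap, mem_block]
  constructor
  · rintro ⟨β, h1, rfl, h2⟩; exact ⟨h1, h2⟩
  · rintro ⟨h1, h2⟩; exact ⟨_, h1, rfl, h2⟩

omit [DecidableEq C] [Inhabited C] in
theorem nodup_expand {bl : List (C × Bool)} (h : bl.Nodup) : (expand mult fb bl).Nodup := by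
  rw [expand, List.nodup_flatMap]
  refine ⟨fun β _ => ?_, h.imp (fun {β β'} hne => ?_)⟩
  · refine List.Nodup.map (fun r r' e => by simpa using e) ?_
    cases fb β
    · exact List.nodup_range
    · exact List.nodup_reverse.2 List.nodup_range
  · intro s h1 h2
    rw [mem_block] at h1 h2
    exact hne (h1.1.symm.trans h2.1)

omit [DecidableEq C] [Inhabited C] in
theorem thr_block (I O : (C × ℕ) × Bool → Bool) (c : C) (b x y : Bool) :
    Thr (fbx fb) I O x (block mult fb (c, b)) y ↔ ∃ u : ℕ → Bool,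
      (∀ r < mult c, I ((c, r), b) = u r ∧ O ((c, r), b) = u (r + 1)) ∧
      x = (if fb (c, b) then u (mult c) else u 0) ∧ y = (if fb (c, b) then u 0 else u (mult c)) := by
  rw [thr_iff]
  unfold block
  cases h : fb (c, b)
  · simp only [cond_false, List.length_map, List.length_range, List.getElem_map,
      List.getElem_range, lft, rgt, fbx, h, Bool.false_eq_true, if_false]
    exact ⟨fun ⟨f, h1, h2, h3⟩ => ⟨f, h3, h1.symm, h2.symm⟩,
      fun ⟨f, h3, h1, h2⟩ => ⟨f, h1.symm, h2.symm, h3⟩⟩
  · simp only [cond_true, List.length_map, List.length_reverse, List.length_range,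
      List.getElem_map, List.getElem_reverse, List.getElem_range, lft, rgt, fbx, h, if_true]
    constructor
    · rintro ⟨f, h1, h2, h3⟩
      refine ⟨fun r => f (mult c - r), fun r hr => ?_, by simp [h1], by simp [h2]⟩
      have := h3 (mult c - 1 - r) (by omega)
      rw [show mult c - 1 - (mult c - 1 - r) = r by omega,
        show mult c - 1 - r + 1 = mult c - r by omega] at this
      beta_reduce
      rw [show mult c - (r + 1) = mult c - 1 - r by omega]
      exact this.symm
    · rintro ⟨f, h3, h1, h2⟩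
      refine ⟨fun r => f (mult c - r), by simp [h1], by simp [h2], fun r hr => ?_⟩
      have := h3 (mult c - 1 - r) (by omega)
      rw [show mult c - 1 - r + 1 = mult c - r by omega] at this
      beta_reduce
      rw [show mult c - (r + 1) = mult c - 1 - r by omega]
      exact this.symm

/-- Parity of the number of pressed copies among the first ones. -/
def prx (S : C × ℕ → Bool) (c : C) : ℕ → Bool
  | 0 => false
  | r + 1 => xor (prx S c r) (S (c, r))

omit [DecidableEq C] [Inhabited C] in
theorem tconn_expand {bl : List (C × Bool)} (hm : ∀ c b b', (c, b) ∈ bl → (c, b') ∈ bl)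
    (h1 : ∀ β ∈ bl, 1 ≤ mult β.1) (S : C × ℕ → Bool) :
    TConn (expand mult fb bl) (fbx fb) S ↔ TConn bl fb (fun c => prx S c (mult c)) := by
  constructor
  · intro hc I O x y hT hR β hβ
    have key : ∀ l : List (C × Bool), (∀ β ∈ l, β ∈ bl) → ∀ x, Thr fb I O x l y →
        Thr (fbx fb) (fun s => I (s.1.1, xor s.2 (prx S s.1.1 s.1.2)))
          (fun s => I (s.1.1, xor s.2 (prx S s.1.1 (s.1.2 + 1)))) x (expand mult fb l) y := by
      intro l
      induction l with
      | nil => intro _ x h; exact h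
      | cons β l ih =>
        intro hl x h
        obtain ⟨c, b⟩ := β
        rw [expand, List.flatMap_cons, thr_append]
        refine ⟨_, ?_, ih (fun β hβ => hl β (by simp [hβ])) _ h.2⟩
        rw [thr_block]
        refine ⟨fun r => I (c, xor b (prx S c r)), fun r _ => ⟨rfl, rfl⟩, ?_, ?_⟩
        · rw [← h.1, lft, hR _ (hl _ (by simp))]; simp [prx]
        · rw [rgt, hR _ (hl _ (by simp))]; simp [prx]
    have := hc _ _ x y (key bl (fun _ h => h) x hT) (fun s _ => by
      simp only [prx, Bool.xor_assoc, Bool.xor_comm (S _)]) ((β.1, 0), β.2)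
      ((mem_expand mult fb).2 ⟨hβ, h1 β hβ⟩)
    simpa [prx] using this
  · intro hc I O x y hT hR s hs
    have key : ∀ l : List (C × Bool), (∀ β ∈ l, β ∈ bl) → ∀ x,
        Thr (fbx fb) I O x (expand mult fb l) y →
        Thr fb (fun β => I ((β.1, 0), β.2)) (fun β => O ((β.1, mult β.1 - 1), β.2)) x l y ∧
        ∀ β ∈ l, ∀ r, r + 1 < mult β.1 → O ((β.1, r), β.2) = I ((β.1, r + 1), β.2) := by
      intro l
      induction l with
      | nil => intro _ x h; exact ⟨h, by simp⟩
      | cons β l ih =>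
        intro hl x h
        obtain ⟨c, b⟩ := β
        rw [expand, List.flatMap_cons, thr_append] at h
        obtain ⟨z, h2, h3⟩ := h
        obtain ⟨i1, i2⟩ := ih (fun β hβ => hl β (by simp [hβ])) _ h3
        obtain ⟨u, u1, u2, u3⟩ := (thr_block mult fb I O c b x z).1 h2
        have hc1 : 1 ≤ mult c := h1 (c, b) (hl _ (by simp))
        have e1 := (u1 0 hc1).1
        have e2 := (u1 (mult c - 1) (by omega)).2
        rw [Nat.sub_add_cancel hc1] at e2
        refine ⟨⟨?_, ?_⟩, ?_⟩
        · rw [u2, lft, e1, e2]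
        · have : rgt fb (fun β => I ((β.1, 0), β.2)) (fun β => O ((β.1, mult β.1 - 1), β.2))
              (c, b) = z := by rw [u3, rgt, e1, e2]
          rw [this]; exact i1
        · intro β hβ r hr
          rcases List.mem_cons.1 hβ with rfl | hβ
          · rw [(u1 r (by simp at hr; omega)).2, (u1 (r + 1) hr).1]
          · exact i2 β hβ r hr
    obtain ⟨k1, k2⟩ := key bl (fun _ h => h) x hT
    have k3 : ∀ c, (c, false) ∈ bl → ∀ r < mult c, ∀ b,
        I ((c, r), b) = I ((c, 0), xor b (prx S c r)) := by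
      intro c hc r
      induction r with
      | zero => intro _ b; simp [prx]
      | succ r ih =>
        intro hr b
        rw [← k2 (c, b) (hm _ _ _ hc) r hr,
          hR _ ((mem_expand mult fb).2 ⟨hm _ _ _ hc, by simp only; omega⟩), ih (by omega)]
        simp only [prx, Bool.xor_assoc, Bool.xor_comm (S _)]
    have k4 := hc _ _ x y k1 (by
      rintro ⟨c, b⟩ hβ
      have hc1 : 1 ≤ mult c := h1 _ hβ
      simp only
      rw [hR _ ((mem_expand mult fb).2 ⟨hβ, by simp only; omega⟩),
        k3 c (hm _ _ _ hβ) _ (by omega)]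
      obtain ⟨m, hm⟩ : ∃ m, mult c = m + 1 := ⟨mult c - 1, by omega⟩
      simp only [hm, Nat.add_sub_cancel, prx, Bool.xor_assoc, Bool.xor_comm (S _)])
    obtain ⟨⟨c, r⟩, b⟩ := s
    rw [mem_expand] at hs
    rw [k3 c (hm _ _ _ hs.1) r hs.2]
    exact k4 (c, _) (hm _ _ _ hs.1)

omit [Inhabited C] in
theorem prx_eq (S : Finset (C × ℕ)) (c : C) (r : ℕ) :
    prx (fun k => decide (k ∈ S)) c r = ((S.filter (fun k => k.1 = c ∧ k.2 < r)).card).bodd := by
  induction r with
  | zero => simp [prx]
  | succ r ih =>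
    rw [prx, ih]
    by_cases h : (c, r) ∈ S
    · have : S.filter (fun k => k.1 = c ∧ k.2 < r + 1) =
          insert (c, r) (S.filter (fun k => k.1 = c ∧ k.2 < r)) := by
        ext ⟨c', r'⟩
        simp only [mem_filter, mem_insert, Prod.mk.injEq]
        constructor
        · rintro ⟨a1, rfl, a3⟩
          rcases Nat.lt_succ_iff_lt_or_eq.1 a3 with a | rfl
          · exact Or.inr ⟨a1, rfl, a⟩
          · exact Or.inl ⟨rfl, rfl⟩
        · rintro (⟨rfl, rfl⟩ | ⟨a1, a2, a3⟩)
          · exact ⟨h, rfl, by omega⟩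
          · exact ⟨a1, a2, by omega⟩
      rw [this, card_insert_of_notMem (by simp)]
      simp [h]
    · have : S.filter (fun k => k.1 = c ∧ k.2 < r + 1) = S.filter (fun k => k.1 = c ∧ k.2 < r) := by
        refine filter_congr (fun ⟨c', r'⟩ hk => ?_)
        simp only [and_congr_right_iff]
        rintro rfl
        have : r' ≠ r := by rintro rfl; exact h hk
        omega
      rw [this]; simp [h]

omit [Inhabited C] in
theorem count_map_fst (S : Finset (C × ℕ)) (c : C) :
    (S.val.map Prod.fst).count c = (S.filter (fun k => k.1 = c)).card := by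
  rw [Multiset.count_map]
  simp only [eq_comm (a := c)]
  rfl

omit [DecidableEq C] [Inhabited C] in
theorem tconn_congr {κ : Type} {sl : List (κ × Bool)} {fp : κ × Bool → Bool} {S S' : κ → Bool}
    (h : ∀ s ∈ sl, S s.1 = S' s.1) : TConn sl fp S ↔ TConn sl fp S' := by
  unfold TConn
  refine forall₄_congr (fun I O x y => imp_congr_right (fun _ => imp_congr_left ?_))
  exact forall₂_congr (fun s hs => by rw [h s hs])

/-- The genome in which all chords are pressed. -/
def genome (bl : List (C × Bool)) : List ℤ :=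
  trav ((expand mult fb bl).length - 1) (RS (expand mult fb bl) (fbx fb) (fun _ => true))

theorem genome_spec {bl : List (C × Bool)} (hnd : bl.Nodup)
    (hm : ∀ c b b', (c, b) ∈ bl → (c, b') ∈ bl) (h1 : ∀ β ∈ bl, 1 ≤ mult β.1) (hne : bl ≠ [])
    (M : Multiset C) (hM : ∀ c, M.count c = if (c, false) ∈ bl then mult c else 0)
    (hpos : 0 < V (fun t => TConn bl fb (par t)) 0 M) :
    IsSP (genome mult fb bl) ∧ (Opt (genome mult fb bl)).Finite ∧
    ∀ (ok : List ℤ → Prop) (ok2 : Multiset C → Prop),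
      (∀ t ≤ M, ∀ γ : List ℤ, (∀ c, (c, false) ∈ bl → mult c = 1 →
        (slotOf (pt (expand mult fb bl) (fbx fb) (((c, 0), false), false)) ∈ Brk γ ↔ c ∈ t)) →
        (ok γ ↔ ok2 t)) →
      {s | s ∈ Opt (genome mult fb bl) ∧ ∀ γ ∈ List.scanl rev (genome mult fb bl) s, ok γ}.ncard =
        fac M * V (fun t => TConn bl fb (par t) ∧ ok2 t) 0 M := by
  classical
  set sl := expand mult fb bl with hsl
  set n := sl.length - 1 with hn
  have hwf : WF sl n := by
    refine ⟨nodup_expand mult fb hnd, ?_, ?_⟩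
    · obtain ⟨β, hβ⟩ := List.exists_mem_of_ne_nil _ hne
      have : ((β.1, 0), β.2) ∈ sl := (mem_expand mult fb).2 ⟨hβ, h1 β hβ⟩
      have := List.length_pos_of_mem this
      omega
    · intro k b b' h
      rw [hsl, mem_expand] at h ⊢
      exact ⟨hm _ _ _ h.1, h.2⟩
  let S0 : Finset (C × ℕ) := sl.toFinset.image Prod.fst
  have mS0 : ∀ k, k ∈ S0 ↔ (k, false) ∈ sl := by
    intro k
    simp only [S0, mem_image, List.mem_toFinset]
    exact ⟨fun ⟨s, h, e⟩ => hwf.mate _ s.2 _ (e ▸ h), fun h => ⟨_, h, rfl⟩⟩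
  have hM0 : S0.val.map Prod.fst = M := by
    ext c
    rw [count_map_fst, hM]
    split_ifs with hc
    · conv_rhs => rw [← card_range (mult c)]
      refine card_nbij Prod.snd ?_ ?_ ?_
      · rintro ⟨c', r⟩ h
        simp only [coe_filter, mS0, hsl, mem_expand, Set.mem_setOf_eq] at h
        obtain ⟨⟨-, h⟩, rfl⟩ := h
        simpa using h
      · rintro ⟨c', r⟩ h ⟨c'', r'⟩ h' e
        simp only [coe_filter, Set.mem_setOf_eq] at h h' e
        rw [h.2, h'.2, e]
      · intro r hr
        refine ⟨(c, r), ?_, rfl⟩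
        simp only [coe_filter, mS0, hsl, mem_expand, Set.mem_setOf_eq]
        exact ⟨⟨hc, by simpa using hr⟩, trivial⟩
    · rw [card_eq_zero, filter_eq_empty_iff]
      rintro ⟨c', r⟩ h rfl
      rw [mS0, hsl, mem_expand] at h
      exact hc h.1
  have hfe : ∀ S ⊆ S0, TConn sl (fbx fb) (fun k => decide (k ∈ S)) ↔
      TConn bl fb (par (S.val.map Prod.fst)) := by
    intro S hS
    rw [hsl, tconn_expand mult fb hm h1]
    refine tconn_congr (fun β _ => ?_)
    rw [prx_eq, par, count_map_fst]
    congr 2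
    refine filter_congr (fun k hk => ?_)
    have := (mS0 k).1 (hS hk)
    rw [hsl, mem_expand] at this
    simp only [and_iff_left_iff_imp]
    intro e; rw [← e]; exact this.2
  have htop : TConn bl fb (par M) := by
    obtain ⟨l, hl⟩ := card_pos.1 hpos
    rw [mem_filter, mem_wds] at hl
    have := hl.2.top
    rwa [add_zero, hl.1] at this
  have hR : ∀ p, Pt n p → RS sl (fbx fb) (fun _ => true) p =
      RS sl (fbx fb) (fun k => decide (k ∈ S0)) p := by
    intro p hp
    have : (unpt sl (fbx fb) p).1.1 ∈ S0 :=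
      (mS0 _).2 (hwf.mate _ (unpt sl (fbx fb) p).1.2 false (hwf.unpt_mem (fbx fb) hp))
    simp [RS, adj, this]
  have hr0 : Real (genome mult fb bl) (RS sl (fbx fb) (fun _ => true)) := by
    refine hwf.real_trav _ _ ((conn_iff _ hwf _).2 ?_)
    rw [← hM0, ← hfe S0 Subset.rfl] at htop
    refine (tconn_congr (fun s hs => ?_)).1 htop
    simpa using (mS0 _).2 (hwf.mate _ s.2 false hs)
  have hlen : (genome mult fb bl).length = n := by simp [genome, trav, hn, hsl]
  have hr : Real (genome mult fb bl) (RS sl (fbx fb) (fun k => decide (k ∈ S0))) := by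
    refine ⟨hr0.1, fun k hk => ?_⟩
    rw [← hR _ (hlen ▸ hr0.1.pt_left hk), ← hR _ (hlen ▸ hr0.1.pt_right hk)]
    exact hr0.2 k hk
  have hS0 : ∀ k ∈ S0, (k, false) ∈ sl := fun k hk => (mS0 k).1 hk
  have hne' : (seqs (fun _ => True) n S0.card (genome mult fb bl)).Nonempty := by
    rw [← card_pos, card_seqs (fbx fb) hwf Prod.fst (fun t => TConn bl fb (par t)) (fun _ => True) _ S0 hS0 hfe
      (fun _ _ _ _ _ => Iff.rfl) _ S0 Subset.rfl rfl _ hlen hr, hM0]
    simp only [and_true]
    exact Nat.mul_pos (fac_pos _) hpos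
  refine ⟨hr.1, ?_, fun ok ok2 hok => ?_⟩
  · have := opt_eq_seqs (fbx fb) hwf hS0 hlen hr hne' (fun _ => True)
    simp only [implies_true, and_true, Set.setOf_mem_eq] at this
    rw [this]; exact finite_toSet _
  · rw [opt_eq_seqs (fbx fb) hwf hS0 hlen hr hne' ok, Set.ncard_coe_finset,
      card_seqs (fbx fb) hwf Prod.fst (fun t => TConn bl fb (par t)) ok2 ok S0 hS0 hfe ?_ _ S0
        Subset.rfl rfl _ hlen hr, hM0]
    intro S hS γ hγ hrγ
    refine hok _ (hM0 ▸ Multiset.map_le_map (val_le_iff.2 hS)) γ (fun c hc hc1 => ?_)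
    have hmem : ((c, 0), false) ∈ sl := (mem_expand mult fb).2 ⟨hc, by simp [hc1]⟩
    have := mem_brk (fbx fb) hwf hγ hrγ (hwf.pt_pt (fbx fb) (x := (((c, 0), false), false)) hmem)
    rw [WF.unpt_pt _ hmem] at this
    rw [this]
    simp only [decide_eq_true_eq, Multiset.mem_map, mem_val, Prod.exists, exists_and_right,
      exists_eq_right]
    refine ⟨fun h => ⟨0, h⟩, fun ⟨r, h⟩ => ?_⟩
    have := (mS0 _).1 (hS h)
    rw [hsl, mem_expand] at this
    have e : r = 0 := by have := this.2; simp only [hc1] at this; omega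
    rwa [e] at h

end Pool.Agent.MP_f00251_lc

end MrgPart3

-- marker of a merged file
example : 731051 + 302472 = 731051 + 302472 := rfl
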