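import Pool.Agent.MP_f00251_lc.Defs
import Pool.Agent.Lib.helper82.CookLevin

/-!
Interfaces between the parts of the proof.
-/

set_option autoImplicit false

namespace Pool.Agent.MP_f00251_lc

open Pool.Agent.PolyT

/-- The independent sets of the graph with vertices `0, …, n - 1` and edge list `E`. -/
def IS (n : ℕ) (E : List (ℕ × ℕ)) : Finset (Finset ℕ) :=
  (Finset.range n).powerset.filter (fun X => ∀ e ∈ E, ¬ (e.1 ∈ X ∧ e.2 ∈ X))

/-- A loopless graph without isolated vertices. -/
structure GoodG (n : ℕ) (E : List (ℕ × ℕ)) : Prop where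
  lt : ∀ e ∈ E, e.1 < n ∧ e.2 < n
  ne : ∀ e ∈ E, e.1 ≠ e.2
  cov : ∀ x < n, ∃ e ∈ E, e.1 = x ∨ e.2 = x

/-- Counting independent sets is hard, and a random independent set shows a witness. -/
def SourceStmt : Prop :=
  ∀ f : List Bool → ℕ, SharpP f →
    ∃ (U : List Bool → List ℕ) (E : List Bool → List (ℕ × ℕ)) (h : List Bool × ℕ → ℕ)
      (acc : List Bool × List ℕ → Bool), Poly U ∧ Poly E ∧ Poly h ∧ Poly acc ∧
      ∀ x, GoodG (U x).length (E x) ∧ f x = h (x, (IS (U x).length (E x)).card) ∧
        (∀ X : List ℕ, acc (x, X) = true → 0 < f x) ∧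
        (0 < f x → 15 * (IS (U x).length (E x)).card ≤
          16 * ((IS (U x).length (E x)).filter (fun X =>
            acc (x, (List.range (U x).length).filter (fun i => decide (i ∈ X))) = true)).card)

/-- Membership in the counting class. -/
def MemberStmt : Prop := SharpP numOpt

end Pool.Agent.MP_f00251_lc
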