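import Pool.Agent.MP_f00251_lc.Logic
import Pool.Agent.MP_f00251_lc.Src.Graph

-- ======== part 0: formerly Pool.Agent.MP_f00251_lc.States
section MrgPart0

/-!
States of the chord system attached to a graph.
-/

set_option autoImplicit false

namespace Pool.Agent.MP_f00251_lc

open Function Equiv

/-- Parities of the crossings. -/
def od (t : Multiset CL) (l : Lt) : Bool := par t (.cr l)

/-- Parities of the windows. -/
def qp (t : Multiset CL) (j : ℕ) : Bool := par t (.win j)

/-- Parities of the links. -/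
def TT (t : Multiset CL) (w : Wr) : Bool := par t (.lnk w)

theorem par_cons (c : CL) (t : Multiset CL) : par (c ::ₘ t) = tog (par t) c := by
  funext d
  by_cases h : d = c
  · subst h; simp [par, tog]
  · simp [par, tog, h]

namespace Gr

variable (G : Gr)

/-- Feasible states. -/
def fe (θ : Bool) (t : Multiset CL) : Prop := TConn (G.bl θ) fbm (par t)

/-- Good states. -/
def good (θ : Bool) (t : Multiset CL) : Prop :=
  Good (pm (od t) (G.L0 θ)) G.secs G.post (qp t) (od t)

/-- Good states at which the window `j` is open. -/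
def win (θ : Bool) (j : ℕ) (t : Multiset CL) : Prop := G.good θ t ∧ (G.sec j).conn (od t)

/-- The links. -/
def Lks : Finset CL := (G.ws.map Cl.lnk).toFinset

/-- All chords. -/
def M (p r : ℕ) : Multiset CL :=
  (G.Xl : Multiset CL) + (G.J * (2 * G.sz ^ r) + (G.Xl : Multiset CL).card) • G.Lks.val +
    (2 * G.sz ^ p) • (Multiset.range G.J).map Cl.win

/-- States which follow the schedule of the choice `a`. -/
def Reg (a : ℕ → Bool) (t : Multiset CL) : Prop :=
  ∃ i, ∀ l, G.Val l → (G.st a l + 4 ≤ 4 * i → t.count (.cr l) = l.ml) ∧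
    (4 * i < G.st a l → t.count (.cr l) = 0)

/-- Feasible states which follow the schedule. -/
def Can (θ : Bool) (a : ℕ → Bool) (t : Multiset CL) : Prop := G.fe θ t ∧ G.Reg a t

variable {G}

theorem mem_Lks {c : CL} : c ∈ G.Lks ↔ ∃ w ∈ G.ws, c = .lnk w := by
  simp [Lks, eq_comm]

theorem card_Lks : G.Lks.card = G.ws.length := by
  rw [Lks, List.toFinset_card_of_nodup (G.nodup_ws.map (fun a b e => by simpa using e)),
    List.length_map]

theorem count_Xl (c : CL) : (G.Xl : Multiset CL).count c =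
    match c with
    | .cr l => if G.Val l then l.ml else 0
    | _ => 0 := by
  have key : ∀ L : List Cr, (L.map Prod.fst).Nodup → ∀ c : CL,
      (L.flatMap (fun c => List.replicate c.1.ml (Cl.cr c.1 : CL))).count c =
      match c with
      | .cr l => if l ∈ L.map Prod.fst then l.ml else 0
      | _ => 0 := by
    intro L hL c
    induction L with
    | nil => cases c <;> simp
    | cons d L ih =>
      rw [List.map_cons, List.nodup_cons] at hL
      rw [List.flatMap_cons, List.count_append, ih hL.2, List.count_replicate]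
      cases c with
      | lnk w => simp
      | win j => simp
      | cr l =>
        by_cases e : d.1 = l
        · subst e
          simp only [beq_self_eq_true, if_true, if_neg hL.1]
          simp
        · simp only [List.map_cons, List.mem_cons, Ne.symm e, false_or]
          simp [e]
  rw [Multiset.coe_count, Xl, key _ (G.nodup_allcr false)]
  cases c with
  | lnk w => rfl
  | win j => rfl
  | cr l =>
    have : l ∈ (G.allcr false).map Prod.fst ↔ G.Val l := by
      simp only [List.mem_map, mem_allcr]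
      exact ⟨by rintro ⟨c, h, rfl⟩; exact h.1, fun h => ⟨(l, G.wr l), ⟨h, rfl⟩, rfl⟩⟩
    simp only [this]

theorem count_Lks (c : CL) : G.Lks.val.count c = if c ∈ G.Lks then 1 else 0 :=
  Multiset.count_eq_of_nodup G.Lks.nodup

theorem count_wins (N : ℕ) (c : CL) : ((Multiset.range N).map (Cl.win : ℕ → CL)).count c =
    if ∃ j < N, c = .win j then 1 else 0 := by
  rw [Multiset.count_eq_of_nodup ((Multiset.nodup_range N).map (fun a b e => by simpa using e))]
  simp [eq_comm]

theorem count_M_cr (p r : ℕ) (l : Lt) :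
    (G.M p r).count (.cr l) = if G.Val l then l.ml else 0 := by
  simp only [M, Multiset.count_add, Multiset.count_nsmul, count_Xl, count_Lks, count_wins, mem_Lks]
  simp

theorem count_M_lnk (p r : ℕ) (w : Wr) : (G.M p r).count (.lnk w) =
    if w ∈ G.ws then G.J * (2 * G.sz ^ r) + G.Xl.length else 0 := by
  simp only [M, Multiset.count_add, Multiset.count_nsmul, count_Xl, count_Lks, count_wins, mem_Lks]
  simp

theorem count_M_win (p r : ℕ) (j : ℕ) :
    (G.M p r).count (.win j) = if j < G.J then 2 * G.sz ^ p else 0 := by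
  simp only [M, Multiset.count_add, Multiset.count_nsmul, count_Xl, count_Lks, count_wins, mem_Lks]
  simp

theorem pm_L0 (θ : Bool) (o : Lt → Bool) :
    pm o (G.L0 θ) = sIf (o (.rho 0)) (.m 0) (.m 1) * pm o (G.Lw θ) := by
  rw [L0, pm_append, pm_cons, pm_nil, one_mul]; rfl

theorem good_iff {θ : Bool} {t : Multiset CL} : G.good θ t ↔
    G.Bp (od t) * pm (od t) (G.Lw θ) = 1 ∧ ∀ j < G.J, qp t j = true → (G.sec j).conn (od t) := by
  rw [good, Good, pm_L0, Bp, mul_assoc]
  refine and_congr_right (fun _ => ⟨fun h j hj => h _ (mem_secs.2 ⟨j, hj, rfl⟩), fun h σ hσ => ?_⟩)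
  obtain ⟨j, hj, rfl⟩ := mem_secs.1 hσ
  exact h j hj

theorem pm_allcr (θ : Bool) (o : Lt → Bool) :
    pm o (G.allcr θ) = G.Bp o * pm o (G.Lw θ) := by
  rw [allcr, pm_append, pm_L0, Bp, mul_assoc]

variable (hG : GoodG G.n G.E)
include hG

theorem fe_iff {θ : Bool} {t : Multiset CL} : G.fe θ t ↔
    MConn G.ws (pm (od t) (G.L0 θ)) (word G.secs G.post) (TT t) (qp t) (od t) := by
  rw [fe, bl, tconn_iff (wfm hG θ), wd, mconn_xs]; rfl

theorem L0_symm_mem (θ : Bool) (o : Lt → Bool) {w : Wr} (hw : w ∈ G.ws) :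
    (pm o (G.L0 θ)).symm w ∈ G.ws :=
  pm_symm_mem (A := (· ∈ G.ws)) (fun c hc => by
    have := allcr_mem hG (θ := θ) (List.mem_append_left _ hc)
    exact ⟨this.1, this.2.1⟩) hw

theorem fe_of_good {θ : Bool} {t : Multiset CL} (h : G.good θ t) : G.fe θ t :=
  (fe_iff hG).2 (mconn_of_good (inside hG) (fun _ hw => L0_symm_mem hG θ _ hw) h)

theorem fe_of_swap {θ : Bool} {t : Multiset CL} (hq : ∀ j < G.J, qp t j = false) {u w : Wr}
    (hu : u ∈ G.ws) (hw : w ∈ G.ws) (hT : TT t u ≠ TT t w)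
    (h : pm (od t) (G.allcr θ) = swap u w) : G.fe θ t := by
  refine (fe_iff hG).2 (mconn_of_swap G.nodup_ws (inside hG) (fun _ hw => L0_symm_mem hG θ _ hw)
    (fun σ hσ => ?_) hu hw hT (by rwa [allcr, pm_append] at h))
  obtain ⟨j, hj, rfl⟩ := mem_secs.1 hσ
  exact hq j hj

end Gr

/-- The number of scheduled words does not depend on the admissible choice. -/
def IsoStmt : Prop :=
  ∀ G : Gr, GoodG G.n G.E → ∀ (p r : ℕ) (θ θ' : Bool) (a a' : ℕ → Bool), G.valid θ a →
    G.valid θ' a' → V (G.Can θ a) 0 (G.M p r) ≤ V (G.Can θ' a') 0 (G.M p r)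

/-- There are many scheduled words. -/
def SkelStmt : Prop :=
  ∀ G : Gr, GoodG G.n G.E → ∀ p r : ℕ,
    (G.Lks.card * (2 * G.sz ^ r) + 2 * G.sz ^ p).factorial ^ G.J ≤
      ((2 * G.sz ^ r).factorial ^ G.Lks.card * (2 * G.sz ^ p).factorial) ^ G.J *
        V (G.Can false (fun _ => false)) 0 (G.M p r)

end Pool.Agent.MP_f00251_lc

end MrgPart0

-- ======== part 1: formerly Pool.Agent.MP_f00251_lc.Canon
section MrgPart1

/-!
Words which visit all windows follow a schedule.
-/

set_option autoImplicit false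

namespace Pool.Agent.MP_f00251_lc

open Function Equiv

theorem od_lnk (w : Wr) (t : Multiset CL) : od (.lnk w ::ₘ t) = od t := by
  funext l; simp [od, par]

theorem od_win (j : ℕ) (t : Multiset CL) : od (.win j ::ₘ t) = od t := by
  funext l; simp [od, par]

theorem qp_lnk (w : Wr) (t : Multiset CL) : qp (.lnk w ::ₘ t) = qp t := by
  funext l; simp [qp, par]

theorem exists_suffix_one {C : Type} [DecidableEq C] (c d : C) (hcd : c ≠ d) (l : List C)
    (h : 1 ≤ l.count c + l.count d) : ∃ l', l' <:+ l ∧ l'.count c + l'.count d = 1 := by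
  induction l with
  | nil => simp at h
  | cons e l ih =>
    by_cases h1 : 1 ≤ l.count c + l.count d
    · obtain ⟨l', a1, a2⟩ := ih h1
      exact ⟨l', a1.trans (List.suffix_cons _ _), a2⟩
    · refine ⟨e :: l, List.suffix_refl _, ?_⟩
      simp only [List.count_cons, beq_iff_eq] at h ⊢
      by_cases e1 : e = c
      · subst e1; simp [hcd]; omega
      · simp only [e1, if_false] at h ⊢
        split_ifs at h ⊢ <;> omega

namespace Gr

variable {G : Gr}

theorem glink {θ : Bool} {t : Multiset CL} {c : CL} (hc : c ∈ G.Lks) (h : G.good θ (c ::ₘ t)) :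
    G.good θ t := by
  obtain ⟨w, -, rfl⟩ := mem_Lks.1 hc
  rwa [good, od_lnk, qp_lnk] at h

theorem gq {θ : Bool} {t : Multiset CL} {j : ℕ} (hj : j < G.J) (h : G.good θ t)
    (h' : G.good θ (.win j ::ₘ t)) : G.win θ j t := by
  refine ⟨h, ?_⟩
  cases hq : qp t j
  · have := (good_iff.1 h').2 j hj (by
      rw [qp, par_cons]; simpa [tog, qp] using hq)
    rwa [od_win] at this
  · exact (good_iff.1 h).2 j hj hq

theorem good_zero (θ : Bool) : G.good θ 0 := by
  refine ⟨?_, fun σ _ h => by simp [qp, par] at h⟩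
  rw [pm_eq_one (fun _ _ => by simp [od, par]), pm_eq_one (fun _ _ => by simp [od, par]), mul_one]

theorem Lw_m (θ : Bool) (o : Lt → Bool) (j : ℕ) : pm o (G.Lw θ) (.m j) = .m j := by
  refine pm_fix (fun c hc _ => ?_)
  obtain ⟨-, h1, h2⟩ := G.mem_Lw.1 hc
  rw [h1]
  revert h2
  cases c.1 <;> simp [isL, wr, leaf]
  split_ifs <;> simp

theorem Lw_a (θ : Bool) (o : Lt → Bool) {j : ℕ} (hj : j % 2 = 0) :
    pm o (G.Lw θ) (.a j) = .a j := by
  refine pm_fix (fun c hc _ => ?_)
  obtain ⟨h0, h1, h2⟩ := G.mem_Lw.1 hc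
  rw [h1]
  revert h2 h0
  cases c.1 <;> simp [isL, wr, Val, leaf_ne]
  intro _ h
  have := G.has_odd h
  omega

theorem Bp_y (o : Lt → Bool) (x : ℕ) (v : Bool) : G.Bp o (.y x v) = .y x v := by
  rw [Bp, Perm.mul_apply, sIf_fix (fun _ => by simp)]
  refine pm_fix (fun c hc _ => ?_)
  obtain ⟨-, h1, h2, -⟩ := G.mem_crs.1 hc
  rw [h1]
  revert h2
  cases c.1 <;> simp [isL, wr, aC, sv, aP] <;> split_ifs <;> simp

theorem st_le (a : ℕ → Bool) {l : Lt} (hl : G.Val l) : G.st a l ≤ G.J := by
  have hq := G.q_eq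
  have hJ := G.J_eq
  cases l <;> simp only [Val] at hl <;> simp only [st] <;> (try split_ifs) <;> omega

theorem count_le {p r : ℕ} {t : Multiset CL} (ht : t ≤ G.M p r) (l : Lt) :
    t.count (.cr l) ≤ l.ml := by
  have := Multiset.count_le_of_le (.cr l) ht
  rw [count_M_cr] at this
  split_ifs at this <;> omega

variable (hG : GoodG G.n G.E)
include hG

theorem kill {θ : Bool} {t : Multiset CL} (h0 : G.fe θ t) (h1 : ∀ i ∈ G.Lks, G.fe θ (i ::ₘ t))
    (h2 : ∀ i ∈ G.Lks, ∀ i' ∈ G.Lks, i ≠ i' → G.fe θ (i' ::ₘ i ::ₘ t)) : G.good θ t := by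
  have k := kill_labels (wfm hG θ) (par t) h0
    (fun i hi => by rw [← par_cons]; exact h1 _ (mem_Lks.2 ⟨i, hi, rfl⟩))
    (fun i hi j hj hij => by
      rw [← par_cons, ← par_cons]
      exact h2 _ (mem_Lks.2 ⟨i, hi, rfl⟩) _ (mem_Lks.2 ⟨j, hj, rfl⟩) (by simpa using hij))
  obtain ⟨g1, g2⟩ := good_of_labels (odd := od t) (qp := qp t) (inside hG) (pm (od t) (G.L0 θ))
    (fun _ hw => L0_symm_mem hG θ _ hw) (fun i hi => by
      obtain ⟨b, b', qi, qo, a1, a2, a3⟩ := k i hi
      exact ⟨b, b', qi, qo, a1, (run_xs _ _ _ _ _ _ _).1 a2, a3⟩)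
  refine ⟨?_, g2⟩
  rw [← pm_append] at g1 ⊢
  ext w
  by_cases hw : w ∈ G.ws
  · have := g1 w hw
    rw [symm_apply_eq] at this
    exact this.symm
  · refine pm_fix (fun c hc _ => ?_)
    have := allcr_mem hG (θ := θ) hc
    exact ⟨fun e => hw (e ▸ this.1), fun e => hw (e ▸ this.2.1)⟩

theorem win_clock {θ : Bool} {t : Multiset CL} {j : ℕ} (hj : j < G.J) (h : G.win θ j t) :
    (∀ i ≤ G.J, od t (.rho i) = decide (i ≤ j) ∧ od t (.rhp i) = decide (i ≤ j)) ∧
    ∀ i < G.J, od t (.del i) = decide (i ≤ j) ∧ od t (.dep i) = decide (i ≤ j) ∧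
      ∀ k, G.act k i = true → od t (.cm i k) = decide (i = j) :=
  clockStmt G hG (od t) _ (Lw_m θ _) (fun _ => Lw_a θ _) (good_iff.1 h.1).1 j hj h.2

theorem win_inj {θ : Bool} {t : Multiset CL} {i j : ℕ} (hi : i < G.J) (hj : j < G.J)
    (h : G.win θ i t) (h' : G.win θ j t) : i = j := by
  have a1 := ((win_clock hG hi h).1 i hi.le).1
  have a2 := ((win_clock hG hj h').1 i hi.le).1
  have a3 := ((win_clock hG hi h).1 j hj.le).1
  have a4 := ((win_clock hG hj h').1 j hj.le).1
  rw [a1] at a2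
  rw [a3] at a4
  simp at a2 a4
  omega

theorem winF {θ : Bool} {t : Multiset CL} {j : ℕ} (hj : j < G.J) (h : G.win θ j t) :
    G.WinF θ j (od t) := by
  obtain ⟨c1, c2⟩ := win_clock hG hj h
  have hP := (good_iff.1 h.1).1
  refine ⟨reg1_of_fix hG (θ := θ) (fun x v => (G.Bp (od t)).injective ?_), ?_, c1, c2⟩
  · rw [← Perm.mul_apply, hP, Bp_y]; rfl
  · have := prodStmt G hG (od t) (j + 1) (j + 1) le_rfl (by omega) hj
      (fun i hi => by simpa only [Nat.lt_succ_iff] using c1 i hi)
      (fun i hi => by simpa only [Nat.lt_succ_iff] using ⟨(c2 i hi).1, (c2 i hi).2.1⟩)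
      (fun i hi k hk ho => by
        rw [(c2 i hi).2.2 k hk] at ho
        simpa using ho)
    have e : ∀ k, (G.act k j && od t (.cm j k)) = G.act k j := fun k => by
      cases hk : G.act k j
      · rfl
      · simp [(c2 j hj).2.2 k hk]
    rw [Nat.add_sub_cancel, e, e] at this
    rw [eq_inv_of_mul_eq_one_right hP, this, mul_inv_rev]
    congr 1 <;> cases G.act _ j <;> simp

theorem good_M (θ : Bool) (p r : ℕ) : G.good θ (G.M p r) := by
  have ho : ∀ l, G.Val l → od (G.M p r) l = l.ml.bodd := fun l hl => by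
    simp [od, par, count_M_cr, hl]
  have hJ : G.J % 2 = 1 := by have := G.J_eq; have := G.q_eq; omega
  refine good_iff.2 ⟨?_, fun j hj h => ?_⟩
  · have h0 : ∀ g < G.q, ∀ k v, G.o (od (G.M p r)) k v g = false := fun g hg k v => by
      cases hk : G.has k g
      · simp [o, hk]
      · simp [o, ho (.alt k g v) ⟨hg, hk⟩, Lt.ml]
    have hR : G.Reg1 (od (G.M p r)) := ⟨fun x hx v => by rw [ho (.hh x v) hx, ho (.eta x v) hx]; rfl,
      fun k v g hg h => by simp [h0 g hg] at h⟩
    rw [hR.nf0 hG θ h0, prodStmt G hG _ (G.J + 1) G.J (by omega) le_rfl le_rfl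
      (fun i hi => by simp [ho (.rho i) hi, ho (.rhp i) hi, Lt.ml]; omega)
      (fun i hi => by simp [ho (.del i) hi, ho (.dep i) hi, Lt.ml, hi])
      (fun i hi k hk h => by simp [ho (.cm i k) ⟨hi, hk⟩, Lt.ml] at h),
      act_even (by omega), act_even (by omega)]
    simp
  · simp [qp, par, count_M_win, hj] at h

theorem cover {θ : Bool} {p r : ℕ} {l : List CL} (hl : (l : Multiset CL) = G.M p r)
    (hw : ∀ j < G.J, ∃ l', l' <:+ l ∧ G.win θ j l') :
    ∃ a, G.valid θ a ∧ ∀ l', l' <:+ l → G.Reg a l' := by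
  classical
  choose! s hs1 hs2 using hw
  have hb : ∀ l', l' <:+ l → ∀ x, (l' : Multiset CL).count (.cr x) ≤ x.ml := fun l' h =>
    count_le (hl ▸ coe_le_of_suffix h)
  have hm : ∀ {l1 l2 : List CL}, l1 <:+ l2 → ∀ x : Lt,
      (l1 : Multiset CL).count (.cr x) ≤ (l2 : Multiset CL).count (.cr x) := fun h x =>
    Multiset.count_le_of_le _ (coe_le_of_suffix h)
  have T : G.TL θ (fun j x => (s j : Multiset CL).count (.cr x)) := by
    refine ⟨hG, fun i j hij hj x => ?_, fun j hj => hb _ (hs1 j hj),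
      fun j hj => winF hG hj (hs2 j hj)⟩
    rcases Nat.eq_or_lt_of_le hij with rfl | hij
    · exact le_rfl
    have hi : i < G.J := by omega
    rcases List.suffix_or_suffix_of_suffix (hs1 i hi) (hs1 j hj) with h | h
    · exact hm h x
    · exfalso
      have a1 := ((win_clock hG hi (hs2 i hi)).1 j hj.le).1
      have a2 := ((win_clock hG hj (hs2 j hj)).1 j hj.le).1
      have a3 := hm h (.rho j)
      have a4 := hb _ (hs1 i hi) (.rho j)
      rw [decide_eq_false (by omega), od, par, bodd_eq'] at a1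
      rw [decide_eq_true le_rfl, od, par, bodd_eq] at a2
      simp only [Lt.ml] at a4
      omega
  refine ⟨T.a, T.valid_a, fun l' hl' => ?_⟩
  have hex : ∃ i, G.J ≤ 4 * i ∨ l' <:+ s (4 * i) := ⟨G.J, Or.inl (by omega)⟩
  refine ⟨Nat.find hex, fun x hx => ⟨fun h => ?_, fun h => ?_⟩⟩
  · have h1 := Nat.find_min hex (m := Nat.find hex - 1) (by omega)
    rw [not_or, not_le] at h1
    have h2 := (List.suffix_or_suffix_of_suffix hl' (hs1 _ h1.1)).resolve_left h1.2
    have h3 := T.timeline hx h1.1 (by omega)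
    rw [if_pos (by omega)] at h3
    have h4 := hm h2 x
    have h5 := hb _ hl' x
    omega
  · have h0 := st_le T.a hx
    have h1 := (Nat.find_spec hex).resolve_left (by omega)
    have h3 := T.timeline hx (j := 4 * Nat.find hex) (by omega) (by omega)
    rw [if_neg (by omega)] at h3
    have h4 := hm h1 x
    omega

theorem show_state {p r : ℕ} {l : List CL} (hl : (l : Multiset CL) = G.M p r) :
    ∃ l', l' <:+ l ∧ ∀ a, G.Reg a l' → ∀ x < G.n, (Cl.cr (.eta x true) ∈ l' ↔ a x = true) := by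
  have hq := G.q_eq
  have hJ := G.J_eq
  have v1 : G.Val (.rho (G.q + 1)) := by simp only [Val]; omega
  have v2 : G.Val (.rhp (G.q + 1)) := by simp only [Val]; omega
  obtain ⟨l', h1, h2⟩ := exists_suffix_one (Cl.cr (.rho (G.q + 1)) : CL) (.cr (.rhp (G.q + 1)))
    (by simp) l (by
      rw [← Multiset.coe_count, hl, count_M_cr, if_pos v1]; simp [Lt.ml])
  refine ⟨l', h1, ?_⟩
  rintro a ⟨i, hi⟩ x hx
  have b1 := hi _ v1
  have b2 := hi _ v2
  simp only [st, Lt.ml, Multiset.coe_count] at b1 b2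
  have e : i = G.e + G.n + 1 := by omega
  have he : 0 < G.e := by
    obtain ⟨c, hc, -⟩ := hG.cov x hx
    exact List.length_pos_of_mem hc
  have b3 := hi (.eta x true) hx
  clear b1 b2 hi h2
  rw [← List.count_pos_iff, ← Multiset.coe_count]
  simp only [st, Lt.ml] at b3
  cases h : a x
  · rw [b3.2 (by simp only [h]; rw [if_neg (by simp)]; omega)]; simp
  · rw [b3.1 (by simp only [h, if_true]; omega)]; simp

end Gr

end Pool.Agent.MP_f00251_lc

end MrgPart1

-- ======== part 2: formerly Pool.Agent.MP_f00251_lc.Skel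
section MrgPart2

/-!
There are many scheduled words.
-/

set_option autoImplicit false

namespace Pool.Agent.MP_f00251_lc

open Function Equiv

theorem V_pos_all {C : Type} [DecidableEq C] {ok : Multiset C → Prop} {s A : Multiset C}
    (h : ∀ t ≤ A, ok (t + s)) : 1 ≤ V ok s A := by
  have h1 := V_all ok s _ A rfl h
  have h2 := Nat.factorial_pos A.card
  rcases Nat.eq_zero_or_pos (V ok s A) with h0 | h0
  · rw [h0] at h1; omega
  · exact h0

theorem sIf_mul_self (b : Bool) (u v : Wr) : sIf b u v * sIf b u v = 1 := by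
  cases b
  · simp
  · simp

namespace Skel

/-- The constant choice. -/
def a0 : ℕ → Bool := fun _ => false

/-- The phase of the first use. -/
def ph : Lt → ℕ
  | .eta _ _ => 4
  | .hh _ _ => 4
  | .alt k _ _ => if k then 6 else 5
  | .rho _ => 2
  | .rhp _ => 2
  | .del _ => 3
  | .dep _ => 3
  | .cm _ k => if k then 6 else 5

/-- The two kinds of crossings. -/
def kind : Lt → Bool
  | .eta _ _ => false
  | .hh _ _ => true
  | .alt _ _ _ => false
  | .rho _ => false
  | .rhp _ => true
  | .del _ => false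
  | .dep _ => true
  | .cm _ _ => true

variable (G : Gr)

/-- The time of the first use. -/
def f1 (l : Lt) : ℕ := 8 * G.st a0 l + ph l

/-- The time of the second use. -/
def f2 (l : Lt) : ℕ := 8 * G.st a0 l + (14 - ph l)

/-- The crossing is used at the time `τ`. -/
def At (l : Lt) (τ : ℕ) : Prop := f1 G l = τ ∨ (l.ml = 2 ∧ f2 G l = τ)

instance (l : Lt) (τ : ℕ) : Decidable (At G l τ) := by unfold At; infer_instance

/-- The number of uses before the time `τ`. -/
def cnt (τ : ℕ) (l : Lt) : ℕ :=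
  (if f1 G l < τ then 1 else 0) + if l.ml = 2 ∧ f2 G l < τ then 1 else 0

/-- The crossings used at the time `τ`. -/
def Ll (τ : ℕ) : List Lt := ((G.allcr false).map Prod.fst).filter (fun l => decide (At G l τ))

/-- The chords used at the time `τ`. -/
def Lb (τ : ℕ) : Multiset CL := ((Ll G τ).map Cl.cr : List CL)

/-- The chords used before the time `τ`. -/
def X : ℕ → Multiset CL
  | 0 => 0
  | τ + 1 => Lb G τ + X τ

/-- The value asked for by a step. -/
def vl (b : ℕ) (k : Bool) : Bool :=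
  if k = true ∧ G.md b / 4 < G.e then decide (2 * G.q ≤ b) else decide (G.q ≤ b)

variable {G}

theorem st_alt (k : Bool) (g : ℕ) (v : Bool) : G.st a0 (.alt k g v) =
    g + (if k = true ∧ g / 4 < G.e then G.q else 0) + if v = true then G.q else 0 := by
  cases v <;> simp [Gr.st, a0]

theorem st_eta (x : ℕ) (v : Bool) :
    G.st a0 (.eta x v) = 4 * (G.e + x) + 2 + if v = true then G.q else 0 := by
  cases v <;> simp [Gr.st, a0]

theorem st_hh (x : ℕ) (v : Bool) :
    G.st a0 (.hh x v) = 4 * (G.e + x) + 2 + if v = true then G.q else 0 := st_eta x v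

theorem ph_bd (l : Lt) : 2 ≤ ph l ∧ ph l ≤ 6 := by
  cases l <;> simp only [ph] <;> (try split_ifs) <;> omega

theorem ml_cases (l : Lt) : l.ml = 1 ∨ (l.ml = 2 ∧ 5 ≤ ph l) := by
  cases l <;> simp only [ph, Lt.ml] <;> (try split_ifs) <;> simp

theorem mem_Ll {τ : ℕ} {l : Lt} : l ∈ Ll G τ ↔ G.Val l ∧ At G l τ := by
  simp only [Ll, List.mem_filter, List.mem_map, Gr.mem_allcr, decide_eq_true_eq]
  refine and_congr_left (fun _ => ?_)
  exact ⟨by rintro ⟨c, h, rfl⟩; exact h.1, fun h => ⟨(l, G.wr l), ⟨h, rfl⟩, rfl⟩⟩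

theorem nodup_Ll (τ : ℕ) : (Ll G τ).Nodup := (G.nodup_allcr false).filter _

theorem count_Lb (τ : ℕ) (c : CL) : (Lb G τ).count c =
    match c with
    | .cr l => if G.Val l ∧ At G l τ then 1 else 0
    | _ => 0 := by
  have hn : (Lb G τ).Nodup :=
    Multiset.coe_nodup.2 ((nodup_Ll τ).map (fun a b e => by simpa using e))
  rw [Multiset.count_eq_of_nodup hn]
  cases c <;> simp [Lb, mem_Ll]

theorem cnt_succ (τ : ℕ) (l : Lt) :
    cnt G (τ + 1) l = (if At G l τ then 1 else 0) + cnt G τ l := by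
  have h1 := ph_bd l
  have h2 : f1 G l < f2 G l := by unfold f1 f2; omega
  by_cases hA : At G l τ
  · rw [if_pos hA]
    unfold At at hA
    unfold cnt
    split_ifs <;> omega
  · rw [if_neg hA]
    unfold At at hA
    unfold cnt
    split_ifs <;> omega

theorem count_X (τ : ℕ) (c : CL) : (X G τ).count c =
    match c with
    | .cr l => if G.Val l then cnt G τ l else 0
    | _ => 0 := by
  induction τ with
  | zero => cases c <;> simp [X, cnt]
  | succ τ ih =>
    rw [X, Multiset.count_add, ih, count_Lb]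
    cases c with
    | lnk w => rfl
    | win j => rfl
    | cr l =>
      by_cases h : G.Val l
      · simp only [h, true_and, if_true, cnt_succ]
      · simp [h]

theorem alt_facts {k v : Bool} {g : ℕ} (hg : g < G.q) (hk : G.has k g = true) :
    G.st a0 (.alt k g v) < G.J ∧ G.md (G.st a0 (.alt k g v)) = g ∧
      G.act k (G.st a0 (.alt k g v)) = true ∧ v = vl G (G.st a0 (.alt k g v)) k := by
  have hq := G.q_eq
  have hJ := G.J_eq
  have ho := G.has_odd hk
  have hm : G.md (G.st a0 (.alt k g v)) = g := by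
    rw [st_alt, Gr.md]
    split_ifs <;> omega
  refine ⟨?_, hm, ?_, ?_⟩
  · rw [st_alt]
    split_ifs <;> omega
  · rw [Gr.act, hm, hk, st_alt]
    by_cases h : g / 4 < G.e
    · cases k <;> cases v <;> simp [h] <;> omega
    · simp [Nat.le_of_not_lt h]
  · rw [vl, hm, st_alt]
    by_cases h : g / 4 < G.e <;> cases k <;> cases v <;> simp [h] <;> omega

theorem alt_st {k : Bool} {b : ℕ} (hb : b < G.J) (hk : G.act k b = true) :
    G.st a0 (.alt k (G.md b) (vl G b k)) = b := by
  have hq := G.q_eq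
  have hJ := G.J_eq
  have ho := Gr.act_odd hk
  have hm : (b < G.q ∧ G.md b = b) ∨ (G.q ≤ b ∧ b < 2 * G.q ∧ G.md b + G.q = b) ∨
      (2 * G.q ≤ b ∧ G.md b + 2 * G.q = b) := by
    unfold Gr.md; split_ifs <;> omega
  rw [Gr.act, Bool.and_eq_true] at hk
  have h2 := hk.2
  clear hk
  rw [st_alt, vl]
  generalize G.md b = g at *
  by_cases h : g / 4 < G.e
  · have h' : ¬ G.e ≤ g / 4 := by omega
    cases k <;> simp [h, h'] at h2 ⊢ <;> split_ifs <;> omega
  · simp [h]
    split_ifs <;> omega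

theorem st_odd {l : Lt} (hl : G.Val l) (h : l.ml = 2) :
    G.st a0 l % 2 = 1 ∧ G.st a0 l < G.J := by
  cases l with
  | alt k g v =>
    have := alt_facts (v := v) hl.1 hl.2
    exact ⟨Gr.act_odd this.2.2.1, this.1⟩
  | cm j k => exact ⟨Gr.act_odd hl.2, hl.1⟩
  | _ => simp [Lt.ml] at h

theorem At_inj {l l' : Lt} {τ : ℕ} (hl : G.Val l) (hl' : G.Val l') (h : At G l τ)
    (h' : At G l' τ) (hk : kind l = kind l') : l = l' := by
  have key : G.st a0 l = G.st a0 l' ∧ ph l = ph l' := by
    have a1 := ph_bd l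
    have a2 := ph_bd l'
    have a3 := ml_cases l
    have a4 := ml_cases l'
    unfold At f1 f2 at h h'
    omega
  clear h h'
  obtain ⟨e1, e2⟩ := key
  have hq := G.q_eq
  have he : ∀ {x x' : ℕ} {v v' : Bool}, x < G.n → x' < G.n →
      G.st a0 (.eta x v) = G.st a0 (.eta x' v') → x = x' ∧ v = v' := by
    intro x x' v v' h1 h2
    rw [st_eta, st_eta]
    cases v <;> cases v' <;> simp <;> omega
  have hb : ∀ {k k' : Bool}, (if k then 6 else 5) = (if k' then 6 else 5) → k = k' := by
    intro k k'; cases k <;> cases k' <;> simp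
  cases l <;> cases l' <;> simp only [kind, ph, reduceCtorEq] at hk e2 <;>
    (try (exfalso; split_ifs at e2 <;> omega)) <;> (try (exfalso; omega))
  · obtain ⟨rfl, rfl⟩ := he hl hl' e1; rfl
  · obtain ⟨rfl, rfl⟩ := he hl hl' e1; rfl
  · rename_i k g v k' g' v'
    obtain rfl := hb e2
    obtain ⟨-, b1, -, b2⟩ := alt_facts (v := v) hl.1 hl.2
    obtain ⟨-, c1, -, c2⟩ := alt_facts (v := v') hl'.1 hl'.2
    rw [← e1] at c1 c2
    rw [← b2] at c2
    rw [b1] at c1
    rw [c1, c2]
  · simpa [Gr.st] using e1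
  · simpa [Gr.st] using e1
  · simpa [Gr.st] using e1
  · simpa [Gr.st] using e1
  · obtain rfl := hb e2
    simpa [Gr.st] using e1

theorem Ll_len (τ : ℕ) : (Ll G τ).length ≤ 2 := by
  have h : ((Ll G τ).map kind).Nodup :=
    (nodup_Ll τ).map_on (fun l hl l' hl' e =>
      At_inj (mem_Ll.1 hl).1 (mem_Ll.1 hl').1 (mem_Ll.1 hl).2 (mem_Ll.1 hl').2 e)
  have := h.length_le_card
  simpa using this

theorem Ll_win {τ : ℕ} (h : τ % 8 = 7) : Ll G τ = [] := by
  rw [List.eq_nil_iff_forall_not_mem]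
  intro l hl
  have h1 := (mem_Ll.1 hl).2
  have a1 := ph_bd l
  have a3 := ml_cases l
  unfold At f1 f2 at h1
  omega

theorem X_top : X G (8 * G.J + 3) = (G.Xl : Multiset CL) := by
  ext c
  rw [count_X, Gr.count_Xl]
  cases c with
  | lnk w => rfl
  | win j => rfl
  | cr l =>
    by_cases hl : G.Val l
    · simp only [hl, if_true]
      have a1 := ph_bd l
      have h1 : f1 G l < 8 * G.J + 3 := by
        have hq := G.q_eq
        have hJ := G.J_eq
        cases l with
        | alt k g v =>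
          have := (st_odd hl rfl).2
          unfold f1; omega
        | cm j k =>
          have := (st_odd hl rfl).2
          unfold f1; omega
        | _ => simp only [Gr.Val] at hl; simp only [f1, ph, Gr.st]; (try split_ifs) <;> omega
      rcases ml_cases l with h | ⟨h, h5⟩
      · simp [cnt, h1, h]
      · have := (st_odd hl h).2
        have h2 : f2 G l < 8 * G.J + 3 := by unfold f2; omega
        simp [cnt, h1, h, h2]
    · simp [hl]

theorem reg_of {τ : ℕ} {t : Multiset CL}
    (h : ∀ l, G.Val l → cnt G τ l ≤ t.count (.cr l) ∧ t.count (.cr l) ≤ cnt G (τ + 1) l) :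
    G.Reg a0 t := by
  refine ⟨(τ + 24) / 32, fun l hl => ?_⟩
  obtain ⟨h1, h2⟩ := h l hl
  have a1 := ph_bd l
  have a3 := ml_cases l
  have a4 := st_odd hl
  generalize t.count (.cr l) = c at *
  unfold cnt f1 f2 at h1 h2
  generalize G.st a0 l = s at *
  constructor
  · intro hs
    have : 8 * s + 8 ≤ τ := by omega
    rcases a3 with a3 | ⟨a3, a5⟩
    · simp only [a3] at h1 h2 ⊢
      rw [if_pos (by omega), if_neg (by omega)] at h1 h2
      omega
    · have := (a4 a3).1
      simp only [a3] at h1 h2 ⊢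
      rw [if_pos (by omega), if_pos ⟨trivial, by omega⟩] at h1 h2
      omega
  · intro hs
    rw [if_neg (by omega), if_neg (by omega)] at h2
    omega

theorem bodd_one {τ : ℕ} {l : Lt} (h : l.ml = 1) : (cnt G τ l).bodd = decide (f1 G l < τ) := by
  unfold cnt
  by_cases h1 : f1 G l < τ <;> simp [h, h1]

theorem bodd_two {τ : ℕ} {l : Lt} (h : l.ml = 2) :
    (cnt G τ l).bodd = decide (f1 G l < τ ∧ τ ≤ f2 G l) := by
  have h1 := ph_bd l
  have h2 : f1 G l < f2 G l := by unfold f1 f2; omega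
  unfold cnt
  by_cases h1 : f1 G l < τ <;> by_cases h3 : f2 G l < τ <;> simp [h, h1, h3] <;> omega

theorem perm_one (hG : GoodG G.n G.E) {τ : ℕ} (hτ : τ ≤ 8 * G.J + 3) {o : Lt → Bool}
    (ho : ∀ l, G.Val l → o l = (cnt G τ l).bodd) : G.Bp o * pm o (G.Lw false) = 1 := by
  have hq := G.q_eq
  have hJ := G.J_eq
  have o1 : ∀ l, G.Val l → l.ml = 1 → o l = decide (f1 G l < τ) := fun l hl h => by
    rw [ho l hl, bodd_one h]
  have o2 : ∀ l, G.Val l → l.ml = 2 → o l = decide (f1 G l < τ ∧ τ ≤ f2 G l) := fun l hl h => by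
    rw [ho l hl, bodd_two h]
  have o3 : ∀ l, G.Val l → l.ml = 2 → o l = true →
      G.st a0 l + 1 = (τ + 4) / 8 ∧ (τ + 5) / 8 = (τ + 4) / 8 := fun l hl h h1 => by
    rw [o2 l hl h, decide_eq_true_eq] at h1
    have a1 := ph_bd l
    have a3 := ml_cases l
    unfold f1 f2 at h1
    omega
  have hB := prodStmt G hG o ((τ + 5) / 8) ((τ + 4) / 8) (by omega) (by omega) (by omega)
    (fun i hi => by
      rw [o1 (.rho i) hi rfl, o1 (.rhp i) hi rfl]
      exact ⟨decide_eq_decide.2 (by simp only [f1, Gr.st, ph]; omega),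
        decide_eq_decide.2 (by simp only [f1, Gr.st, ph]; omega)⟩)
    (fun i hi => by
      rw [o1 (.del i) hi rfl, o1 (.dep i) hi rfl]
      exact ⟨decide_eq_decide.2 (by simp only [f1, Gr.st, ph]; omega),
        decide_eq_decide.2 (by simp only [f1, Gr.st, ph]; omega)⟩)
    (fun i hi k hk h => o3 (.cm i k) ⟨hi, hk⟩ rfl h)
  have hR : G.Reg1 o := by
    refine ⟨fun x hx v => by rw [o1 (.hh x v) hx rfl, o1 (.eta x v) hx rfl]; rfl,
      fun k v g hg h => ?_⟩
    have hk := Gr.o_has h
    have h1 : o (.alt k g v) = true := by simpa [Gr.o, hk] using h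
    have hx := Gr.xv_lt hG (k := k) hg
    rw [o2 (.alt k g v) ⟨hg, hk⟩ rfl, decide_eq_true_eq] at h1
    rw [o1 (.eta _ v) hx rfl]
    clear hB o1 o2 o3 ho h
    simp only [f1, f2, st_alt, st_eta, ph] at h1 ⊢
    by_cases g1 : g / 4 < G.e
    · generalize G.xv k g = x at *
      cases k <;> cases v <;> simp [g1] at h1 ⊢ <;> omega
    · have g2 := Gr.has_V hk g1
      rw [Gr.xv_V g1] at hx ⊢
      cases k <;> cases v <;> simp [g1] at h1 g2 ⊢ <;> omega
  obtain ⟨b, hb⟩ : ∃ b, b = (τ + 4) / 8 - 1 := ⟨_, rfl⟩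
  have hbJ : b < G.J := by omega
  rw [← hb] at hB
  have o4 : ∀ g < G.q, ∀ k v, G.o o k v g = true →
      G.md b = g ∧ G.act k b = true ∧ v = vl G b k := by
    intro g hg k v h
    have hk := Gr.o_has h
    have h1 : o (.alt k g v) = true := by simpa [Gr.o, hk] using h
    have h2 := (o3 (.alt k g v) ⟨hg, hk⟩ rfl h1).1
    have h3 := (alt_facts (v := v) hg hk).2
    rwa [show G.st a0 (.alt k g v) = b by omega] at h3
  by_cases hb2 : b % 2 = 0
  · rw [hB, Gr.act_even hb2, Gr.act_even hb2, hR.nf0 hG false (fun g hg k v => by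
      by_contra hc
      have := (o4 g hg k v (by simpa using hc)).2.1
      rw [Gr.act_even hb2] at this
      simp at this)]
    simp
  have hb1 : b % 2 = 1 := by omega
  have hg := Gr.md_lt hG hbJ hb1
  have o5 : ∀ k, G.o o k (vl G b k) (G.md b) = (G.act k b && o (.cm b k)) := by
    intro k
    cases hk : G.act k b
    · by_contra hc
      have := (o4 _ hg k _ (by simpa using hc)).2.1
      simp [hk] at this
    · have h1 := Gr.act_has hk
      rw [Gr.o, h1, o2 (.alt k _ _) ⟨hg, h1⟩ rfl, o2 (.cm b k) ⟨hbJ, hk⟩ rfl]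
      simp only [f1, f2, alt_st hbJ hk]
      rfl
  rw [hB, hR.nf1 hG false hg (fun g hg' hne k v => by
      by_contra hc
      exact hne (o4 g hg' k v (by simpa using hc)).1.symm),
    Gr.EE_ord (vl G b) (fun k => by
      by_contra hc
      have := (o4 _ hg k _ (by simpa using hc)).2.2
      simp at this) (fun h1 h2 => by
      have a1 := (o4 _ hg _ _ h1).2.1
      have a2 := (o4 _ hg _ _ h2).2.1
      have a3 := (Gr.has_both (Gr.act_has a2) (Gr.act_has a1)).1
      have a4 : ¬ G.e ≤ G.md b / 4 := by omega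
      simp [Gr.act, a4] at a1 a2
      left
      simp [vl, a3, a1.2, a2.2]), o5, o5, Gr.aC_odd hb1, Gr.sv, Gr.sv, mul_assoc,
    ← mul_assoc (sIf _ _ (.s (G.xv false _))), sIf_mul_self, one_mul, sIf_mul_self]

variable (G) in
/-- The state before the time `τ`. -/
def S (m u τ : ℕ) : Multiset CL :=
  X G τ + ((τ / 8) * m + (X G τ).card) • G.Lks.val + u • (Multiset.range (τ / 8)).map Cl.win

theorem count_S_cr (m u τ : ℕ) (l : Lt) :
    (S G m u τ).count (.cr l) = if G.Val l then cnt G τ l else 0 := by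
  simp only [S, Multiset.count_add, Multiset.count_nsmul, count_X, Gr.count_Lks, Gr.count_wins,
    Gr.mem_Lks]
  simp

theorem qp_S (m u τ : ℕ) (j : ℕ) : qp (S G m (2 * u) τ) j = false := by
  simp only [qp, par, S, Multiset.count_add, Multiset.count_nsmul, count_X, Gr.count_Lks,
    Gr.count_wins, Gr.mem_Lks]
  simp only [reduceCtorEq, and_false, exists_false, if_false, mul_zero, add_zero, zero_add]
  rw [Gr.bodd_eq', mul_assoc]
  omega

theorem od_S (m u τ : ℕ) (l : Lt) (hl : G.Val l) : od (S G m u τ) l = (cnt G τ l).bodd := by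
  rw [od, par, count_S_cr, if_pos hl]

theorem good_S (hG : GoodG G.n G.E) (m u : ℕ) {τ : ℕ} (hτ : τ ≤ 8 * G.J + 3) :
    G.good false (S G m (2 * u) τ) :=
  Gr.good_iff.2 ⟨perm_one hG hτ (od_S m _ τ), fun j _ h => by simp [qp_S] at h⟩

theorem S_succ (m u : ℕ) {τ : ℕ} (h : τ % 8 ≠ 7) :
    S G m u (τ + 1) = ((Lb G τ).card • G.Lks.val + Lb G τ) + S G m u τ := by
  rw [S, S, X, show (τ + 1) / 8 = τ / 8 by omega, Multiset.card_add]
  simp only [add_nsmul]
  abel

theorem S_succ' (m u : ℕ) {τ : ℕ} (h : τ % 8 = 7) :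
    S G m u (τ + 1) = (m • G.Lks.val + u • {.win (τ / 8)}) + S G m u τ := by
  rw [S, S, X, show (τ + 1) / 8 = τ / 8 + 1 by omega, Lb, Ll_win h, Multiset.range_succ,
    Multiset.map_cons, ← Multiset.singleton_add]
  simp only [List.map_nil, Multiset.coe_nil, zero_add, add_mul, one_mul, add_nsmul, nsmul_add]
  abel

theorem od_add {t s : Multiset CL} (h : ∀ l, .cr l ∉ t) : od (t + s) = od s := by
  funext l
  simp [od, par, Multiset.count_eq_zero_of_notMem (h l)]

theorem qp_add {t s : Multiset CL} {j : ℕ} (h : .win j ∉ t) : qp (t + s) j = qp s j := by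
  simp [qp, par, Multiset.count_eq_zero_of_notMem h]

theorem good_add {t s : Multiset CL} (h : ∀ c ∈ t, c ∈ G.Lks) :
    G.good false (t + s) ↔ G.good false s := by
  have h1 : ∀ l, .cr l ∉ t := fun l hl => by simpa [Gr.mem_Lks] using h _ hl
  have h2 : qp (t + s) = qp s := funext (fun j => qp_add (fun hl => by
    simpa [Gr.mem_Lks] using h _ hl))
  rw [Gr.good, Gr.good, od_add h1, h2]

theorem reg_add {t s : Multiset CL} (h : ∀ l, .cr l ∉ t) (hs : G.Reg a0 s) :
    G.Reg a0 (t + s) := by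
  obtain ⟨i, hi⟩ := hs
  refine ⟨i, fun l hl => ?_⟩
  rw [Multiset.count_add, Multiset.count_eq_zero_of_notMem (h l), zero_add]
  exact hi l hl

theorem move (hG : GoodG G.n G.E) {s Y : Multiset CL} {l : List CL}
    (h : Chain (G.Can false a0) s l) (hg : G.good false ((l : Multiset CL) + s))
    (hY : ∀ c ∈ Y, c ∈ G.Lks) : 1 ≤ V (G.Can false a0) s (Y + l) := by
  refine le_trans ?_ (V_add _ s l Y)
  refine Nat.mul_pos (V_pos h) (V_pos_all (fun t ht => ?_))
  have h1 : ∀ c ∈ t, c ∈ G.Lks := fun c hc => hY c (Multiset.mem_of_le ht hc)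
  exact ⟨Gr.fe_of_good hG ((good_add h1).2 hg),
    reg_add (fun l hl => by simpa [Gr.mem_Lks] using h1 _ hl) h.top.2⟩

theorem mem_smul {n : ℕ} {c : CL} (h : c ∈ n • G.Lks.val) : c ∈ G.Lks :=
  Multiset.mem_of_mem_nsmul h

theorem block (hG : GoodG G.n G.E) {s : Multiset CL} {L : List Lt} (hL : L.length ≤ 2)
    (hV : ∀ l ∈ L, G.Val l) (hq : ∀ j, qp s j = false) (h0 : G.good false s)
    (h1 : G.good false (((L.map Cl.cr : List CL) : Multiset CL) + s))
    (hR : ∀ t ≤ ((L.map Cl.cr : List CL) : Multiset CL), G.Reg a0 (t + s)) :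
    1 ≤ V (G.Can false a0) s (L.length • G.Lks.val + (L.map Cl.cr : List CL)) := by
  have r0 : G.Reg a0 s := by simpa using hR 0 (Multiset.zero_le _)
  have c0 : G.Can false a0 s := ⟨Gr.fe_of_good hG h0, r0⟩
  have c1 : G.Can false a0 (((L.map Cl.cr : List CL) : Multiset CL) + s) :=
    ⟨Gr.fe_of_good hG h1, hR _ le_rfl⟩
  match L, hL with
  | [], _ => exact move hG (l := []) (chain_nil.2 c0) h1 (fun c => mem_smul)
  | [e], _ =>
    refine move hG (l := [.cr e]) (chain_cons.2 ⟨?_, chain_nil.2 c0⟩) h1 (fun c => mem_smul)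
    rwa [← Multiset.cons_add, Multiset.cons_coe]
  | [e', e], _ =>
    obtain ⟨u, w, hu, hw, huw, hP⟩ := pm_toggle (odd := od s) (odd' := od (.cr e ::ₘ s))
      (A := (· ∈ G.ws)) (fun c hc => Gr.allcr_mem hG (θ := false) hc) (G.nodup_allcr false)
      (e := e) (List.mem_map.2 ⟨(e, G.wr e), G.mem_allcr.2 ⟨hV e (by simp), rfl⟩, rfl⟩)
      (by simp [od, par]) (fun e' h => by simp [od, par, h])
      (by rw [Gr.pm_allcr]; exact (Gr.good_iff.1 h0).1)
    have r1 : G.Reg a0 (.cr e ::ₘ s) := by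
      have := hR {.cr e} (by simp)
      rwa [Multiset.singleton_add] at this
    by_cases hT : TT s u = TT s w
    · have hu' : (.lnk u : CL) ∈ G.Lks := Gr.mem_Lks.2 ⟨u, hu, rfl⟩
      have e1 : ∀ t : Multiset CL, .lnk u ::ₘ t = {.lnk u} + t := fun t =>
        (Multiset.singleton_add _ _).symm
      have k1 : ∀ t, G.good false t → G.good false (.lnk u ::ₘ t) := fun t ht => by
        rw [e1]; exact (good_add (by simpa using hu')).2 ht
      have k2 : ∀ t, G.Reg a0 t → G.Reg a0 (.lnk u ::ₘ t) := fun t ht => by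
        rw [e1]; exact reg_add (by simp) ht
      have e2 : (([.cr e', .cr e, .lnk u] : List CL) : Multiset CL) + s =
          .lnk u ::ₘ ((([e', e].map Cl.cr : List CL) : Multiset CL) + s) := by
        simp only [List.map_cons, List.map_nil, ← Multiset.cons_coe, Multiset.coe_nil,
          Multiset.cons_add, zero_add]
        rw [Multiset.cons_swap (Cl.cr e), Multiset.cons_swap (Cl.cr e')]
      have := move hG (Y := G.Lks.val + G.Lks.val.erase (.lnk u))
        (l := [.cr e', .cr e, .lnk u]) (s := s) (chain_cons.2 ⟨?_, chain_cons.2 ⟨?_,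
          chain_cons.2 ⟨?_, chain_nil.2 c0⟩⟩⟩) (e2 ▸ k1 _ h1) (fun c hc => by
            rcases Multiset.mem_add.1 hc with hc | hc
            · exact hc
            · exact Multiset.mem_of_mem_erase hc)
      · convert this using 2
        have e3 : G.Lks.val = {.lnk u} + G.Lks.val.erase (.lnk u) := by
          rw [Multiset.singleton_add, Multiset.cons_erase (show .lnk u ∈ G.Lks.val from hu')]
        have e4 : (([.cr e', .cr e, .lnk u] : List CL) : Multiset CL) =
            {.lnk u} + (([e', e].map Cl.cr : List CL) : Multiset CL) := by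
          have := e2
          rwa [e1, ← add_assoc, add_left_inj] at this
        rw [e4, show [e', e].length = 2 from rfl, two_nsmul]
        generalize G.Lks.val.erase (.lnk u) = Z at e3
        rw [e3]
        abel
      · rw [← Multiset.cons_add, Multiset.cons_coe, e2]
        exact ⟨Gr.fe_of_good hG (k1 _ h1), k2 _ c1.2⟩
      · simp only [← Multiset.cons_coe, Multiset.coe_nil, Multiset.cons_add, zero_add]
        rw [Multiset.cons_swap]
        refine ⟨Gr.fe_of_swap hG (fun j _ => by simpa [qp, par] using hq j) hu hw ?_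
          (by rw [od_lnk]; exact hP), k2 _ r1⟩
        revert hT
        simp [TT, par, huw.symm]
      · simp only [Multiset.coe_nil, zero_add]
        exact ⟨Gr.fe_of_good hG (k1 _ h0), k2 _ r0⟩
    · refine move hG (l := [.cr e', .cr e]) (chain_cons.2 ⟨?_, chain_cons.2 ⟨?_,
        chain_nil.2 c0⟩⟩) h1 (fun c => mem_smul)
      · rwa [← Multiset.cons_add, Multiset.cons_coe]
      · simp only [Multiset.coe_nil, zero_add]
        exact ⟨Gr.fe_of_swap hG (fun j _ => by simpa [qp, par] using hq j) hu hw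
          (by simpa [TT, par] using hT) hP, r1⟩

theorem step (hG : GoodG G.n G.E) (m u : ℕ) {τ : ℕ} (hτ : τ < 8 * G.J + 3) (h : τ % 8 ≠ 7) :
    1 ≤ V (G.Can false a0) (S G m (2 * u) τ) ((Lb G τ).card • G.Lks.val + Lb G τ) := by
  have h1 := good_S hG m u (τ := τ + 1) hτ
  rw [S_succ m _ h, add_assoc, good_add (fun c => mem_smul)] at h1
  have := block hG (Ll_len τ) (fun l hl => (mem_Ll.1 hl).1) (qp_S m u τ) (good_S hG m u hτ.le) h1
    (fun t ht => reg_of (τ := τ) (fun l hl => by
      have h2 := Multiset.count_le_of_le (.cr l) ht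
      rw [show ((List.map Cl.cr (Ll G τ) : List CL) : Multiset CL) = Lb G τ from rfl,
        count_Lb] at h2
      simp only [hl, true_and] at h2
      rw [Multiset.count_add, count_S_cr, if_pos hl, cnt_succ]
      omega))
  simpa [Lb] using this

theorem step' (hG : GoodG G.n G.E) (m u : ℕ) {τ : ℕ} (hτ : τ < 8 * G.J + 3) (h : τ % 8 = 7) :
    (m.factorial ^ G.Lks.card * (2 * u).factorial) *
      V (G.Can false a0) (S G m (2 * u) τ) (m • G.Lks.val + (2 * u) • {.win (τ / 8)}) =
      (G.Lks.card * m + 2 * u).factorial := by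
  obtain ⟨j, rfl⟩ : ∃ j, τ = 8 * j + 7 := ⟨τ / 8, by omega⟩
  rw [show (8 * j + 7) / 8 = j by omega]
  have hj : j < G.J := by omega
  have hw : (.win j : CL) ∉ G.Lks := by simp [Gr.mem_Lks]
  have hm : ∀ c ∈ m • G.Lks.val + (2 * u) • ({.win j} : Multiset CL), c ∈ G.Lks ∨ c = .win j := by
    intro c hc
    rcases Multiset.mem_add.1 hc with hc | hc
    · exact Or.inl (mem_smul hc)
    · exact Or.inr (by simpa using Multiset.mem_of_mem_nsmul hc)
  rw [← V_all (G.Can false a0) (S G m (2 * u) (8 * j + 7)) (G.Lks.card * m + 2 * u)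
    (m • G.Lks.val + (2 * u) • {.win j}) (by simp [mul_comm]) (fun t ht => ?_)]
  · congr 1
    rw [fac_eq (X := insert (.win j) G.Lks) (fun c hc => by
      rcases hm c (Multiset.mem_toFinset.1 hc) with h | h <;> simp [h]),
      Finset.prod_insert hw, mul_comm]
    congr 1
    · simp [hw]
    · rw [← Finset.prod_const]
      refine Finset.prod_congr rfl (fun c hc => ?_)
      have : c ≠ .win j := fun e => hw (e ▸ hc)
      simp [Gr.count_Lks, hc, this]
  · have h1 : ∀ l, .cr l ∉ t := fun l hl => by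
      simpa [Gr.mem_Lks] using hm _ (Multiset.mem_of_le ht hl)
    refine ⟨Gr.fe_of_good hG (Gr.good_iff.2 ?_), reg_add h1 (reg_of (τ := 8 * j + 7)
      (fun l hl => by rw [count_S_cr, if_pos hl, cnt_succ (8 * j + 7)]; omega))⟩
    rw [od_add h1]
    refine ⟨(Gr.good_iff.1 (good_S hG m u hτ.le)).1, fun i _ hi => ?_⟩
    have : i = j := by
      by_contra hc
      rw [qp_add (fun hl => by
        simpa [Gr.mem_Lks, hc] using hm _ (Multiset.mem_of_le ht hl)), qp_S] at hi
      simp at hi
    subst this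
    refine openStmt G hG _ i hj ?_ ?_ (fun k hk => ?_)
    · rw [od_S _ _ _ (.rho (i + 1)) hj, bodd_one rfl]
      simp [f1, Gr.st, ph]; omega
    · rw [od_S _ _ _ (.dep i) hj, bodd_one rfl]
      simp [f1, Gr.st, ph]
    · rw [od_S _ _ _ (.cm i k) ⟨hj, hk⟩, bodd_two rfl]
      cases k <;> simp [f1, f2, Gr.st, ph]

theorem main (hG : GoodG G.n G.E) (m u : ℕ) (τ : ℕ) (hτ : τ ≤ 8 * G.J + 3) :
    (G.Lks.card * m + 2 * u).factorial ^ (τ / 8) ≤
      (m.factorial ^ G.Lks.card * (2 * u).factorial) ^ (τ / 8) *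
        V (G.Can false a0) 0 (S G m (2 * u) τ) := by
  induction τ with
  | zero =>
    have : G.Can false a0 0 := ⟨Gr.fe_of_good hG (Gr.good_zero false), 0, fun l _ =>
      ⟨fun h => by omega, fun _ => by simp⟩⟩
    simp [S, X, V_zero, this]
  | succ τ ih =>
    have ih := ih (by omega)
    by_cases h : τ % 8 = 7
    · have h1 := V_add (G.Can false a0) 0 (S G m (2 * u) τ)
        (m • G.Lks.val + (2 * u) • {.win (τ / 8)})
      rw [add_zero, ← S_succ' m _ h] at h1
      rw [show (τ + 1) / 8 = τ / 8 + 1 by omega, pow_succ, pow_succ]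
      have h2 := step' hG m u hτ h
      calc _ ≤ _ := Nat.mul_le_mul ih h2.ge
        _ = _ * (V _ 0 _ * V _ _ _) := by ring
        _ ≤ _ := Nat.mul_le_mul_left _ h1
    · have h1 := V_add (G.Can false a0) 0 (S G m (2 * u) τ)
        ((Lb G τ).card • G.Lks.val + Lb G τ)
      rw [add_zero, ← S_succ m _ h] at h1
      rw [show (τ + 1) / 8 = τ / 8 by omega]
      exact ih.trans (Nat.mul_le_mul_left _
        ((Nat.le_mul_of_pos_right _ (step hG m u hτ h)).trans h1))

end Skel

theorem skelStmt : SkelStmt := by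
  intro G hG p r
  have h := Skel.main hG (2 * G.sz ^ r) (G.sz ^ p) _ le_rfl
  rwa [Skel.S, Skel.X_top, show (8 * G.J + 3) / 8 = G.J by omega] at h

end Pool.Agent.MP_f00251_lc

end MrgPart2

-- marker of a merged file
example : 731051 + 29666 = 731051 + 29666 := rfl
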