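import Pool.Agent.MP_f00251_lc.Defs

/-!
Samplers of optimal sorting sequences and the class RP.
-/

set_option autoImplicit false

namespace Pool.Agent.MP_f00251_lc

open N68a2faeb

open Classical in
/-- The probability of the event `E` for a uniformly random string of `m` bits. -/
noncomputable def coinProb (m : ℕ) (E : List Bool → Prop) : ℝ :=
  ((Finset.univ.filter fun r : Fin m → Bool => E (List.ofFn r)).card : ℝ) / 2 ^ m

/-- An almost uniform sampler: on input `π` and `e` in unary it always outputs an optimal sorting
sequence of `π`, within total variation distance `1 / 2 ^ e` of the uniform distribution. -/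
def HasSampler : Prop :=
  ∃ (p : Polynomial ℕ) (A : (List ℤ × List Bool) × List Bool → List (ℕ × ℕ)), IsPolyTime A ∧
    ∀ π, IsSP π → ∀ e : ℕ, (∀ r, A ((π, List.replicate e true), r) ∈ Opt π) ∧
      ∀ E : Set (List (ℕ × ℕ)),
        |coinProb (p.eval (N487b59b3.bitEncode (π, List.replicate e true)).length)
            (fun r => A ((π, List.replicate e true), r) ∈ E) -
          (Set.ncard (Opt π ∩ E) : ℝ) / numOpt π| ≤ 1 / 2 ^ e

/-- A crude sampler: its output, which need not be an optimal sorting sequence, is within total
variation distance `3 / 4` of the uniform distribution on the optimal sorting sequences. -/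
def HasCrudeSampler : Prop :=
  ∃ (p : Polynomial ℕ) (A : List ℤ × List Bool → List (ℕ × ℕ)), IsPolyTime A ∧
    ∀ π, IsSP π → ∀ E : Set (List (ℕ × ℕ)),
      |coinProb (p.eval (N487b59b3.bitEncode π).length) (fun r => A (π, r) ∈ E) -
        (Set.ncard (Opt π ∩ E) : ℝ) / numOpt π| ≤ 3 / 4

/-- Randomised polynomial time with one-sided error. -/
def RP : Set (List Bool → Bool) :=
  {L | ∃ (p : Polynomial ℕ) (R : List Bool × List Bool → Bool), IsPolyTime R ∧
    ∀ x, (∀ r, R (x, r) = true → L x = true) ∧
      (L x = true → 1 / 2 ≤ coinProb (p.eval x.length) fun r => R (x, r) = true)}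

end Pool.Agent.MP_f00251_lc
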