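import Pool.Agent.MP_f00251_lc.Iface
import Pool.Agent.MP_f00251_lc.Num.NumA

/-!
More interfaces between the parts of the proof.
-/

set_option autoImplicit false

namespace Pool.Agent.MP_f00251_lc

open Pool.Agent.PolyT

open Classical in
/-- The core reduction from independent sets to optimal sorting sequences. -/
def CoreStmt : Prop :=
  ∃ (g : (List ℕ × List (ℕ × ℕ)) × Bool → List ℤ)
    (dec : (List ℕ × List (ℕ × ℕ)) × List ℤ → List ℕ), Poly g ∧ Poly dec ∧
    ∀ U E, GoodG U.length E →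
      IsSP (g ((U, E), false)) ∧ IsSP (g ((U, E), true)) ∧
      (IS U.length E).card = (2 * numOpt (g ((U, E), false)) + numOpt (g ((U, E), true))) /
        (2 * numOpt (g ((U, E), true))) ∧
      (Opt (g ((U, E), false))).Finite ∧ 0 < numOpt (g ((U, E), false)) ∧
      ∀ A : List ℕ → Prop, 15 * (IS U.length E).card ≤ 16 * ((IS U.length E).filter
          (fun X => A ((List.range U.length).filter (fun i => decide (i ∈ X))))).card →
        8 * {s | s ∈ Opt (g ((U, E), false)) ∧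
          ∀ γ ∈ List.scanl rev (g ((U, E), false)) s, ¬ A (dec ((U, E), γ))}.ncard ≤
          numOpt (g ((U, E), false))

/-- The entropy estimate: words which miss a window are rare. -/
def NumStmt : Prop :=
  ∃ a b : ℕ, ∀ (C : Type) [DecidableEq C] (Lk : Finset C) (J : ℕ) (q : ℕ → C) (X : Multiset C)
    (s : ℕ) (ok good : Multiset C → Prop) (win : ℕ → Multiset C → Prop),
    2 ≤ s → 1 ≤ Lk.card → Lk.card ≤ s → J ≤ s → X.card ≤ s →
    (∀ j < J, q j ∉ Lk ∧ q j ∉ X) → (∀ c ∈ X, c ∉ Lk) → (∀ i < J, ∀ j < J, q i = q j → i = j) →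
    good 0 →
    good (X + (J * (2 * s ^ b) + X.card) • Lk.val + (2 * s ^ a) • (Multiset.range J).map q) →
    (∀ t, ok t → (∀ i ∈ Lk, ok (i ::ₘ t)) →
      (∀ i ∈ Lk, ∀ i' ∈ Lk, i ≠ i' → ok (i' ::ₘ i ::ₘ t)) → good t) →
    (∀ t, ∀ i ∈ Lk, good (i ::ₘ t) → good t) →
    (∀ t, ∀ j < J, good t → good (q j ::ₘ t) → win j t) →
    (∀ t, ∀ i < J, ∀ j < J, win i t → win j t → i = j) →
    ∀ j < J, s * 2 ^ s * ((2 * s ^ b).factorial ^ Lk.card * (2 * s ^ a).factorial) ^ J *
      V (fun t => ok t ∧ ¬ win j t) 0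
        (X + (J * (2 * s ^ b) + X.card) • Lk.val + (2 * s ^ a) • (Multiset.range J).map q) ≤
      (Lk.card * (2 * s ^ b) + 2 * s ^ a).factorial ^ J

end Pool.Agent.MP_f00251_lc
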