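import Pool.Agent.MP_f00251_lc.Mult
import Pool.Agent.MP_f00251_lc.Iface2

-- ======== part 0: formerly Pool.Agent.MP_f00251_lc.Model
section MrgPart0

/-!
Wires, crossings, links and windows.
-/

set_option autoImplicit false

namespace Pool.Agent.MP_f00251_lc

open Function Equiv

/-- Classes of chords: links around a wire, windows, crossings. -/
inductive Cl (W E : Type) : Type
  | lnk (w : W)
  | win (j : ℕ)
  | cr (e : E)
  deriving DecidableEq

instance {W E : Type} : Inhabited (Cl W E) := ⟨Cl.win 0⟩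

/-- The items of a word: crossings of two wires, and sides of windows. -/
inductive It (W E : Type) : Type
  | X (e : E) (a b : W)
  | Q (j : ℕ) (s : Bool) (w : W)
  deriving DecidableEq

variable {W E : Type} [DecidableEq W] [DecidableEq E]

/-- The sides of classes which an item puts on the wire `w`. -/
def blk (w : W) : It W E → List (Cl W E × Bool)
  | .X e a b => (if w = a then [(.cr e, false)] else []) ++ (if w = b then [(.cr e, true)] else [])
  | .Q j s v => if w = v then [(.win j, s)] else []

/-- The line: the wires one after the other, each one enclosed by its link. -/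
def blocks (ws : List W) (wd : List (It W E)) : List (Cl W E × Bool) :=
  ws.flatMap (fun w => (Cl.lnk w, false) :: (wd.flatMap (blk w) ++ [(Cl.lnk w, true)]))

/-- Links and windows are inverted chords, crossings are parallel chords. -/
def fbm : Cl W E × Bool → Bool
  | (.cr _, _) => false
  | (_, b) => b

/-- Labels travelling along the wires. -/
def RunI (odd : E → Bool) (qi qo : ℕ → Bool → Bool) : (W → Bool) → List (It W E) → (W → Bool) → Prop
  | b, [], b' => b = b'
  | b, .X e u v :: r, b' => RunI odd qi qo (if odd e then b ∘ swap u v else b) r b'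
  | b, .Q j s w :: r, b' => b w = (if s then qo j s else qi j s) ∧
      RunI odd qi qo (update b w (if s then qi j s else qo j s)) r b'

/-- Labels travelling through the links. -/
def Lk (T b b' : W → Bool) : Bool → List W → Prop
  | _, [] => True
  | x, w :: ws => (if T w then b' w else b w) = x ∧ Lk T b b' (if T w then b w else b' w) ws

/-- Connectedness in terms of wires; `P` is a permutation applied before the word. -/
def MConn (ws : List W) (P : Perm W) (wd : List (It W E)) (T : W → Bool) (qp : ℕ → Bool)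
    (odd : E → Bool) : Prop :=
  ∀ (x : Bool) (b b' : W → Bool) (qi qo : ℕ → Bool → Bool), Lk T b b' x ws →
    RunI odd qi qo (b ∘ P.symm) wd b' → (∀ j s, qo j s = qi j (xor s (qp j))) →
    (∀ w ∈ ws, b w = x ∧ b' w = x) ∧ ∀ j s w, It.Q j s w ∈ wd → qi j s = x

/-- The name of an item. -/
def It.key : It W E → Cl W E × Bool
  | .X e _ _ => (.cr e, false)
  | .Q j s _ => (.win j, s)

/-- Well-formed words. -/
structure WFM (ws : List W) (wd : List (It W E)) : Prop where
  nw : ws.Nodup
  nk : (wd.map It.key).Nodup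
  hX : ∀ e a b, It.X e a b ∈ wd → a ≠ b ∧ a ∈ ws ∧ b ∈ ws
  hQ : ∀ j s w, It.Q j s w ∈ wd → w ∈ ws ∧ ∃ w', It.Q j (!s) w' ∈ wd

theorem thr_congr {κ : Type} {fp I O I' O' : κ × Bool → Bool} {l : List (κ × Bool)}
    (h : ∀ s ∈ l, I s = I' s ∧ O s = O' s) {x y : Bool} (hT : Thr fp I O x l y) :
    Thr fp I' O' x l y := by
  induction l generalizing x with
  | nil => exact hT
  | cons s l ih =>
    have := h s (by simp)
    simp only [Thr, lft, rgt] at hT ⊢
    rw [← this.1, ← this.2]
    exact ⟨hT.1, ih (fun s hs => h s (by simp [hs])) hT.2⟩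

omit [DecidableEq W] in
theorem lk_congr {T b b' T₁ b₁ b₁' : W → Bool} {ws : List W}
    (h : ∀ w ∈ ws, T w = T₁ w ∧ b w = b₁ w ∧ b' w = b₁' w) {x : Bool} (hL : Lk T b b' x ws) :
    Lk T₁ b₁ b₁' x ws := by
  induction ws generalizing x with
  | nil => trivial
  | cons w l ih =>
    have := h w (by simp)
    simp only [Lk] at hL ⊢
    rw [← this.1, ← this.2.1, ← this.2.2]
    exact ⟨hL.1, ih (fun s hs => h s (by simp [hs])) hL.2⟩

omit [DecidableEq E] in
theorem mem_blk {w : W} {it : It W E} {β : Cl W E × Bool} :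
    β ∈ blk w it ↔ (∃ e v, it = .X e w v ∧ β = (.cr e, false)) ∨
      (∃ e v, it = .X e v w ∧ β = (.cr e, true)) ∨ (∃ j s, it = .Q j s w ∧ β = (.win j, s)) := by
  cases it with
  | X e a b =>
    by_cases h1 : w = a <;> by_cases h2 : w = b <;> simp [blk, h1, h2, eq_comm]
    all_goals simp_all
  | Q j s v =>
    by_cases h1 : w = v
    · subst h1
      simp only [blk, if_true, List.mem_singleton, reduceCtorEq, false_and, exists_false, false_or,
        It.Q.injEq, and_true]
      exact ⟨fun h => ⟨j, s, ⟨rfl, rfl⟩, h⟩, by rintro ⟨j', s', ⟨rfl, rfl⟩, h⟩; exact h⟩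
    · simp [blk, h1, Ne.symm h1]

omit [DecidableEq E] in
theorem mem_blocks {ws : List W} {wd : List (It W E)} {β : Cl W E × Bool} :
    β ∈ blocks ws wd ↔ ∃ w ∈ ws, β.1 = .lnk w ∨ ∃ it ∈ wd, β ∈ blk w it := by
  obtain ⟨c, b⟩ := β
  simp only [blocks, List.mem_flatMap, List.mem_cons, List.mem_append, Prod.mk.injEq,
    List.not_mem_nil, or_false]
  refine exists_congr (fun w => and_congr_right (fun _ => ?_))
  cases b <;> simp [or_comm]

namespace WFM

variable {ws : List W} {wd : List (It W E)}

omit [DecidableEq E] in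
theorem mem_lnk {w : W} {b : Bool} : (Cl.lnk w, b) ∈ blocks ws wd ↔ w ∈ ws := by
  simp [mem_blocks, mem_blk]

omit [DecidableEq E] in
theorem mem_cr (h : WFM ws wd) {e : E} {b : Bool} :
    (Cl.cr e, b) ∈ blocks ws wd ↔ ∃ u v, It.X e u v ∈ wd := by
  simp only [mem_blocks, mem_blk, reduceCtorEq, false_or, Prod.mk.injEq, Cl.cr.injEq, false_and,
    and_false, exists_false, or_false]
  constructor
  · rintro ⟨w, -, it, hit, ⟨e', v, rfl, rfl, -⟩ | ⟨e', v, rfl, rfl, -⟩⟩
    · exact ⟨_, _, hit⟩
    · exact ⟨_, _, hit⟩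
  · rintro ⟨u, v, hit⟩
    cases b
    · exact ⟨u, (h.hX _ _ _ hit).2.1, _, hit, Or.inl ⟨e, v, rfl, rfl, rfl⟩⟩
    · exact ⟨v, (h.hX _ _ _ hit).2.2, _, hit, Or.inr ⟨e, u, rfl, rfl, rfl⟩⟩

omit [DecidableEq E] in
theorem mem_win (h : WFM ws wd) {j : ℕ} {b : Bool} :
    (Cl.win j, b) ∈ blocks ws wd ↔ ∃ w, It.Q j b w ∈ wd := by
  simp only [mem_blocks, mem_blk, reduceCtorEq, false_or, Prod.mk.injEq, Cl.win.injEq, false_and,
    and_false, exists_false]
  constructor
  · rintro ⟨w, -, it, hit, j', s, rfl, rfl, rfl⟩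
    exact ⟨_, hit⟩
  · rintro ⟨w, hit⟩
    exact ⟨w, (h.hQ _ _ _ hit).1, _, hit, j, b, rfl, rfl, rfl⟩

omit [DecidableEq E] in
theorem mate (h : WFM ws wd) (c : Cl W E) (b b' : Bool) (hc : (c, b) ∈ blocks ws wd) :
    (c, b') ∈ blocks ws wd := by
  cases c with
  | lnk w => rwa [mem_lnk] at hc ⊢
  | cr e => rwa [h.mem_cr] at hc ⊢
  | win j =>
    rw [h.mem_win] at hc ⊢
    obtain ⟨w, hw⟩ := hc
    by_cases e : b' = b
    · exact ⟨w, e ▸ hw⟩
    · have : b' = !b := by cases b <;> cases b' <;> simp_all
      exact this ▸ (h.hQ _ _ _ hw).2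

omit [DecidableEq W] [DecidableEq E] in
theorem key_inj (h : WFM ws wd) {it it' : It W E} (h1 : it ∈ wd) (h2 : it' ∈ wd)
    (e : it.key = it'.key) : it = it' := List.inj_on_of_nodup_map h.nk h1 h2 e

omit [DecidableEq E] in
theorem nodup (h : WFM ws wd) : (blocks ws wd).Nodup := by
  have hk : ∀ w w' it it' β, it ∈ wd → it' ∈ wd → β ∈ blk w it → β ∈ blk w' it' →
      it = it' ∧ w = w' := by
    intro w w' it it' β h1 h2 h3 h4
    rw [mem_blk] at h3 h4
    rcases h3 with ⟨e, v, rfl, rfl⟩ | ⟨e, v, rfl, rfl⟩ | ⟨e, v, rfl, rfl⟩ <;>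
    rcases h4 with ⟨e', v', rfl, h4⟩ | ⟨e', v', rfl, h4⟩ | ⟨e', v', rfl, h4⟩ <;>
    simp only [Prod.mk.injEq, Cl.cr.injEq, Cl.win.injEq, reduceCtorEq, and_true, and_false,
      false_and] at h4
    · subst h4
      have := h.key_inj h1 h2 rfl
      exact ⟨this, by simpa using (It.X.inj this).2.1⟩
    · subst h4
      have := h.key_inj h1 h2 rfl
      exact ⟨this, by simpa using (It.X.inj this).2.2⟩
    · obtain ⟨rfl, rfl⟩ := h4
      have := h.key_inj h1 h2 rfl
      exact ⟨this, by simpa using (It.Q.inj this).2.2⟩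
  rw [blocks, List.nodup_flatMap]
  refine ⟨fun w _ => ?_, h.nw.imp (fun {w w'} hne => ?_)⟩
  · rw [List.nodup_cons, List.nodup_append]
    refine ⟨by simp [mem_blk], ?_, List.nodup_singleton _, ?_⟩
    · rw [List.nodup_flatMap]
      refine ⟨fun it hit => ?_, ?_⟩
      · cases it with
        | X e a b => simp only [blk]; split_ifs <;> simp
        | Q j s v => simp only [blk]; split_ifs <;> simp
      · refine (List.Nodup.of_map _ h.nk).imp_of_mem (fun {it it'} h1 h2 hne => ?_)
        intro β h3 h4
        exact hne (hk _ _ _ _ _ h1 h2 h3 h4).1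
    · rintro β hβ _ h2 rfl
      rw [List.mem_singleton] at h2
      subst h2
      simp [mem_blk] at hβ
  · intro β h1 h2
    simp only [List.mem_cons, List.mem_append, List.mem_flatMap, List.not_mem_nil,
      or_false] at h1 h2
    rcases h1 with rfl | ⟨it, a1, a2⟩ | rfl <;> rcases h2 with h2 | ⟨it', b1, b2⟩ | h2
    any_goals (simp [mem_blk] at h2; exact hne h2)
    any_goals (simp [mem_blk] at h2; done)
    any_goals (simp [mem_blk] at b2; done)
    any_goals (subst h2; simp [mem_blk] at a2; done)
    exact hne (hk _ _ _ _ _ a1 b1 a2 b2).2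

end WFM

omit [DecidableEq E] in
theorem thr_blocks {I O : Cl W E × Bool → Bool} {ws : List W} {wd : List (It W E)} {x y : Bool}
    (h : Thr fbm I O x (blocks ws wd) y) :
    (∀ w ∈ ws, Thr fbm I O (O (.lnk w, false)) (wd.flatMap (blk w)) (O (.lnk w, true))) ∧
    Lk (fun _ => false) (fun w => I (.lnk w, false)) (fun w => I (.lnk w, true)) x ws := by
  induction ws generalizing x with
  | nil => exact ⟨by simp, trivial⟩
  | cons w ws ih =>
    rw [blocks, List.flatMap_cons, List.cons_append, Thr, List.append_assoc, thr_append] at h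
    obtain ⟨h1, z, h2, h3, h4⟩ := h
    obtain ⟨i1, i2⟩ := ih h4
    simp only [lft, rgt, fbm, Bool.false_eq_true, if_false, if_true] at h1 h2 h3 i2
    refine ⟨fun w' hw' => ?_, h1, i2⟩
    rcases List.mem_cons.1 hw' with rfl | hw'
    · rwa [h3]
    · exact i1 w' hw'

omit [DecidableEq E] in
theorem blocks_thr {I O : Cl W E × Bool → Bool} {ws : List W} {wd : List (It W E)} {x : Bool}
    (h1 : ∀ w ∈ ws, Thr fbm I O (O (.lnk w, false)) (wd.flatMap (blk w)) (O (.lnk w, true)))
    (h2 : Lk (fun _ => false) (fun w => I (.lnk w, false)) (fun w => I (.lnk w, true)) x ws) :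
    ∃ y, Thr fbm I O x (blocks ws wd) y := by
  induction ws generalizing x with
  | nil => exact ⟨x, rfl⟩
  | cons w ws ih =>
    obtain ⟨y, hy⟩ := ih (fun w' hw' => h1 w' (by simp [hw'])) h2.2
    refine ⟨y, ?_⟩
    rw [blocks, List.flatMap_cons, List.cons_append, Thr, List.append_assoc, thr_append]
    exact ⟨h2.1, _, h1 w (by simp), rfl, hy⟩

omit [DecidableEq E] in
theorem run_of_thr {I O : Cl W E × Bool → Bool} {ws : List W} (odd : E → Bool)
    (qo : ℕ → Bool → Bool) (b' : W → Bool) (wd : List (It W E))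
    (hX : ∀ e u v, It.X e u v ∈ wd → u ≠ v ∧ u ∈ ws ∧ v ∈ ws ∧
      ∀ s, O (.cr e, s) = I (.cr e, xor s (odd e)))
    (hQ : ∀ j s w, It.Q j s w ∈ wd → w ∈ ws ∧ O (.win j, s) = qo j s) :
    ∀ b : W → Bool, (∀ w ∈ ws, Thr fbm I O (b w) (wd.flatMap (blk w)) (b' w)) →
      (∃ b'', RunI odd (fun j s => I (.win j, s)) qo b wd b'' ∧ ∀ w ∈ ws, b'' w = b' w) ∧
      ∀ x, (∀ w ∈ ws, b w = x) → (∀ j s w, It.Q j s w ∈ wd → I (.win j, s) = x ∧ qo j s = x) →
        ∀ e u v, It.X e u v ∈ wd → ∀ s, I (.cr e, s) = x := by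
  induction wd with
  | nil => exact fun b h => ⟨⟨b, rfl, h⟩, by simp⟩
  | cons it wd ih =>
    intro b h
    have ih' := ih (fun e u v hm => hX e u v (by simp [hm])) (fun j s w hm => hQ j s w (by simp [hm]))
    simp only [List.flatMap_cons, thr_append] at h
    cases it with
    | X e u v =>
      obtain ⟨huv, hu, hv, hr⟩ := hX e u v (by simp)
      obtain ⟨z1, a1, a2⟩ := h u hu
      obtain ⟨z2, b1, b2⟩ := h v hv
      simp only [blk, if_true, if_neg huv, if_neg huv.symm, List.append_nil, List.nil_append, Thr,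
        lft, rgt, fbm, Bool.false_eq_true, if_false, hr] at a1 b1
      obtain ⟨i1, i2⟩ := ih' (if odd e then b ∘ swap u v else b) (fun w hw => by
        by_cases e1 : w = u
        · subst e1
          convert a2 using 1
          rw [← a1.2]; cases odd e <;> simp [a1.1, b1.1]
        by_cases e2 : w = v
        · subst e2
          convert b2 using 1
          rw [← b1.2]; cases odd e <;> simp [a1.1, b1.1]
        obtain ⟨z, c1, c2⟩ := h w hw
        simp only [blk, if_neg e1, if_neg e2, List.append_nil, Thr] at c1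
        convert c2 using 1
        rw [← c1]; cases odd e <;> simp [swap_apply_of_ne_of_ne e1 e2])
      refine ⟨i1, fun x hx hq e' u' v' hm => ?_⟩
      rcases List.mem_cons.1 hm with hm | hm
      · obtain ⟨rfl, rfl, rfl⟩ := It.X.inj hm
        intro s
        cases s
        · rw [a1.1, hx _ hu]
        · rw [b1.1, hx _ hv]
      · refine i2 x (fun w hw => ?_) (fun j s w hm => hq j s w (by simp [hm])) e' u' v' hm
        cases odd e
        · exact hx w hw
        · simp only [if_true, comp_apply, swap_apply_def]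
          split_ifs
          exacts [hx _ hv, hx _ hu, hx _ hw]
    | Q j s v =>
      obtain ⟨hv, hr⟩ := hQ j s v (by simp)
      obtain ⟨z1, a1, a2⟩ := h v hv
      simp only [blk, if_true, Thr, lft, rgt, fbm, hr] at a1
      obtain ⟨⟨b'', i0, i1⟩, i2⟩ := ih' (update b v (if s then I (.win j, s) else qo j s))
        (fun w hw => by
          by_cases e1 : w = v
          · subst e1
            rw [update_self, a1.2]; exact a2
          obtain ⟨z, c1, c2⟩ := h w hw
          simp only [blk, if_neg e1, Thr] at c1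
          rw [update_of_ne e1, c1]; exact c2)
      refine ⟨⟨b'', ⟨a1.1.symm, i0⟩, i1⟩, fun x hx hq e' u' v' hm => ?_⟩
      refine i2 x (fun w hw => ?_) (fun j s w hm => hq j s w (by simp [hm])) e' u' v'
        (by simpa using hm)
      by_cases e1 : w = v
      · subst e1
        have := hq j s w (by simp)
        rw [update_self, this.1, this.2, ite_self]
      · rw [update_of_ne e1, hx w hw]

/-- Labels of all classes from labels of each kind. -/
def mkL (f : W → Bool → Bool) (g : ℕ → Bool → Bool) (h : E → Bool → Bool) : Cl W E × Bool → Bool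
  | (.lnk w, s) => f w s
  | (.win j, s) => g j s
  | (.cr e, s) => h e s

theorem thr_of_run (odd : E → Bool) (qi qo : ℕ → Bool → Bool) (f f' : W → Bool → Bool)
    (b' : W → Bool) (wd : List (It W E)) (hk : (wd.map It.key).Nodup)
    (hX : ∀ e u v, It.X e u v ∈ wd → u ≠ v) :
    ∀ b : W → Bool, RunI odd qi qo b wd b' → ∃ h : E → Bool → Bool, ∀ w,
      Thr fbm (mkL f qi h) (mkL f' qo (fun e s => h e (xor s (odd e)))) (b w)
        (wd.flatMap (blk w)) (b' w) := by
  induction wd with
  | nil => exact fun b h => ⟨fun _ _ => false, fun w => congrFun h w⟩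
  | cons it wd ih =>
    intro b h
    rw [List.map_cons, List.nodup_cons] at hk
    have ih' := ih hk.2 (fun e u v hm => hX e u v (by simp [hm]))
    cases it with
    | X e u v =>
      have huv := hX e u v (by simp)
      obtain ⟨g, hg⟩ := ih' _ h
      refine ⟨update g e (fun s => if s then b v else b u), fun w => ?_⟩
      rw [List.flatMap_cons, thr_append]
      refine ⟨(if odd e then b ∘ swap u v else b) w, ?_, thr_congr (fun β hβ => ?_) (hg w)⟩
      · by_cases e1 : w = u
        · subst e1
          cases h1 : odd e <;> simp [blk, huv, Thr, lft, rgt, fbm, mkL, h1]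
        by_cases e2 : w = v
        · subst e2
          cases h1 : odd e <;> simp [blk, e1, Thr, lft, rgt, fbm, mkL, h1]
        cases h1 : odd e <;> simp [blk, e1, e2, Thr, swap_apply_of_ne_of_ne e1 e2]
      · obtain ⟨it, h1, h2⟩ := List.mem_flatMap.1 hβ
        have hne : ∀ e' u' v', it = .X e' u' v' → e' ≠ e := by
          rintro e' u' v' rfl rfl
          exact hk.1 (List.mem_map.2 ⟨_, h1, rfl⟩)
        rcases mem_blk.1 h2 with ⟨e', v', h3, rfl⟩ | ⟨e', v', h3, rfl⟩ | ⟨e', v', -, rfl⟩
        · simp [mkL, hne _ _ _ h3]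
        · simp [mkL, hne _ _ _ h3]
        · simp [mkL]
    | Q j s v =>
      obtain ⟨g, hg⟩ := ih' _ h.2
      refine ⟨g, fun w => ?_⟩
      rw [List.flatMap_cons, thr_append]
      refine ⟨_, ?_, hg w⟩
      by_cases e1 : w = v
      · subst e1
        have := h.1
        cases s <;> simp_all [blk, Thr, lft, rgt, fbm, mkL]
      · simp [blk, e1, Thr]

omit [DecidableEq W] in
theorem lk_iff (T b b' : W → Bool) (ws : List W) (x : Bool) : Lk T b b' x ws ↔
    Lk (fun _ => false) (fun w => if T w then b' w else b w) (fun w => if T w then b w else b' w)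
      x ws := by
  induction ws generalizing x with
  | nil => rfl
  | cons w ws ih => simp only [Lk, ih]; simp

theorem tconn_iff {ws : List W} {wd : List (It W E)} (h : WFM ws wd) (S : Cl W E → Bool) :
    TConn (blocks ws wd) fbm S ↔
      MConn ws 1 wd (fun w => S (.lnk w)) (fun j => S (.win j)) (fun e => S (.cr e)) := by
  constructor
  · intro hc x b b' qi qo hL hR hq
    obtain ⟨g, hg⟩ := thr_of_run (fun e => S (.cr e)) qi qo
      (fun w s => if xor s (S (.lnk w)) then b' w else b w) (fun w s => if s then b' w else b w)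
      b' wd h.nk (fun e u v hm => (h.hX e u v hm).1) b hR
    obtain ⟨y, hy⟩ := blocks_thr (ws := ws) (x := x) (fun w _ => hg w) (by
      rw [lk_iff] at hL
      refine lk_congr (fun w _ => ⟨rfl, ?_, ?_⟩) hL <;> cases h1 : S (.lnk w) <;> simp [mkL, h1])
    have := hc _ _ x y hy (by
      rintro ⟨c, s⟩ -
      cases c with
      | lnk w => simp [mkL]
      | win j => simp [mkL, hq]
      | cr e => simp [mkL])
    refine ⟨fun w hw => ?_, fun j s w hm => this (.win j, s) (h.mem_win.2 ⟨w, hm⟩)⟩
    have a1 := this (.lnk w, S (.lnk w)) (WFM.mem_lnk.2 hw)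
    have a2 := this (.lnk w, !S (.lnk w)) (WFM.mem_lnk.2 hw)
    simp [mkL] at a1 a2
    exact ⟨a1, a2⟩
  · intro hc I O x y hT hR
    obtain ⟨t1, t2⟩ := thr_blocks hT
    obtain ⟨⟨b'', r1, r2⟩, r3⟩ := run_of_thr (I := I) (O := O) (ws := ws) (fun e => S (.cr e))
      (fun j s => I (.win j, xor s (S (.win j)))) (fun w => O (.lnk w, true)) wd
      (fun e u v hm => ⟨(h.hX e u v hm).1, (h.hX e u v hm).2.1, (h.hX e u v hm).2.2,
        fun s => hR (.cr e, s) (h.mem_cr.2 ⟨u, v, hm⟩)⟩)
      (fun j s w hm => ⟨(h.hQ j s w hm).1, hR (.win j, s) (h.mem_win.2 ⟨w, hm⟩)⟩)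
      (fun w => O (.lnk w, false)) t1
    obtain ⟨c1, c2⟩ := hc x (fun w => O (.lnk w, false)) b'' _ _ (by
      rw [lk_iff]
      refine lk_congr (fun w hw => ⟨rfl, ?_, ?_⟩) t2 <;>
      rw [r2 w hw, hR _ (WFM.mem_lnk.2 hw), hR _ (WFM.mem_lnk.2 hw)] <;>
      cases S (.lnk w) <;> simp) r1 (fun _ _ => rfl)
    have c3 : ∀ j s, (Cl.win j, s) ∈ blocks ws wd → I (.win j, s) = x := fun j s hm => by
      obtain ⟨w, hw⟩ := h.mem_win.1 hm
      exact c2 j s w hw
    rintro ⟨c, s⟩ hm
    cases c with
    | lnk w =>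
      have hw := WFM.mem_lnk.1 hm
      have a1 := (c1 w hw).1
      have a2 := (c1 w hw).2
      rw [r2 w hw] at a2
      rw [hR _ (WFM.mem_lnk.2 hw)] at a1 a2
      revert a1 a2
      cases s <;> cases S (.lnk w) <;> simp <;> tauto
    | win j => exact c3 j s hm
    | cr e =>
      obtain ⟨u, v, hm'⟩ := h.mem_cr.1 hm
      exact r3 x (fun w hw => (c1 w hw).1) (fun j s w hm => ⟨c2 j s w hm,
        c3 _ _ (h.mate _ s _ (h.mem_win.2 ⟨w, hm⟩))⟩) e u v hm' s

theorem kill_labels {ws : List W} {wd : List (It W E)} (h : WFM ws wd) (S : Cl W E → Bool)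
    (h0 : TConn (blocks ws wd) fbm S) (h1 : ∀ i ∈ ws, TConn (blocks ws wd) fbm (tog S (.lnk i)))
    (h2 : ∀ i ∈ ws, ∀ j ∈ ws, i ≠ j → TConn (blocks ws wd) fbm (tog (tog S (.lnk i)) (.lnk j))) :
    ∀ i ∈ ws, ∃ (b b' : W → Bool) (qi qo : ℕ → Bool → Bool),
      (∀ w ∈ ws, b w = decide (w = i) ∧ b' w = decide (w = i)) ∧
      RunI (fun e => S (.cr e)) qi qo b wd b' ∧ ∀ j s, qo j s = qi j (xor s (S (.win j))) := by
  intro i hi
  have hwf : WF (blocks ws wd) ((blocks ws wd).length - 1) := by
    refine ⟨h.nodup, ?_, h.mate⟩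
    have := List.length_pos_of_mem ((WFM.mem_lnk (wd := wd) (b := false)).2 hi)
    omega
  obtain ⟨I, O, a1, a2, a3, a4, a5⟩ := labels fbm hwf S (k := .lnk i) (WFM.mem_lnk.2 hi)
    (fun c => ∃ j ∈ ws, j ≠ i ∧ c = .lnk j) h0 (h1 i hi) (by
      rintro _ ⟨j, hj, hji, rfl⟩
      exact ⟨WFM.mem_lnk.2 hj, by simpa using hji, h1 j hj, h2 i hi j hj hji.symm⟩)
  obtain ⟨t1, t2⟩ := thr_blocks a1
  have hI : ∀ w ∈ ws, I (.lnk w, false) = I (.lnk w, true) := fun w hw => by
    by_cases e : w = i
    · rw [e, a4]
    · exact a3 _ ⟨w, hw, e, rfl⟩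
  have hI0 : ∀ w ∈ ws, I (.lnk w, false) = false := by
    clear h h0 h1 h2 hi hwf a1 a2 a3 t1
    induction ws with
    | nil => simp
    | cons w ws ih =>
      simp only [Lk, Bool.false_eq_true, if_false] at t2
      intro w' hw'
      rcases List.mem_cons.1 hw' with rfl | hw'
      · exact t2.1
      · refine ih ?_ (fun w hw => hI w (by simp [hw])) w' hw'
        rw [← hI w (by simp), t2.1] at t2
        exact t2.2
  have hO : ∀ w ∈ ws, ∀ s, O (.lnk w, s) = decide (w = i) := fun w hw s => by
    by_cases e : w = i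
    · rw [e, a5, hI0 i hi]; simp
    · rw [a2 _ (WFM.mem_lnk.2 hw) (by simpa using e)]
      have := hI w hw
      have := hI0 w hw
      cases xor s (S (.lnk w)) <;> simp_all
  obtain ⟨⟨b'', r1, r2⟩, -⟩ := run_of_thr (I := I) (O := O) (ws := ws) (fun e => S (.cr e))
    (fun j s => I (.win j, xor s (S (.win j)))) (fun w => O (.lnk w, true)) wd
    (fun e u v hm => ⟨(h.hX e u v hm).1, (h.hX e u v hm).2.1, (h.hX e u v hm).2.2,
      fun s => a2 (.cr e, s) (h.mem_cr.2 ⟨u, v, hm⟩) (by simp)⟩)
    (fun j s w hm => ⟨(h.hQ j s w hm).1, a2 (.win j, s) (h.mem_win.2 ⟨w, hm⟩) (by simp)⟩)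
    (fun w => O (.lnk w, false)) t1
  exact ⟨_, b'', _, _, fun w hw => ⟨hO w hw _, by rw [r2 w hw, hO w hw]⟩, r1, fun _ _ => rfl⟩

end Pool.Agent.MP_f00251_lc

end MrgPart0

-- ======== part 1: formerly Pool.Agent.MP_f00251_lc.Secs
section MrgPart1

/-!
Words made of sections; good states; the kill lemma.
-/

set_option autoImplicit false

namespace Pool.Agent.MP_f00251_lc

open Function Equiv

variable {W E : Type} [DecidableEq W]

/-- The permutation of the wires given by the odd crossings of a list. -/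
def pm (odd : E → Bool) : List (E × W × W) → Perm W
  | [] => 1
  | c :: l => pm odd l * (if odd c.1 then swap c.2.1 c.2.2 else 1)

@[simp] theorem pm_nil (odd : E → Bool) : pm odd ([] : List (E × W × W)) = 1 := rfl

theorem pm_cons (odd : E → Bool) (c : E × W × W) (l : List (E × W × W)) :
    pm odd (c :: l) = pm odd l * (if odd c.1 then swap c.2.1 c.2.2 else 1) := rfl

theorem pm_append (odd : E → Bool) (l l' : List (E × W × W)) :
    pm odd (l ++ l') = pm odd l' * pm odd l := by
  induction l with
  | nil => simp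
  | cons c l ih => rw [List.cons_append, pm_cons, pm_cons, ih, mul_assoc]

theorem pm_congr {odd odd' : E → Bool} {l : List (E × W × W)} (h : ∀ c ∈ l, odd c.1 = odd' c.1) :
    pm odd l = pm odd' l := by
  induction l with
  | nil => rfl
  | cons c l ih => rw [pm_cons, pm_cons, ih (fun c hc => h c (by simp [hc])), h c (by simp)]

theorem pm_fix {odd : E → Bool} {l : List (E × W × W)} {z : W}
    (h : ∀ c ∈ l, odd c.1 = true → c.2.1 ≠ z ∧ c.2.2 ≠ z) : pm odd l z = z := by
  induction l with
  | nil => rfl
  | cons c l ih =>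
    rw [pm_cons, Perm.mul_apply]
    split_ifs with hc
    · have := h c (by simp) hc
      rw [swap_apply_of_ne_of_ne this.1.symm this.2.symm, ih (fun c hc => h c (by simp [hc]))]
    · exact ih (fun c hc => h c (by simp [hc]))

theorem pm_eq_one {odd : E → Bool} {l : List (E × W × W)} (h : ∀ c ∈ l, odd c.1 = false) :
    pm odd l = 1 := by
  ext z
  exact pm_fix (fun c hc h1 => by simp [h c hc] at h1)

theorem pm_iff {odd : E → Bool} {l : List (E × W × W)} {A : W → Prop}
    (h : ∀ c ∈ l, odd c.1 = true → (A c.2.1 ↔ A c.2.2)) (z : W) : A (pm odd l z) ↔ A z := by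
  induction l generalizing z with
  | nil => rfl
  | cons c l ih =>
    rw [pm_cons, Perm.mul_apply, ih (fun c hc => h c (by simp [hc]))]
    split_ifs with hc
    · have := h c (by simp) hc
      rw [swap_apply_def]
      split_ifs with h1 h2
      · rw [h1, this]
      · rw [h2, this]
      · rfl
    · rfl

theorem pm_toggle [DecidableEq E] {odd odd' : E → Bool} {l : List (E × W × W)} {A : W → Prop}
    (hA : ∀ c ∈ l, A c.2.1 ∧ A c.2.2 ∧ c.2.1 ≠ c.2.2) (hnd : (l.map Prod.fst).Nodup) {e : E}
    (he : e ∈ l.map Prod.fst) (h1 : odd' e = !odd e) (h2 : ∀ e', e' ≠ e → odd' e' = odd e')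
    (h : pm odd l = 1) : ∃ a c, A a ∧ A c ∧ a ≠ c ∧ pm odd' l = swap a c := by
  obtain ⟨c, hc, rfl⟩ := List.mem_map.1 he
  obtain ⟨l1, l2, rfl⟩ := List.append_of_mem hc
  simp only [List.map_append, List.map_cons, List.nodup_append, List.nodup_cons, List.mem_map,
    List.mem_cons] at hnd
  have e1 : pm odd' l1 = pm odd l1 := pm_congr (fun d hd => h2 _
    (hnd.2.2 _ ⟨d, hd, rfl⟩ _ (Or.inl rfl)))
  have e2 : pm odd' l2 = pm odd l2 := pm_congr (fun d hd => h2 _
    (fun e => hnd.2.1.1 ⟨d, hd, e⟩))
  have hA2 : ∀ z, A (pm odd l2 z) ↔ A z := pm_iff (fun d hd _ => by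
    have := hA d (by simp [hd]); simp [this.1, this.2.1])
  have hc' := hA c hc
  refine ⟨pm odd l2 c.2.1, pm odd l2 c.2.2, (hA2 _).2 hc'.1, (hA2 _).2 hc'.2.1,
    fun e => hc'.2.2 ((pm odd l2).injective e), ?_⟩
  rw [pm_append, pm_cons] at h
  rw [pm_append, pm_cons, e1, e2, h1, swap_apply_apply, eq_mul_inv_iff_mul_eq,
    ← mul_inv_eq_one]
  have : pm odd l1 = (pm odd l2 * if odd c.1 = true then swap c.2.1 c.2.2 else 1)⁻¹ :=
    eq_inv_of_mul_eq_one_right h
  rw [this]
  cases odd c.1 <;> simp [mul_assoc]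

/-- Crossings as items. -/
def xsI (l : List (E × W × W)) : List (It W E) := l.map (fun c => .X c.1 c.2.1 c.2.2)

theorem run_xs (odd : E → Bool) (qi qo : ℕ → Bool → Bool) (l : List (E × W × W))
    (r : List (It W E)) (b b' : W → Bool) :
    RunI odd qi qo b (xsI l ++ r) b' ↔ RunI odd qi qo (b ∘ (pm odd l).symm) r b' := by
  induction l generalizing b with
  | nil => rfl
  | cons c l ih =>
    simp only [xsI, List.map_cons, List.cons_append, RunI] at ih ⊢
    rw [ih, pm_cons]
    cases odd c.1
    · simp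
    · rfl

/-- A section of a word: crossings, then a window around more crossings. -/
structure Sec (W E : Type) : Type where
  pre : List (E × W × W)
  j : ℕ
  w1 : W
  mid : List (E × W × W)
  w2 : W

/-- The items of a section. -/
def Sec.items (σ : Sec W E) : List (It W E) :=
  xsI σ.pre ++ .Q σ.j false σ.w1 :: (xsI σ.mid ++ [.Q σ.j true σ.w2])

/-- The word made of sections and final crossings. -/
def word (secs : List (Sec W E)) (post : List (E × W × W)) : List (It W E) :=
  secs.flatMap Sec.items ++ xsI post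

/-- All crossings of the word. -/
def crs (secs : List (Sec W E)) (post : List (E × W × W)) : List (E × W × W) :=
  secs.flatMap (fun σ => σ.pre ++ σ.mid) ++ post

/-- The two sides of the window lie on the same strand. -/
def Sec.conn (odd : E → Bool) (σ : Sec W E) : Prop := pm odd σ.mid σ.w1 = σ.w2

/-- Good states. -/
def Good (P : Perm W) (secs : List (Sec W E)) (post : List (E × W × W)) (qp : ℕ → Bool)
    (odd : E → Bool) : Prop :=
  pm odd (crs secs post) * P = 1 ∧ ∀ σ ∈ secs, qp σ.j = true → σ.conn odd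

theorem sec_step {odd : E → Bool} {qi qo : ℕ → Bool → Bool} {qp : ℕ → Bool}
    (hq : ∀ j s, qo j s = qi j (xor s (qp j))) {σ : Sec W E} (hc : qp σ.j = true → σ.conn odd)
    {r : List (It W E)} {b b' : W → Bool} (h : RunI odd qi qo b (σ.items ++ r) b') :
    qi σ.j false = b ((pm odd σ.pre).symm σ.w1) ∧
    qi σ.j true = b ((pm odd (σ.pre ++ σ.mid)).symm σ.w2) ∧
    RunI odd qi qo (b ∘ (pm odd (σ.pre ++ σ.mid)).symm) r b' := by
  rw [Sec.items, List.append_assoc, run_xs, List.cons_append, RunI, List.append_assoc,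
    run_xs, List.singleton_append, RunI] at h
  obtain ⟨h1, h2, h3⟩ := h
  simp only [Bool.false_eq_true, if_false, if_true, hq, Bool.false_xor, Bool.true_xor] at h1 h2 h3
  have e : ∀ z, (pm odd (σ.pre ++ σ.mid)).symm z = (pm odd σ.pre).symm ((pm odd σ.mid).symm z) := by
    intro z; rw [pm_append]; rfl
  have key : qi σ.j (qp σ.j) = qi σ.j false ∧ qi σ.j (!qp σ.j) = qi σ.j true := by
    cases hp : qp σ.j
    · simp
    · have : (pm odd σ.mid).symm σ.w2 = σ.w1 := by rw [symm_apply_eq]; exact (hc hp).symm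
      simp only [hp, comp_apply, this, update_self, Bool.not_true] at h2
      simp [h2]
  rw [key.1, ← h1, update_eq_self] at h2 h3
  rw [key.2] at h2
  rw [← h2, update_eq_self] at h3
  refine ⟨h1.symm, by rw [e, ← h2]; rfl, ?_⟩
  convert h3 using 1
  funext z; simp [e]

theorem sec_bad {odd : E → Bool} {qi qo : ℕ → Bool → Bool} {qp : ℕ → Bool}
    (hq : ∀ j s, qo j s = qi j (xor s (qp j))) {σ : Sec W E} (hp : qp σ.j = true)
    (hc : ¬ σ.conn odd) {r : List (It W E)} {b b' : W → Bool}
    (h : RunI odd qi qo b (σ.items ++ r) b') :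
    b ((pm odd σ.pre).symm ((pm odd σ.mid).symm σ.w2)) = b ((pm odd σ.pre).symm σ.w1) := by
  rw [Sec.items, List.append_assoc, run_xs, List.cons_append, RunI, List.append_assoc,
    run_xs, List.singleton_append, RunI] at h
  obtain ⟨h1, h2, -⟩ := h
  have : (pm odd σ.mid).symm σ.w2 ≠ σ.w1 := by
    intro e; rw [symm_apply_eq] at e; exact hc e.symm
  simp only [Bool.false_eq_true, if_false, if_true, hq, hp, comp_apply, update_of_ne this,
    Bool.xor_self] at h1 h2
  rw [h1, h2]

/-- All wires of the word lie in `A`. -/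
def Inside (A : W → Prop) (secs : List (Sec W E)) (post : List (E × W × W)) : Prop :=
  (∀ c ∈ crs secs post, A c.2.1 ∧ A c.2.2) ∧ ∀ σ ∈ secs, A σ.w1 ∧ A σ.w2

omit [DecidableEq W] in
theorem crs_cons (σ : Sec W E) (secs : List (Sec W E)) (post : List (E × W × W)) :
    crs (σ :: secs) post = (σ.pre ++ σ.mid) ++ crs secs post := by simp [crs]

omit [DecidableEq W] in
theorem word_cons (σ : Sec W E) (secs : List (Sec W E)) (post : List (E × W × W)) :
    word (σ :: secs) post = σ.items ++ word secs post := by simp [word]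

omit [DecidableEq W] in
theorem Inside.tail {A : W → Prop} {σ : Sec W E} {secs : List (Sec W E)}
    {post : List (E × W × W)} (h : Inside A (σ :: secs) post) : Inside A secs post :=
  ⟨fun c hc => h.1 c (by rw [crs_cons]; simp [hc]), fun τ hτ => h.2 τ (by simp [hτ])⟩

theorem pm_symm_mem {odd : E → Bool} {l : List (E × W × W)} {A : W → Prop}
    (h : ∀ c ∈ l, A c.2.1 ∧ A c.2.2) {z : W} (hz : A z) : A ((pm odd l).symm z) := by
  rw [← pm_iff (odd := odd) (l := l) (A := A) (fun c hc _ => by simp [(h c hc).1, (h c hc).2])]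
  simpa using hz

theorem run_word {odd : E → Bool} {qi qo : ℕ → Bool → Bool} {qp : ℕ → Bool}
    (hq : ∀ j s, qo j s = qi j (xor s (qp j))) {A : W → Prop} {secs : List (Sec W E)}
    {post : List (E × W × W)} (hA : Inside A secs post)
    (hc : ∀ σ ∈ secs, qp σ.j = true → σ.conn odd) {b b' : W → Bool}
    (h : RunI odd qi qo b (word secs post) b') :
    b' = b ∘ (pm odd (crs secs post)).symm ∧
      ∀ x, (∀ w, A w → b w = x) → ∀ σ ∈ secs, ∀ s, qi σ.j s = x := by
  induction secs generalizing b with
  | nil =>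
    have : word ([] : List (Sec W E)) post = xsI post ++ [] := by simp [word]
    rw [this, run_xs] at h
    exact ⟨h.symm, by simp⟩
  | cons σ secs ih =>
    rw [word_cons] at h
    obtain ⟨h1, h2, h3⟩ := sec_step hq (hc σ (by simp)) h
    obtain ⟨i1, i2⟩ := ih hA.tail (fun τ hτ => hc τ (by simp [hτ])) h3
    have hA1 : ∀ c ∈ σ.pre ++ σ.mid, A c.2.1 ∧ A c.2.2 := fun c hc =>
      hA.1 c (by rw [crs_cons]; exact List.mem_append_left _ hc)
    refine ⟨by rw [i1, crs_cons, pm_append odd (σ.pre ++ σ.mid)]; rfl, fun x hx τ hτ s => ?_⟩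
    rcases List.mem_cons.1 hτ with rfl | hτ
    · cases s
      · rw [h1]
        exact hx _ (pm_symm_mem (fun c hc => hA1 c (by simp [hc])) (hA.2 τ hτ).1)
      · rw [h2]
        exact hx _ (pm_symm_mem hA1 (hA.2 τ hτ).2)
    · exact i2 x (fun w hw => hx _ (pm_symm_mem hA1 hw)) τ hτ s

omit [DecidableEq W] in
theorem mem_word_Q {secs : List (Sec W E)} {post : List (E × W × W)} {j : ℕ} {s : Bool} {w : W} :
    It.Q j s w ∈ word secs post ↔ ∃ σ ∈ secs, j = σ.j ∧ w = if s then σ.w2 else σ.w1 := by
  cases s <;> simp [word, Sec.items, xsI]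

omit [DecidableEq W] in
theorem mem_word_X {secs : List (Sec W E)} {post : List (E × W × W)} {e : E} {u v : W} :
    It.X e u v ∈ word secs post ↔ (e, u, v) ∈ crs secs post := by
  simp [word, Sec.items, xsI, crs]

omit [DecidableEq W] in
theorem lk_const {T b b' : W → Bool} {l r : List W} (h : ∀ w ∈ l, b' w = b w) {x : Bool}
    (hL : Lk T b b' x (l ++ r)) : (∀ w ∈ l, b w = x) ∧ Lk T b b' x r := by
  induction l with
  | nil => exact ⟨by simp, hL⟩
  | cons w l ih =>
    simp only [List.cons_append, Lk, h w (by simp), ite_self] at hL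
    obtain ⟨h1, h2⟩ := hL
    rw [h1] at h2
    obtain ⟨i1, i2⟩ := ih (fun w hw => h w (by simp [hw])) h2
    exact ⟨by simpa [h1] using i1, i2⟩

theorem mconn_of_eq {ws : List W} {P : Perm W} {secs : List (Sec W E)} {post : List (E × W × W)}
    {T : W → Bool} {qp : ℕ → Bool} {odd : E → Bool} (hA : Inside (· ∈ ws) secs post)
    (hP : ∀ w ∈ ws, P.symm w ∈ ws) (hc : ∀ σ ∈ secs, qp σ.j = true → σ.conn odd)
    (h : ∀ x b, Lk T b (b ∘ (pm odd (crs secs post) * P).symm) x ws →
      b ∘ (pm odd (crs secs post) * P).symm = b) :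
    MConn ws P (word secs post) T qp odd := by
  intro x b b' qi qo hL hR hq
  obtain ⟨h1, h2⟩ := run_word hq hA hc hR
  have e : b' = b := by
    rw [h1] at hL ⊢
    exact h x b hL
  subst e
  have h3 := (lk_const (r := []) (fun _ _ => rfl) (by simpa using hL)).1
  refine ⟨fun w hw => ⟨h3 w hw, h3 w hw⟩, fun j s w hm => ?_⟩
  obtain ⟨σ, hσ, rfl, -⟩ := mem_word_Q.1 hm
  exact h2 x (fun w hw => h3 _ (hP w hw)) σ hσ s

theorem mconn_of_good {ws : List W} {P : Perm W} {secs : List (Sec W E)}
    {post : List (E × W × W)} {T : W → Bool} {qp : ℕ → Bool} {odd : E → Bool}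
    (hA : Inside (· ∈ ws) secs post) (hP : ∀ w ∈ ws, P.symm w ∈ ws)
    (h : Good P secs post qp odd) : MConn ws P (word secs post) T qp odd :=
  mconn_of_eq hA hP h.2 (fun x b _ => by rw [h.1]; rfl)

theorem lk_swap_aux {T b : W → Bool} {l1 l2 l3 : List W} {a c : W}
    (hnd : (l1 ++ a :: (l2 ++ c :: l3)).Nodup) (hT : T a ≠ T c) {x : Bool}
    (h : Lk T b (b ∘ swap a c) x (l1 ++ a :: (l2 ++ c :: l3))) : b a = b c := by
  simp only [List.nodup_append, List.nodup_cons, List.mem_append, List.mem_cons] at hnd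
  obtain ⟨-, h1, h2⟩ := (lk_const (fun w hw => by
    rw [comp_apply, swap_apply_of_ne_of_ne (hnd.2.2 w hw a (Or.inl rfl))
      (hnd.2.2 w hw c (Or.inr (Or.inr (Or.inl rfl))))]) h)
  obtain ⟨-, h3, -⟩ := (lk_const (fun w hw => by
    rw [comp_apply, swap_apply_of_ne_of_ne (fun (e : w = a) => hnd.2.1.1 (Or.inl (e ▸ hw)))
      (hnd.2.1.2.2.2 w hw c (Or.inl rfl))]) h2)
  simp only [comp_apply, swap_apply_left, swap_apply_right] at h3
  revert hT h3
  cases T a <;> cases T c <;> simp [eq_comm]

theorem mconn_of_swap {ws : List W} {P : Perm W} {secs : List (Sec W E)}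
    {post : List (E × W × W)} {T : W → Bool} {qp : ℕ → Bool} {odd : E → Bool} (hnd : ws.Nodup)
    (hA : Inside (· ∈ ws) secs post) (hP : ∀ w ∈ ws, P.symm w ∈ ws)
    (hq : ∀ σ ∈ secs, qp σ.j = false) {a c : W} (ha : a ∈ ws) (hc : c ∈ ws) (hT : T a ≠ T c)
    (h : pm odd (crs secs post) * P = swap a c) : MConn ws P (word secs post) T qp odd := by
  refine mconn_of_eq hA hP (fun σ hσ h1 => by simp [hq σ hσ] at h1) (fun x b hL => ?_)
  rw [h, symm_swap] at hL ⊢
  have hac : a ≠ c := fun e => hT (by rw [e])
  have : b a = b c := by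
    obtain ⟨l1, l2, rfl⟩ := List.append_of_mem ha
    rcases List.mem_append.1 hc with hc | hc
    · obtain ⟨l3, l4, rfl⟩ := List.append_of_mem hc
      rw [List.append_assoc, List.cons_append] at hnd hL
      rw [swap_comm] at hL
      exact (lk_swap_aux hnd hT.symm hL).symm
    · obtain ⟨l3, l4, rfl⟩ := List.append_of_mem ((List.mem_cons.1 hc).resolve_left hac.symm)
      exact lk_swap_aux hnd hT hL
  funext z
  rw [comp_apply, swap_apply_def]
  split_ifs with h1 h2
  · rw [h1, this]
  · rw [h2, this]
  · rfl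

theorem good_of_labels {A : W → Prop} {odd : E → Bool} {qp : ℕ → Bool} {secs : List (Sec W E)}
    {post : List (E × W × W)} (hA : Inside A secs post) (P : Perm W) (hP : ∀ w, A w → A (P.symm w))
    (h : ∀ i, A i → ∃ (b b' : W → Bool) (qi qo : ℕ → Bool → Bool),
      (∀ w, A w → b w = decide (w = i) ∧ b' w = decide (w = i)) ∧
      RunI odd qi qo (b ∘ P.symm) (word secs post) b' ∧ ∀ j s, qo j s = qi j (xor s (qp j))) :
    (∀ w, A w → (pm odd (crs secs post) * P).symm w = w) ∧
      ∀ σ ∈ secs, qp σ.j = true → σ.conn odd := by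
  induction secs generalizing P with
  | nil =>
    refine ⟨fun w hw => ?_, by simp⟩
    obtain ⟨b, b', qi, qo, h1, h2, h3⟩ := h w hw
    have e := congrFun (run_word h3 hA (by simp) h2).1 w
    rw [(h1 w hw).2] at e
    have hm : A (P.symm ((pm odd (crs [] post)).symm w)) := hP _ (pm_symm_mem hA.1 hw)
    simp only [comp_apply, (h1 _ hm).1, decide_true] at e
    exact of_decide_eq_true e.symm
  | cons σ secs ih =>
    have hA1 : ∀ c ∈ σ.pre ++ σ.mid, A c.2.1 ∧ A c.2.2 := fun c hc =>
      hA.1 c (by rw [crs_cons]; exact List.mem_append_left _ hc)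
    have hc : qp σ.j = true → σ.conn odd := by
      intro hp
      by_contra hc
      have m1 : A (P.symm ((pm odd σ.pre).symm σ.w1)) :=
        hP _ (pm_symm_mem (fun c hc => hA1 c (by simp [hc])) (hA.2 σ (by simp)).1)
      have m2 : A (P.symm ((pm odd σ.pre).symm ((pm odd σ.mid).symm σ.w2))) :=
        hP _ (pm_symm_mem (fun c hc => hA1 c (by simp [hc]))
          (pm_symm_mem (fun c hc => hA1 c (by simp [hc])) (hA.2 σ (by simp)).2))
      obtain ⟨b, b', qi, qo, h1, h2, h3⟩ := h _ m1
      rw [word_cons] at h2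
      have := sec_bad h3 hp hc h2
      simp only [comp_apply, (h1 _ m1).1, (h1 _ m2).1, decide_true, decide_eq_true_eq,
        EmbeddingLike.apply_eq_iff_eq, symm_apply_eq] at this
      exact hc this.symm
    obtain ⟨i1, i2⟩ := ih hA.tail (pm odd (σ.pre ++ σ.mid) * P)
      (fun w hw => hP _ (pm_symm_mem hA1 hw)) (fun i hi => by
        obtain ⟨b, b', qi, qo, h1, h2, h3⟩ := h i hi
        rw [word_cons] at h2
        exact ⟨b, b', qi, qo, h1, (sec_step h3 hc h2).2.2, h3⟩)
    refine ⟨?_, fun τ hτ => ?_⟩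
    · rwa [crs_cons, pm_append odd (σ.pre ++ σ.mid), mul_assoc]
    · rcases List.mem_cons.1 hτ with rfl | hτ
      · exact hc
      · exact i2 τ hτ

/-- The wires touched by an item. -/
def It.touch : It W E → W → Prop
  | .X _ a b, w => w = a ∨ w = b
  | .Q _ _ v, w => w = v

theorem run_untouched {odd : E → Bool} {qi qo : ℕ → Bool → Bool} {wd : List (It W E)} {w : W}
    (hw : ∀ it ∈ wd, ¬ it.touch w) {b b' : W → Bool} (h : RunI odd qi qo b wd b') :
    b' w = b w := by
  induction wd generalizing b with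
  | nil => rw [show b = b' from h]
  | cons it wd ih =>
    have h1 := hw it (by simp)
    have ih' := fun b => ih (b := b) (fun it hit => hw it (by simp [hit]))
    cases it with
    | X e u v =>
      simp only [It.touch, not_or] at h1
      rw [ih' _ h]
      split_ifs
      · rw [comp_apply, swap_apply_of_ne_of_ne h1.1 h1.2]
      · rfl
    | Q j s v => rw [ih' _ h.2, update_of_ne h1]

theorem run_modify {odd : E → Bool} {qi qo : ℕ → Bool → Bool} {wd : List (It W E)}
    (F : W → Bool) (g : W → Bool) (hw : ∀ it ∈ wd, ∀ w, it.touch w → F w = false)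
    {b b' : W → Bool} (h : RunI odd qi qo b wd b') :
    RunI odd qi qo (fun w => if F w then g w else b w) wd (fun w => if F w then g w else b' w) := by
  induction wd generalizing b with
  | nil => rw [show b = b' from h]; rfl
  | cons it wd ih =>
    have h1 := hw it (by simp)
    have ih' := fun b => ih (b := b) (fun it hit => hw it (by simp [hit]))
    cases it with
    | X e u v =>
      have := ih' _ h
      simp only [RunI]
      convert this using 1
      funext z
      have a1 := h1 u (Or.inl rfl)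
      have a2 := h1 v (Or.inr rfl)
      cases odd e
      · rfl
      · simp only [if_true, comp_apply, swap_apply_def]
        by_cases e1 : z = u
        · simp [e1, a1, a2]
        by_cases e2 : z = v
        · subst e2; simp [e1, a1, a2]
        · simp [e1, e2]
    | Q j s v =>
      have a1 := h1 v rfl
      have := ih' _ h.2
      refine ⟨by simpa [a1] using h.1, ?_⟩
      convert this using 1
      funext z
      by_cases e1 : z = v
      · simp [e1, a1]
      · simp [e1]

theorem run_comp {odd odd' : E → Bool} {qi qo : ℕ → Bool → Bool} {wd : List (It W E)}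
    (ψ : Perm W) (hw : ∀ it ∈ wd, ∀ w, it.touch w → ψ w = w)
    (ho : ∀ e u v, It.X e u v ∈ wd → odd' e = odd e)
    {b b' : W → Bool} (h : RunI odd qi qo b wd b') :
    RunI odd' qi qo (b ∘ ψ) wd (b' ∘ ψ) := by
  induction wd generalizing b with
  | nil => rw [show b = b' from h]; rfl
  | cons it wd ih =>
    have h1 := hw it (by simp)
    have ih' := fun b => ih (b := b) (fun it hit => hw it (by simp [hit]))
      (fun e u v hit => ho e u v (by simp [hit]))
    cases it with
    | X e u v =>
      have := ih' _ h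
      simp only [RunI, ho e u v (by simp)]
      convert this using 1
      funext z
      have a1 := h1 u (Or.inl rfl)
      have a2 := h1 v (Or.inr rfl)
      cases odd e
      · rfl
      · simp only [if_true, comp_apply]
        rw [← ψ.injective.swap_apply, a1, a2]
    | Q j s v =>
      have a1 := h1 v rfl
      have := ih' _ h.2
      refine ⟨by simpa [a1] using h.1, ?_⟩
      convert this using 1
      funext z
      by_cases e1 : z = v
      · simp [e1, a1]
      · have : ψ z ≠ v := fun e => e1 (ψ.injective (e.trans a1.symm))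
        simp [e1, this]

theorem mconn_filter {ws : List W} (hnd : ws.Nodup) {P : Perm W} {wd : List (It W E)}
    {T : W → Bool} {qp : ℕ → Bool} {odd : E → Bool} (F : W → Bool)
    (hP : ∀ w, F w = true → P w = w) (hw : ∀ it ∈ wd, ∀ w, it.touch w → F w = false) :
    MConn ws P wd T qp odd ↔ MConn (ws.filter (fun w => !F w)) P wd T qp odd := by
  have hP' : ∀ w, F w = true → P.symm w = w := fun w h => by rw [symm_apply_eq, hP w h]
  constructor
  · intro hc x b b' qi qo hL hR hq
    have : ∃ g : W → Bool, Lk T (fun w => if F w then g w else b w)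
        (fun w => if F w then g w else b' w) x ws := by
      clear hc
      induction ws generalizing x with
      | nil => exact ⟨b, trivial⟩
      | cons w ws ih =>
        rw [List.nodup_cons] at hnd
        cases hF : F w
        · rw [List.filter_cons_of_pos (by simp [hF])] at hL
          obtain ⟨g, hg⟩ := ih hnd.2 _ hL.2
          exact ⟨g, by simpa [hF] using hL.1, by simpa [hF] using hg⟩
        · rw [List.filter_cons_of_neg (by simp [hF])] at hL
          obtain ⟨g, hg⟩ := ih hnd.2 _ hL
          refine ⟨update g w x, by simp [hF], ?_⟩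
          simp only [hF, if_true, update_self, ite_self]
          refine lk_congr (fun z hz => ?_) hg
          have : z ≠ w := fun e => hnd.1 (e ▸ hz)
          simp [this]
    obtain ⟨g, hg⟩ := this
    obtain ⟨c1, c2⟩ := hc x _ _ qi qo hg (by
      convert run_modify F g hw hR using 1
      funext z
      cases hF : F z
      · have : F (P.symm z) = false := by
          by_contra hc
          have := hP _ (by simpa using hc)
          rw [apply_symm_apply] at this
          rw [← this, hF] at hc
          exact hc rfl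
        simp [this]
      · simp [hP' z hF, hF]) hq
    refine ⟨fun w hw => ?_, c2⟩
    rw [List.mem_filter] at hw
    have := c1 w hw.1
    simpa [show F w = false by simpa using hw.2] using this
  · intro hc x b b' qi qo hL hR hq
    have hb : ∀ w, F w = true → b' w = b w := fun w h => by
      rw [run_untouched (fun it hit ht => by simp [hw it hit w ht] at h) hR, comp_apply, hP' w h]
    have hL' : Lk T b b' x (ws.filter (fun w => !F w)) := by
      clear hc hnd
      induction ws generalizing x with
      | nil => trivial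
      | cons w ws ih =>
        cases hF : F w
        · rw [List.filter_cons_of_pos (by simp [hF])]
          exact ⟨hL.1, ih _ hL.2⟩
        · rw [List.filter_cons_of_neg (by simp [hF])]
          simp only [Lk, hb w hF, ite_self] at hL
          exact ih _ (hL.1 ▸ hL.2)
    obtain ⟨c1, c2⟩ := hc x b b' qi qo hL' hR hq
    refine ⟨?_, c2⟩
    have c3 : ∀ w ∈ ws, b' w = b w := fun w hw => by
      cases hF : F w
      · have := c1 w (List.mem_filter.2 ⟨hw, by simp [hF]⟩)
        rw [this.1, this.2]
      · exact hb w hF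
    have := (lk_const (r := []) c3 (by simpa using hL)).1
    exact fun w hw => ⟨this w hw, (c3 w hw).trans (this w hw)⟩

theorem mconn_map {ws : List W} {P P' : Perm W} {wd : List (It W E)}
    {T T' : W → Bool} {qp : ℕ → Bool} {odd odd' : E → Bool} (ψ : Perm W)
    (hw : ∀ it ∈ wd, ∀ w, it.touch w → ψ w = w)
    (ho : ∀ e u v, It.X e u v ∈ wd → odd e = odd' e) (hT : ∀ w, T' (ψ w) = T w)
    (hP : P' * ψ = ψ * P) (h : MConn ws P wd T qp odd) :
    MConn (ws.map ψ) P' wd T' qp odd' := by
  intro x b b' qi qo hL hR hq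
  obtain ⟨c1, c2⟩ := h x (b ∘ ψ) (b' ∘ ψ) qi qo (by
    clear h
    induction ws generalizing x with
    | nil => trivial
    | cons w ws ih =>
      simp only [List.map_cons, Lk, hT] at hL
      exact ⟨hL.1, ih _ hL.2⟩) (by
    convert run_comp ψ hw ho hR using 1
    funext z
    simp only [comp_apply]
    congr 1
    rw [eq_symm_apply, ← Perm.mul_apply, hP]
    simp) hq
  refine ⟨fun w hw => ?_, c2⟩
  obtain ⟨z, hz, rfl⟩ := List.mem_map.1 hw
  exact c1 z hz

theorem mconn_xs {ws : List W} {wd : List (It W E)} {T : W → Bool} {qp : ℕ → Bool}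
    {odd : E → Bool} (l : List (E × W × W)) :
    MConn ws 1 (xsI l ++ wd) T qp odd ↔ MConn ws (pm odd l) wd T qp odd := by
  unfold MConn
  simp only [run_xs]
  have : ∀ j s w, It.Q j s w ∈ xsI l ++ wd ↔ It.Q j s w ∈ wd := by simp [xsI]
  simp only [this]
  rfl

end Pool.Agent.MP_f00251_lc

end MrgPart1

-- ======== part 2: formerly Pool.Agent.MP_f00251_lc.Design
section MrgPart2

/-!
The chord system attached to a graph.
-/

set_option autoImplicit false

namespace Pool.Agent.MP_f00251_lc

open Function Equiv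

/-- Wires. -/
inductive Wr : Type
  | s (x : ℕ)
  | y (x : ℕ) (v : Bool)
  | a (j : ℕ)
  | m (j : ℕ)
  deriving DecidableEq

/-- Names of crossings. -/
inductive Lt : Type
  | eta (x : ℕ) (v : Bool)
  | hh (x : ℕ) (v : Bool)
  | alt (k : Bool) (g : ℕ) (v : Bool)
  | rho (j : ℕ)
  | rhp (j : ℕ)
  | del (j : ℕ)
  | dep (j : ℕ)
  | cm (j : ℕ) (k : Bool)
  deriving DecidableEq

/-- A crossing with its two wires. -/
abbrev Cr : Type := Lt × Wr × Wr

/-- Classes of chords. -/
abbrev CL : Type := Cl Wr Lt

/-- A graph: the number of vertices and the list of edges. -/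
structure Gr : Type where
  n : ℕ
  E : List (ℕ × ℕ)

namespace Gr

variable (G : Gr)

/-- The number of edges. -/
def e : ℕ := G.E.length

/-- The number of steps of a round. -/
def q : ℕ := 4 * (G.e + G.n)

/-- The number of steps (windows). -/
def J : ℕ := 2 * G.q + 4 * G.e + 1

/-- The position of a step in its round. -/
def md (j : ℕ) : ℕ := if j < G.q then j else if j < 2 * G.q then j - G.q else j - 2 * G.q

/-- The index of the private wire of a step. -/
def rep (j : ℕ) : ℕ := if j % 2 = 1 then G.md j else j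

/-- The group `g` has a crossing of kind `k`. -/
def has (k : Bool) (g : ℕ) : Bool :=
  if g / 4 < G.e then decide (g % 4 = 1) else decide (g % 4 = if k then 3 else 1)

/-- The vertex of the crossing of kind `k` of the group `g`. -/
def xv (k : Bool) (g : ℕ) : ℕ :=
  if g / 4 < G.e then (if k then (G.E.getD (g / 4) (0, 0)).1 else (G.E.getD (g / 4) (0, 0)).2)
  else g / 4 - G.e

/-- The step `j` asks for a crossing of kind `k`. -/
def act (k : Bool) (j : ℕ) : Bool :=
  G.has k (G.md j) &&
    (decide (G.e ≤ G.md j / 4) || if k then decide (G.q ≤ j) else decide (j < 2 * G.q))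

/-- The second wire of a crossing of a group. -/
def leaf (k : Bool) (g : ℕ) (v : Bool) : Wr := if k then .y (G.xv k g) v else .s (G.xv k g)

/-- The crossings of a group in a layer. -/
def items (θ : Bool) (v : Bool) (g : ℕ) : List Cr :=
  ([!θ, θ].filter (fun k => G.has k g)).map (fun k => (.alt k g v, .a g, G.leaf k g v))

/-- The half of the left word which belongs to the value `v`. -/
def Lv (θ : Bool) (v : Bool) : List Cr :=
  (List.range G.n).map (fun x => (.eta x v, .s x, .y x v)) ++
    ((List.range G.q).flatMap (G.items θ v) ++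
      (List.range G.n).map (fun x => (.hh x v, .s x, .y x v)))

/-- The left word. -/
def Lw (θ : Bool) : List Cr := G.Lv θ false ++ G.Lv θ true

/-- The private wire of the step. -/
def aC (j : ℕ) : Wr := .a (G.rep j)

/-- The private wire of the previous step. -/
def aP (j : ℕ) : Wr := if j = 0 then .m 0 else .a (G.rep (j - 1))

/-- The wire of the vertex asked for by a step. -/
def sv (k : Bool) (j : ℕ) : Wr := .s (G.xv k (G.md j))

/-- The section of the clock word for the step `j`. -/
def sec (j : ℕ) : Sec Wr Lt where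
  pre := [(.del j, G.aP j, G.aC j), (.rhp j, G.aP j, .m (j + 1))]
  j := j
  w1 := if G.act false j && G.act true j then G.sv false j else .m (j + 1)
  mid := (.rho (j + 1), .m (j + 1), .m (j + 2)) ::
    (([false, true].filter (fun k => G.act k j)).map (fun k => (.cm j k, .m (j + 1), G.sv k j)) ++
      [(.dep j, .m (j + 1), G.aC j)])
  w2 := if G.act true j then G.sv true j else if G.act false j then G.sv false j else G.aC j

/-- All sections. -/
def secs : List (Sec Wr Lt) := (List.range G.J).map G.sec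

/-- The last crossing. -/
def post : List Cr := [(.rhp G.J, G.aP G.J, .m (G.J + 1))]

/-- The crossings before the first section. -/
def L0 (θ : Bool) : List Cr := G.Lw θ ++ [(.rho 0, .m 0, .m 1)]

/-- The whole word. -/
def wd (θ : Bool) : List (It Wr Lt) := xsI (G.L0 θ) ++ word G.secs G.post

/-- The wires which are not value wires. -/
def core : List Wr :=
  (List.range G.n).map .s ++ ((List.range G.J).map .a ++ (List.range (G.J + 2)).map .m)

/-- The value wires. -/
def ys : List Wr := (List.range G.n).map (.y · false) ++ (List.range G.n).map (.y · true)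

/-- All wires. -/
def ws : List Wr := G.core ++ G.ys

/-- The line of blocks. -/
def bl (θ : Bool) : List (CL × Bool) := blocks G.ws (G.wd θ)

/-- All crossings. -/
def allcr (θ : Bool) : List Cr := G.L0 θ ++ crs G.secs G.post

end Gr

/-- The multiplicity of a crossing. -/
def Lt.ml : Lt → ℕ
  | .alt _ _ _ => 2
  | .cm _ _ => 2
  | _ => 1

namespace Gr

variable (G : Gr)

/-- The size parameter. -/
def sz : ℕ := G.ws.length + 2 * (G.allcr false).length + 6

/-- The list of all crossing chords. -/
def Xl : List CL := (G.allcr false).flatMap (fun c => List.replicate c.1.ml (.cr c.1))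

/-- The multiplicities. -/
def mult (a b : ℕ) : CL → ℕ
  | .lnk _ => G.J * (2 * G.sz ^ b) + G.Xl.length
  | .win _ => 2 * G.sz ^ a
  | .cr l => l.ml

/-- The signed permutation. -/
def perm (a b : ℕ) (θ : Bool) : List ℤ := genome (G.mult a b) fbm (G.bl θ)

/-- The gap which shows whether a vertex has been chosen. -/
def mark (a b : ℕ) (x : ℕ) : ℕ :=
  slotOf (pt (expand (G.mult a b) fbm (G.bl false)) (fbx fbm) (((.cr (.eta x true), 0), false), false))

end Gr

end Pool.Agent.MP_f00251_lc

end MrgPart2

-- ======== part 3: formerly Pool.Agent.MP_f00251_lc.Iface3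
section MrgPart3

/-!
The polynomial-time part of the core reduction.
-/

set_option autoImplicit false

namespace Pool.Agent.MP_f00251_lc

open Pool.Agent.PolyT

open Classical in
/-- The reduction and the decoding run in polynomial time. -/
def PolyStmt : Prop :=
  ∀ a b : ℕ,
    Poly (fun z : (List ℕ × List (ℕ × ℕ)) × Bool => (Gr.mk z.1.1.length z.1.2).perm a b z.2) ∧
    Poly (fun z : (List ℕ × List (ℕ × ℕ)) × List ℤ => (List.range z.1.1.length).filter
      (fun x => decide ((Gr.mk z.1.1.length z.1.2).mark a b x ∈ Brk z.2)))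

end Pool.Agent.MP_f00251_lc

end MrgPart3

-- marker of a merged file
example : 731051 + 146106 = 731051 + 146106 := rfl
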