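import Pool.Prelude.Def_H_3587d628

/-!
Signed permutations, reversals, optimal sorting sequences, and the counting class.
-/

set_option autoImplicit false

namespace Pool.Agent.MP_f00251_lc

open N68a2faeb

/-- A signed permutation of size `n`, written as the list of its `n` entries: the absolute values
of the entries are `1, …, n` in some order. -/
def IsSP (π : List ℤ) : Prop := (π.map Int.natAbs).Perm (List.range' 1 π.length)

/-- The reversal with end positions `r = (i, j)`, positions being counted from `1`. -/
def rev (π : List ℤ) (r : ℕ × ℕ) : List ℤ :=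
  π.take (r.1 - 1) ++ (((π.take r.2).drop (r.1 - 1)).reverse.map (fun a => -a)) ++ π.drop r.2

/-- The list `s` of reversals `(i, j)`, `1 ≤ i ≤ j ≤ n`, applied from left to right, sorts `π`. -/
def Sorts (π : List ℤ) (s : List (ℕ × ℕ)) : Prop :=
  (∀ r ∈ s, 1 ≤ r.1 ∧ r.1 ≤ r.2 ∧ r.2 ≤ π.length) ∧
    s.foldl rev π = (List.range' 1 π.length).map (fun a : ℕ => (a : ℤ))

/-- The optimal sorting sequences. -/
def Opt (π : List ℤ) : Set (List (ℕ × ℕ)) :=
  {s | Sorts π s ∧ ∀ t, Sorts π t → s.length ≤ t.length}

/-- The number of optimal sorting sequences. -/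
noncomputable def numOpt (π : List ℤ) : ℕ := (Opt π).ncard

/-- The class of counting functions: `f x` is the number of bit strings `w` of length `p |x|`
accepted by a polynomial-time relation, `|x|` being the length of the code of `x`. -/
def SharpP {α : Type} [N487b59b3 α] (f : α → ℕ) : Prop :=
  ∃ (p : Polynomial ℕ) (R : α × List Bool → Bool), IsPolyTime R ∧
    ∀ x, f x = (Finset.univ.filter fun w : Fin (p.eval (N487b59b3.bitEncode x).length) → Bool =>
      R (x, List.ofFn w) = true).card

end Pool.Agent.MP_f00251_lc
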